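import Pool.Agent.W784.HP.Defs

/-!
# Bounds for the diameters and the capacity of a thin rectangle
-/

set_option autoImplicit false

open MeasureTheory ProbabilityTheory Filter Topology Finset

namespace Pool.Agent.W32.HP

open Pool.Agent.W784.HP

/-- the number of pairs -/
lemma pairs (n : ℕ) : 2 * ∑ i : Fin n, (Ioi i).card = n * (n - 1) := by
  simp only [Fin.card_Ioi]
  rw [Fin.sum_univ_eq_sum_range (fun i => n - 1 - i), Finset.sum_range_reflect (fun i => i),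
    mul_comm, Finset.sum_range_id_mul_two]

lemma pairs_real {n : ℕ} (hn : 2 ≤ n) :
    2 * ((∑ i : Fin n, (Ioi i).card : ℕ) : ℝ) = (n : ℝ) * ((n : ℝ) - 1) := by
  have h := pairs n
  have h1 : ((2 * ∑ i : Fin n, (Ioi i).card : ℕ) : ℝ) = ((n * (n - 1) : ℕ) : ℝ) := by rw [h]
  rw [Nat.cast_mul, Nat.cast_mul, Nat.cast_sub (by omega)] at h1
  exact_mod_cast h1

lemma prod_const' (n : ℕ) (c : ℝ) :
    ∏ i : Fin n, ∏ _j ∈ Ioi i, c = c ^ (∑ i : Fin n, (Ioi i).card) := by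
  simp only [Finset.prod_const]
  rw [Finset.prod_pow_eq_pow_sum]

lemma dist_thin {R : ℝ} (hR : 1 ≤ R) {z w : ℂ} (hz : z ∈ thin R) (hw : w ∈ thin R) :
    ‖z - w‖ ≤ 3 := by
  obtain ⟨h1, h2, h3⟩ := hz
  obtain ⟨h4, h5, h6⟩ := hw
  have hR1 : 1 / R ≤ 1 := by
    rw [div_le_one (by linarith)]; exact hR
  rw [abs_le] at h3 h6
  refine (Complex.norm_le_abs_re_add_abs_im _).trans ?_
  rw [Complex.sub_re, Complex.sub_im]
  have e1 : |z.re - w.re| ≤ 1 := by rw [abs_le]; constructor <;> linarith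
  have e2 : |z.im - w.im| ≤ 2 := by rw [abs_le]; constructor <;> linarith
  linarith

lemma val_le {R : ℝ} (hR : 1 ≤ R) {n : ℕ} (hn : 2 ≤ n) (z : Fin n → thin R) :
    (∏ i : Fin n, ∏ j ∈ Ioi i, ‖((z j : ℂ)) - (z i : ℂ)‖) ^
    (2 / ((n : ℝ) * ((n : ℝ) - 1))) ≤ 3 := by
  have h1 : ∏ i : Fin n, ∏ j ∈ Ioi i, ‖((z j : ℂ)) - (z i : ℂ)‖ ≤
      3 ^ (∑ i : Fin n, (Ioi i).card) := by
    rw [← prod_const']
    refine Finset.prod_le_prod (fun i _ => Finset.prod_nonneg fun j _ => norm_nonneg _)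
      fun i _ => Finset.prod_le_prod (fun j _ => norm_nonneg _)
        fun j _ => dist_thin hR (z j).2 (z i).2
  have hn' : (2 : ℝ) ≤ n := by exact_mod_cast hn
  have hpos : 0 < (n : ℝ) * ((n : ℝ) - 1) := by
    apply mul_pos <;> linarith
  refine (Real.rpow_le_rpow (Finset.prod_nonneg fun i _ => Finset.prod_nonneg
    fun j _ => norm_nonneg _) h1 (by positivity)).trans (le_of_eq ?_)
  rw [← Real.rpow_natCast, ← Real.rpow_mul (by norm_num), ← pairs_real hn]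
  have h2 := pairs_real hn
  have h3 : ((∑ i : Fin n, (Ioi i).card : ℕ) : ℝ) ≠ 0 := by
    intro h; rw [h] at h2; linarith
  rw [show ((∑ i : Fin n, (Ioi i).card : ℕ) : ℝ) * (2 / (2 * ((∑ i : Fin n, (Ioi i).card : ℕ) : ℝ)))
    = 1 by field_simp, Real.rpow_one]

lemma diam_le {R : ℝ} (hR : 1 ≤ R) {n : ℕ} (hn : 2 ≤ n) : diam (thin R) n ≤ 3 :=
  Real.iSup_le (fun z => val_le hR hn z) (by norm_num)

/-- the factorial estimate -/
lemma fac_ge (n : ℕ) : ((n : ℝ) / 3) ^ n ≤ (n.factorial : ℝ) := by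
  have h1 := Real.pow_div_factorial_le_exp (x := n) (by positivity) n
  have h2 : Real.exp n ≤ 3 ^ n := by
    have h3 : Real.exp n = Real.exp 1 ^ n := by rw [← Real.exp_nat_mul, mul_one]
    rw [h3]
    exact pow_le_pow_left₀ (Real.exp_pos _).le Real.exp_one_lt_three.le n
  have h4 : (0 : ℝ) < n.factorial := by exact_mod_cast n.factorial_pos
  rw [div_le_iff₀ h4] at h1
  rw [div_pow, div_le_iff₀ (by positivity)]
  nlinarith [mul_le_mul_of_nonneg_right h2 h4.le]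

lemma pow_ratio {m : ℕ} (hm : 1 ≤ m) : ((m : ℝ) + 1) ^ m ≤ 3 * (m : ℝ) ^ m := by
  have hm0 : (0 : ℝ) < m := by exact_mod_cast hm
  have h1 : (m : ℝ) + 1 ≤ m * Real.exp (1 / m) := by
    have := Real.add_one_le_exp (1 / (m : ℝ))
    have h2 := mul_le_mul_of_nonneg_left this hm0.le
    have h3 : (m : ℝ) * (1 / m + 1) = m + 1 := by field_simp; ring
    linarith
  have h2 := pow_le_pow_left₀ (by positivity) h1 m
  rw [mul_pow, ← Real.exp_nat_mul, show (m : ℝ) * (1 / m) = 1 by field_simp] at h2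
  have h3 := mul_le_mul_of_nonneg_left Real.exp_one_lt_three.le (pow_nonneg hm0.le m)
  linarith

/-- superfactorials -/
lemma sf_ge (m : ℕ) : ((m : ℝ) / 8) ^ (m * (m + 1)) ≤ (Nat.superFactorial m : ℝ) ^ 2 := by
  induction m with
  | zero => simp
  | succ m ih =>
    rcases Nat.eq_zero_or_pos m with rfl | hm
    · norm_num [Nat.superFactorial]
    · have hm0 : (0 : ℝ) < m := by exact_mod_cast hm
      rw [Nat.superFactorial_succ]
      push_cast
      have h1 := pow_ratio hm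
      have h2 := fac_ge (m + 1)
      push_cast at h2
      have h3 : (((m : ℝ) + 1) / 8) ^ (m * (m + 1)) ≤ 3 ^ (m + 1) * (m / 8) ^ (m * (m + 1)) := by
        have h4 := pow_le_pow_left₀ (by positivity) h1 (m + 1)
        rw [mul_pow, ← pow_mul, ← pow_mul] at h4
        rw [div_pow, div_pow, ← mul_div_assoc]
        exact div_le_div_of_nonneg_right h4 (by positivity)
      have h5 : (3 : ℝ) ^ (m + 1) * (((m : ℝ) + 1) / 8) ^ (2 * (m + 1)) ≤
          ((m + 1).factorial : ℝ) ^ 2 := by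
        refine le_trans ?_ (pow_le_pow_left₀ (by positivity) h2 2)
        rw [pow_mul, ← mul_pow, ← pow_mul, mul_comm (m + 1) 2, pow_mul]
        refine pow_le_pow_left₀ (by positivity) ?_ _
        have : 0 < ((m : ℝ) + 1) ^ 2 := by positivity
        rw [div_pow, div_pow]
        nlinarith
      calc (((m : ℝ) + 1) / 8) ^ ((m + 1) * (m + 1 + 1))
          = (((m : ℝ) + 1) / 8) ^ (m * (m + 1)) * (((m : ℝ) + 1) / 8) ^ (2 * (m + 1)) := by
            rw [← pow_add]; congr 1; ring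
        _ ≤ (3 ^ (m + 1) * (m / 8) ^ (m * (m + 1))) * (((m : ℝ) + 1) / 8) ^ (2 * (m + 1)) :=
            mul_le_mul_of_nonneg_right h3 (by positivity)
        _ = ((m : ℝ) / 8) ^ (m * (m + 1)) * (3 ^ (m + 1) * (((m : ℝ) + 1) / 8) ^ (2 * (m + 1))) := by
            ring
        _ ≤ (Nat.superFactorial m : ℝ) ^ 2 * ((m + 1).factorial : ℝ) ^ 2 :=
            mul_le_mul ih h5 (by positivity) (by positivity)
        _ = (((m + 1).factorial : ℝ) * (Nat.superFactorial m : ℝ)) ^ 2 := by ring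

/-- the points -/
noncomputable def pt (R : ℝ) (m : ℕ) (k : ℕ) : ℂ := ⟨R, -1 + 2 * k / m⟩

lemma pt_mem {R : ℝ} (hR : 1 ≤ R) {m : ℕ} (hm : 1 ≤ m) {k : ℕ} (hk : k ≤ m) :
    pt R m k ∈ thin R := by
  have hm0 : (0 : ℝ) < m := by exact_mod_cast hm
  have hk' : (k : ℝ) ≤ m := by exact_mod_cast hk
  refine ⟨le_rfl, ?_, ?_⟩
  · show R ≤ R + 1 / R
    have : 0 < 1 / R := by positivity
    linarith
  · show |-1 + 2 * (k : ℝ) / m| ≤ 1
    have h1 : 0 ≤ 2 * (k : ℝ) / m := by positivity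
    have h2 : 2 * (k : ℝ) / m ≤ 2 := by
      rw [div_le_iff₀ hm0]; linarith
    rw [abs_le]; constructor <;> linarith

lemma pt_dist (R : ℝ) {m : ℕ} (hm : 1 ≤ m) {j i : ℕ} (h : i < j) :
    ‖pt R m j - pt R m i‖ = 2 / m * ((j : ℝ) - i) := by
  have hm0 : (0 : ℝ) < m := by exact_mod_cast hm
  have hij : (i : ℝ) < j := by exact_mod_cast h
  have e : pt R m j - pt R m i = ((2 / m * ((j : ℝ) - i) : ℝ) : ℂ) * Complex.I := by
    apply Complex.ext
    · simp [pt]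
    · simp [pt]
      ring
  rw [e, norm_mul, Complex.norm_I, mul_one, Complex.norm_real, Real.norm_eq_abs]
  exact abs_of_nonneg (mul_nonneg (by positivity) (by linarith))

lemma prod_pt (R : ℝ) {m : ℕ} (hm : 1 ≤ m) :
    ∏ i : Fin (m + 1), ∏ j ∈ Ioi i, ‖pt R m j - pt R m i‖ =
      (2 / (m : ℝ)) ^ (∑ i : Fin (m + 1), (Ioi i).card) * (Nat.superFactorial m : ℝ) := by
  have h1 : ∏ i : Fin (m + 1), ∏ j ∈ Ioi i, ‖pt R m j - pt R m i‖ =
      ∏ i : Fin (m + 1), ∏ j ∈ Ioi i, (2 / (m : ℝ) * (((j : ℕ) : ℝ) - ((i : ℕ) : ℝ))) := by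
    refine Finset.prod_congr rfl fun i _ => Finset.prod_congr rfl fun j hj => ?_
    have hij : i < j := Finset.mem_Ioi.1 hj
    exact pt_dist R hm hij
  have h2 := Matrix.det_vandermonde_id_eq_superFactorial (R := ℝ) m
  rw [Matrix.det_vandermonde] at h2
  rw [h1, ← h2, ← prod_const']
  simp only [Finset.prod_mul_distrib]

lemma le_diam {R : ℝ} (hR : 1 ≤ R) {n : ℕ} (hn : 2 ≤ n) : 1 / 4 ≤ diam (thin R) n := by
  obtain ⟨m, rfl⟩ : ∃ m, n = m + 1 := ⟨n - 1, by omega⟩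
  have hm : 1 ≤ m := by omega
  have hm0 : (0 : ℝ) < m := by exact_mod_cast hm
  have hbdd : BddAbove (Set.range fun z : Fin (m + 1) → thin R =>
      (∏ i : Fin (m + 1), ∏ j ∈ Ioi i, ‖((z j : ℂ)) - (z i : ℂ)‖) ^
        (2 / (((m + 1 : ℕ) : ℝ) * (((m + 1 : ℕ) : ℝ) - 1)))) := by
    refine ⟨3, ?_⟩
    rintro _ ⟨z, rfl⟩
    exact val_le hR hn z
  refine le_trans ?_ (le_ciSup hbdd (fun k => ⟨pt R m k, pt_mem hR hm (by omega)⟩))
  dsimp only
  rw [prod_pt R hm]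
  have hT2 : 2 * (∑ i : Fin (m + 1), (Ioi i).card) = (m + 1) * m := by
    exact pairs (m + 1)
  have hT3 : 2 * ((∑ i : Fin (m + 1), (Ioi i).card : ℕ) : ℝ) =
    ((m + 1 : ℕ) : ℝ) * (((m + 1 : ℕ) : ℝ) - 1) := pairs_real hn
  generalize (∑ i : Fin (m + 1), (Ioi i).card) = T at hT2 hT3 ⊢
  have hT0 : (0 : ℝ) < T := by
    have : (0 : ℝ) < ((m + 1 : ℕ) : ℝ) * (((m + 1 : ℕ) : ℝ) - 1) := by
      push_cast
      apply mul_pos <;> linarith
    linarith
  rw [← hT3]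
  have hsf := sf_ge m
  have hS0 : 0 ≤ (Nat.superFactorial m : ℝ) := by positivity
  generalize (Nat.superFactorial m : ℝ) = S at hsf hS0 ⊢
  have h1 : (1 / 4 : ℝ) ^ (2 * T) ≤ ((2 / (m : ℝ)) ^ T * S) ^ 2 := by
    have h3 : (1 / 4 : ℝ) ^ (2 * T) = ((2 / (m : ℝ)) ^ T) ^ 2 * ((m : ℝ) / 8) ^ (m * (m + 1)) := by
      rw [← pow_mul, mul_comm T 2, mul_comm m (m + 1), ← hT2, ← mul_pow]
      congr 1
      field_simp
      norm_num
    rw [h3, mul_pow]
    exact mul_le_mul_of_nonneg_left hsf (by positivity)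
  have h4 : ((2 / (m : ℝ)) ^ T * S) ^ (2 / (2 * (T : ℝ))) =
      (((2 / (m : ℝ)) ^ T * S) ^ 2) ^ (1 / (2 * (T : ℝ))) := by
    rw [← Real.rpow_natCast _ 2, ← Real.rpow_mul (by positivity)]
    congr 1
    push_cast
    ring
  rw [h4]
  have h5 := Real.rpow_le_rpow (by positivity) h1 (show 0 ≤ 1 / (2 * (T : ℝ)) by positivity)
  refine le_trans (le_of_eq ?_) h5
  rw [← Real.rpow_natCast, ← Real.rpow_mul (by norm_num)]
  push_cast
  have hT1 : 2 * (T : ℝ) * (1 / (2 * T)) = 1 := by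
    field_simp
  rw [hT1, Real.rpow_one]

theorem cap_bounds (R : ℝ) (hR : 1 ≤ R) : (∀ n : ℕ, 2 ≤ n → 1 / 4 ≤ diam (thin R) n) ∧
    (∀ n : ℕ, 2 ≤ n → diam (thin R) n ≤ 4) ∧ 1 / 4 ≤ capacity (thin R) := by
  have h1 : ∀ n : ℕ, 2 ≤ n → 1 / 4 ≤ diam (thin R) n := fun n hn => le_diam hR hn
  have h2 : ∀ n : ℕ, 2 ≤ n → diam (thin R) n ≤ 4 := fun n hn =>
    (diam_le hR hn).trans (by norm_num)
  refine ⟨h1, h2, ?_⟩
  unfold capacity
  refine Filter.le_limsup_of_frequently_le ?_ ?_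
  · refine Filter.Eventually.frequently ?_
    filter_upwards [Filter.eventually_ge_atTop 2] with n hn using h1 n hn
  · refine ⟨4, ?_⟩
    rw [Filter.eventually_map]
    filter_upwards [Filter.eventually_ge_atTop 2] with n hn using h2 n hn

end Pool.Agent.W32.HP
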