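import Pool.Agent.W32.T12

set_option autoImplicit false

namespace Pool.Agent.W32

open PowerSeries

theorem L7p_map {R S : Type*} [CommRing R] [CommRing S] (f : R →+* S) (Q : Polynomial R) :
    (L7p Q).map f = L7p (Q.map f) := by
  unfold L7p Dp
  simp only [Polynomial.map_sub, Polynomial.map_mul, Polynomial.map_add, Polynomial.map_one,
    Polynomial.map_ofNat, Polynomial.map_X, tp_map]

theorem coe_map_int {K : Type*} [Field K] (Q : Polynomial ℤ) :
    PowerSeries.map (Int.castRingHom K) (Q : ℤ⟦X⟧) =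
      ((Q.map (Int.castRingHom K) : Polynomial K) : K⟦X⟧) :=
  (Polynomial.polynomial_map_coe).symm

theorem coe_trunc_eq {R : Type*} [CommRing R] {n : ℕ} {f : R⟦X⟧}
    (h : ∀ i, n ≤ i → coeff i f = 0) : ((trunc n f : Polynomial R) : R⟦X⟧) = f := by
  ext i
  rw [Polynomial.coeff_coe, coeff_trunc]
  split_ifs with hi
  · rfl
  · rw [h i (by omega)]

theorem coe_C_mul (p : ℕ) (Q : Polynomial ℤ) :
    ((Polynomial.C (p : ℤ) * Q : Polynomial ℤ) : ℤ⟦X⟧) = (p : ℤ⟦X⟧) * (Q : ℤ⟦X⟧) := by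
  rw [Polynomial.coe_mul, Polynomial.coe_C]; simp

theorem Dp_eval {K : Type*} [Field K] (α : K) :
    (Dp : Polynomial K).eval α = 1 - 26 * α - 27 * (α * α) := by
  unfold Dp; simp

theorem A_three {A : ℤ⟦X⟧} (h1 : constantCoeff A = 1) (hA : A * A = Z7) :
    coeff 3 A = 336 := by
  have e1 := congrArg (coeff 1) hA
  have e2 := congrArg (coeff 2) hA
  have e3 := congrArg (coeff 3) hA
  rw [coeff_mul, Z7, coeff_mk] at e1 e2 e3
  have t2 : T7 2 = 48 := by decide
  have t3 : T7 3 = 760 := by decide +kernel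
  have c0 : coeff 0 A = 1 := by rw [coeff_zero_eq_constantCoeff_apply, h1]
  rw [Finset.Nat.antidiagonal_succ] at e1 e2 e3
  simp [Finset.Nat.antidiagonal_succ, c0, T7_one, t2, t3] at e1 e2 e3
  have a1 : coeff 1 A = 2 := by linarith
  rw [a1] at e2 e3
  have a2 : coeff 2 A = 22 := by linarith
  rw [a2] at e3
  linarith

theorem main11 {p : ℕ} [hp : Fact p.Prime] (hp11 : 11 ≤ p) {s : ZMod p} (hs : s ^ 2 = -7)
    {A U : ℤ⟦X⟧} (h1 : constantCoeff A = 1) (hA : A * A = Z7) (hU : A * U = 1) (m : ℕ) :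
    ((p : ℤ) ^ 2) ∣ coeff (p * m) A - coeff m A := by
  let K := AlgebraicClosure (ZMod p)
  obtain ⟨h, hh, hP, hS⟩ := modp (K := K) hp11 hs h1 hA hU
  set φ := PowerSeries.map (Int.castRingHom K) with hφ
  have hpK : (p : K⟦X⟧) = 0 := by
    rw [← map_natCast (C (R := K)), CharP.cast_eq_zero, map_zero]
  have hne : ∀ k : ℕ, 0 < k → (∀ q : ℕ, q.Prime → q ∣ k → q < 11) → (k : K) ≠ 0 := by
    intro k h2 h3 h4
    rw [CharP.cast_eq_zero_iff K p] at h4
    exact absurd (h3 p hp.out h4) (by omega)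
  -- degree of `h`
  have hPd := natDegree_Pp (K := K) hp.out.pos
  have hP0 := coeff_zero_Pp (K := K) hp.out.pos
  have hPne : Pp K p ≠ 0 := by intro h5; rw [h5] at hP0; simp at hP0
  have hh0 : h ≠ 0 := by rintro rfl; rw [zero_mul] at hP; exact hPne hP.symm
  have hdeg : 2 * h.natDegree < p := by
    rw [← hP, Polynomial.natDegree_mul hh0 hh0] at hPd
    omega
  have cA0 : coeff 0 A = 1 := by rw [coeff_zero_eq_constantCoeff_apply, h1]
  have cU0 : constantCoeff U = 1 := by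
    have := congrArg constantCoeff hU
    rw [map_mul, h1, one_mul, map_one] at this
    exact this
  have cG0 : coeff 0 (A * U ^ p) = 1 := by
    rw [coeff_zero_eq_constantCoeff_apply, map_mul, map_pow, h1, cU0]; simp
  have ch0 : h.coeff 0 = 1 := by
    have := congrArg (coeff 0) hh
    rw [Polynomial.coeff_coe, hφ, coeff_map, cG0] at this
    simpa using this
  -- integral lift of `h`
  set N := (p + 1) / 2 with hN
  have hodd : p % 2 = 1 := by
    rcases hp.out.eq_two_or_odd with h5 | h5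
    · omega
    · exact h5
  set H : Polynomial ℤ := trunc N (A * U ^ p) with hH
  have hHmap : H.map (Int.castRingHom K) = h := by
    ext i
    rw [Polynomial.coeff_map, hH, coeff_trunc]
    have := congrArg (coeff i) hh
    rw [Polynomial.coeff_coe, hφ, coeff_map] at this
    split_ifs with hi
    · exact this.symm
    · rw [map_zero, Polynomial.coeff_eq_zero_of_natDegree_lt (by omega)]
  have hHφ : φ (H : ℤ⟦X⟧) = (h : K⟦X⟧) := by rw [hφ, coe_map_int, hHmap]
  have cH0 : H.coeff 0 = 1 := by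
    rw [hH, coeff_trunc, if_pos (by omega), cG0]
  have hHz : ∀ i, N ≤ i → H.coeff i = 0 := by
    intro i hi
    rw [hH, coeff_trunc, if_neg (by omega)]
  have hHz' : ∀ i, p ≤ i → coeff i (H : ℤ⟦X⟧) = 0 := by
    intro i hi
    rw [Polynomial.coeff_coe]
    exact hHz i (by omega)
  -- the correction
  obtain ⟨δ, hδ0⟩ := dvd_of_map (K := K) (p := p)
    (f := A - (H : ℤ⟦X⟧) * expand p hp.out.ne_zero A) (by
      rw [map_sub, map_mul, PowerSeries.map_expand, expand_eq_pow, ← hφ, hHφ, hh, map_mul, map_pow,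
        mul_assoc, ← mul_pow, ← map_mul, mul_comm U A, hU, map_one, one_pow, mul_one, sub_self])
  have hδ : A = (H : ℤ⟦X⟧) * expand p hp.out.ne_zero A + (p : ℤ⟦X⟧) * δ := by
    linear_combination hδ0
  obtain ⟨V, W, hV0, hVz, hZ⟩ := Z7_mod hp.out
  -- `Y`
  set Pi : Polynomial ℤ := trunc p Z7 with hPi
  have hPiPT : (Pi : ℤ⟦X⟧) = PT p := by
    ext i
    rw [Polynomial.coeff_coe, hPi, coeff_trunc, PT, coeff_mk, Z7, coeff_mk]
  have hPimap : Pi.map (Int.castRingHom K) = Pp K p := by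
    ext i
    rw [Polynomial.coeff_map, hPi, Pp, coeff_trunc, coeff_trunc, coeff_map]
    split_ifs
    · rfl
    · simp
  obtain ⟨Y, hY, hYc⟩ := pdvd_of_map (K := K) (p := p) (f := Pi - H * H) (by
    rw [Polynomial.map_sub, Polynomial.map_mul, hPimap, hHmap, hP, sub_self])
  have hHdeg : H.natDegree ≤ N - 1 := by
    rw [Polynomial.natDegree_le_iff_coeff_eq_zero]
    intro i hi
    exact hHz i (by omega)
  have hYz : ∀ i, p ≤ i → Y.coeff i = 0 := by
    intro i hi
    apply hYc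
    rw [Polynomial.coeff_sub, hPi, coeff_trunc, if_neg (by omega), zero_sub, neg_eq_zero]
    apply Polynomial.coeff_eq_zero_of_natDegree_lt
    exact lt_of_le_of_lt (Polynomial.natDegree_mul_le_of_le hHdeg hHdeg) (by omega)
  have hY0 : Y.coeff 0 = 0 := by
    apply hYc
    rw [Polynomial.coeff_sub, hPi, coeff_trunc, if_pos hp.out.pos, Polynomial.mul_coeff_zero, cH0,
      Z7, coeff_mk, T7_zero]
    norm_num
  have hYY : PT p = (H : ℤ⟦X⟧) * (H : ℤ⟦X⟧) + (p : ℤ⟦X⟧) * (Y : ℤ⟦X⟧) := by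
    rw [← coe_C_mul, ← hY, ← hPiPT, ← Polynomial.coe_mul, ← Polynomial.coe_add]
    congr 1; ring
  -- `V` as a polynomial
  set Vi : Polynomial ℤ := trunc p V with hVi
  have hViV : (Vi : ℤ⟦X⟧) = V := coe_trunc_eq hVz
  -- `l`
  have hLA : L7 A = 0 := L7_of_sq h1 hA
  have hup : th ((φ U) ^ p) = 0 := by
    rw [th_pow, hpK]; ring
  have hLh : L7p h = 0 := by
    apply Polynomial.coe_injective K
    rw [coe_L7p, hh, map_mul, map_pow, L7_mul_const hup, hφ, L7_map, hLA, map_zero, mul_zero,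
      Polynomial.coe_zero]
  obtain ⟨l, hl, -⟩ := pdvd_of_map (K := K) (p := p) (f := L7p H) (by
    rw [L7p_map, hHmap, hLh])
  have hl' : L7 (H : ℤ⟦X⟧) = (p : ℤ⟦X⟧) * (l : ℤ⟦X⟧) := by
    rw [← coe_C_mul, ← hl, coe_L7p]
  have q1 := eqOne (K := K) hA hU hδ hYY hZ
  have q2 := eqTwo (K := K) hLA hδ hl'
  rw [← hφ, hHφ] at q1 q2
  set a := φ A with ha
  set yk : Polynomial K := Y.map (Int.castRingHom K) with hyk
  set vk : Polynomial K := Vi.map (Int.castRingHom K) with hvk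
  set lk : Polynomial K := l.map (Int.castRingHom K) with hlk
  have ey : φ (Y : ℤ⟦X⟧) = (yk : K⟦X⟧) := coe_map_int _
  have ev : φ V = (vk : K⟦X⟧) := by rw [← hViV]; exact coe_map_int _
  have el : φ (l : ℤ⟦X⟧) = (lk : K⟦X⟧) := coe_map_int _
  rw [ey, ev] at q1
  rw [el] at q2
  have hae := th_expand hp.out.ne_zero a
  have hbe := th_expand hp.out.ne_zero (th a)
  rw [hpK, zero_mul] at hae hbe
  have hae2 : a = (h : K⟦X⟧) * expand p hp.out.ne_zero a := by
    have := congrArg φ hδ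
    rw [map_add, map_mul, map_mul, map_natCast, hpK, zero_mul, add_zero, hHφ, hφ,
      PowerSeries.map_expand] at this
    exact this
  have hap : expand p hp.out.ne_zero a = a ^ p := expand_eq_pow A
  have hbp : expand p hp.out.ne_zero (th a) = (th a) ^ p := by
    rw [ha, hφ, th_map]
    exact expand_eq_pow (th A)
  have hthp : th (a ^ p) = 0 := by rw [← hap]; exact hae
  have ha0 : a ≠ 0 := by
    intro h5
    have h6 := congrArg φ hU
    rw [map_mul, ← ha, h5, zero_mul, map_one] at h6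
    exact zero_ne_one h6
  have hta : th a = th (h : K⟦X⟧) * a ^ p := by
    conv_lhs => rw [hae2, hap]
    rw [th_mul, hthp]; ring
  have hbb : (th a) ^ p * (h : K⟦X⟧) ^ p = (th (h : K⟦X⟧)) ^ p * a ^ p := by
    have e5 : (a : K⟦X⟧) ^ p = (h : K⟦X⟧) ^ p * (a ^ p) ^ p := by
      rw [← mul_pow, ← hap, ← hae2]
      exact hap
    have e6 : (th a) ^ p = (th (h : K⟦X⟧)) ^ p * (a ^ p) ^ p := by
      rw [hta, mul_pow]
    rw [e6]
    linear_combination (-(th (h : K⟦X⟧)) ^ p) * e5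
  have hN0 : (2 * h ^ 3 * lk + Qop h yk) * h ^ p
      + (2 * h ^ 3 * (2 * Dp * tp h - (13 * Polynomial.X + 27 * (Polynomial.X * Polynomial.X)) * h)
        + 2 * Qop h vk) * (tp h) ^ p = 0 := by
    apply Polynomial.coe_injective K
    have hq : ∀ Q : Polynomial K, ((Qop h Q : Polynomial K) : K⟦X⟧) =
        Dl * ((h : K⟦X⟧) ^ 2 * th (th (Q : K⟦X⟧)) - 2 * (h : K⟦X⟧) * th (h : K⟦X⟧) * th (Q : K⟦X⟧)
          + (2 * (th (h : K⟦X⟧)) ^ 2 - (h : K⟦X⟧) * th (th (h : K⟦X⟧))) * (Q : K⟦X⟧))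
        - (13 * X + 27 * (X * X)) * ((h : K⟦X⟧) ^ 2 * th (Q : K⟦X⟧)
          - (h : K⟦X⟧) * th (h : K⟦X⟧) * (Q : K⟦X⟧))
        - (2 * X + 6 * (X * X)) * (h : K⟦X⟧) ^ 2 * (Q : K⟦X⟧) := by
      intro Q
      unfold Qop
      simp only [← coe_tp, ← coe_Dp, ← Polynomial.coe_X]
      simp only [← Polynomial.coeToPowerSeries.ringHom_apply, map_sub, map_mul, map_ofNat, map_add,
        map_pow]
    have eh : (tp h : K⟦X⟧) = th (h : K⟦X⟧) := coe_tp h
    have e7 : (((2 * h ^ 3 * lk + Qop h yk) * h ^ p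
      + (2 * h ^ 3 * (2 * Dp * tp h - (13 * Polynomial.X + 27 * (Polynomial.X * Polynomial.X)) * h)
        + 2 * Qop h vk) * (tp h) ^ p : Polynomial K) : K⟦X⟧) =
      (2 * (h : K⟦X⟧) ^ 3 * (lk : K⟦X⟧) + ((Qop h yk : Polynomial K) : K⟦X⟧)) * (h : K⟦X⟧) ^ p
      + (2 * (h : K⟦X⟧) ^ 3 * (2 * Dl * th (h : K⟦X⟧) - (13 * X + 27 * (X * X)) * (h : K⟦X⟧))
        + 2 * ((Qop h vk : Polynomial K) : K⟦X⟧)) * (th (h : K⟦X⟧)) ^ p := by
      rw [← eh, ← coe_Dp, ← Polynomial.coe_X]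
      simp only [← Polynomial.coeToPowerSeries.ringHom_apply, map_sub, map_mul, map_ofNat, map_add,
        map_pow]
    rw [e7, hq, hq, Polynomial.coe_zero]
    have hap0 : a ^ p ≠ 0 := pow_ne_zero _ ha0
    apply mul_left_cancel₀ hap0
    rw [mul_zero]
    -- differentiate the first relation
    have d1 := congrArg th q1
    have d2 := congrArg th d1
    simp only [th_add, th_mul, th_ofNat, hae, hbe, mul_zero, zero_add, add_zero] at d1 d2
    unfold L7 at q2
    rw [hap, hbp] at q1 q2 d1 d2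
    set x := φ δ with hx
    linear_combination (h : K⟦X⟧) ^ p * (2 * (h : K⟦X⟧) ^ 3 * q2
        - Dl * ((h : K⟦X⟧) ^ 2 * d2 - 2 * (h : K⟦X⟧) * th (h : K⟦X⟧) * d1
          + (2 * (th (h : K⟦X⟧)) ^ 2 - (h : K⟦X⟧) * th (th (h : K⟦X⟧))) * q1)
        + (13 * X + 27 * (X * X)) * ((h : K⟦X⟧) ^ 2 * d1 - (h : K⟦X⟧) * th (h : K⟦X⟧) * q1)
        + (2 * X + 6 * (X * X)) * (h : K⟦X⟧) ^ 2 * q1)
      - (2 * (h : K⟦X⟧) ^ 3 * (2 * Dl * th (h : K⟦X⟧) - (13 * X + 27 * (X * X)) * (h : K⟦X⟧))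
        + 2 * (Dl * ((h : K⟦X⟧) ^ 2 * th (th (vk : K⟦X⟧))
            - 2 * (h : K⟦X⟧) * th (h : K⟦X⟧) * th (vk : K⟦X⟧)
          + (2 * (th (h : K⟦X⟧)) ^ 2 - (h : K⟦X⟧) * th (th (h : K⟦X⟧))) * (vk : K⟦X⟧))
        - (13 * X + 27 * (X * X)) * ((h : K⟦X⟧) ^ 2 * th (vk : K⟦X⟧)
          - (h : K⟦X⟧) * th (h : K⟦X⟧) * (vk : K⟦X⟧))
        - (2 * X + 6 * (X * X)) * (h : K⟦X⟧) ^ 2 * (vk : K⟦X⟧))) * hbb
  -- roots of `h`
  have h784 : (784 : K) ≠ 0 := by
    have := hne 784 (by norm_num) (by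
      intro q hq hq2
      have h5 : (784 : ℕ) = 2 ^ 4 * 7 ^ 2 := by norm_num
      rw [h5] at hq2
      rcases (Nat.Prime.dvd_mul hq).1 hq2 with h6 | h6
      · have := Nat.le_of_dvd (by norm_num) (hq.dvd_of_dvd_pow h6); omega
      · have := Nat.le_of_dvd (by norm_num) (hq.dvd_of_dvd_pow h6); omega)
    exact_mod_cast this
  have h336 : (336 : K) ≠ 0 := by
    have := hne 336 (by norm_num) (by
      intro q hq hq2
      have h5 : (336 : ℕ) = 2 ^ 4 * (3 * 7) := by norm_num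
      rw [h5] at hq2
      rcases (Nat.Prime.dvd_mul hq).1 hq2 with h6 | h6
      · have := Nat.le_of_dvd (by norm_num) (hq.dvd_of_dvd_pow h6); omega
      · rcases (Nat.Prime.dvd_mul hq).1 h6 with h7 | h7
        · have := Nat.le_of_dvd (by norm_num) h7; omega
        · have := Nat.le_of_dvd (by norm_num) h7; omega)
    exact_mod_cast this
  have hroot : ∀ α : K, h.IsRoot α → (Dp : Polynomial K).eval α ≠ 0 ∧ (tp h).eval α ≠ 0 := by
    intro α hα
    have hα0 : α ≠ 0 := by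
      rintro rfl
      rw [Polynomial.IsRoot.def, ← Polynomial.coeff_zero_eq_eval_zero, ch0] at hα
      exact one_ne_zero hα
    have hrP : (Pp K p).IsRoot α := by
      rw [← hP, Polynomial.IsRoot.def, Polynomial.eval_mul, hα.eq_zero, zero_mul]
    have hm := mult_all hS hPne hPd h784 hα0 hrP
    have hm2 : (Pp K p).rootMultiplicity α = h.rootMultiplicity α + h.rootMultiplicity α := by
      rw [← hP, Polynomial.rootMultiplicity_mul (mul_ne_zero hh0 hh0)]
    have hD : 1 - 26 * α - 27 * (α * α) ≠ 0 := by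
      intro h5
      have := hm.1 h5
      omega
    refine ⟨by rw [Dp_eval]; exact hD, ?_⟩
    have hmult : h.rootMultiplicity α = 1 := by
      have := hm.2 hD
      omega
    intro h5
    rw [tp, Polynomial.eval_mul, Polynomial.eval_X] at h5
    have h6 : h.derivative.IsRoot α := (mul_eq_zero.1 h5).resolve_left hα0
    have h7 := (Polynomial.one_lt_rootMultiplicity_iff_isRoot hh0).2 ⟨hα, h6⟩
    omega
  have hd2 : 2 ≤ h.natDegree := by
    have c3 : h.coeff 3 = 336 := by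
      have h5 := congrArg (coeff (3 : ℕ)) hae2
      have h6 : coeff 3 ((h : K⟦X⟧) * expand p hp.out.ne_zero a) = h.coeff 3 := by
        have := coeff_mul_expand hp.out.ne_zero (Q := (h : K⟦X⟧)) (f := a) (by
          intro i hi
          rw [Polynomial.coeff_coe]
          exact Polynomial.coeff_eq_zero_of_natDegree_lt (by omega)) (r := 3) (by omega) 0
        rw [mul_zero, zero_add] at this
        rw [this, Polynomial.coeff_coe, ha, hφ, coeff_map, cA0]; simp
      rw [h6, ha, hφ, coeff_map, A_three h1 hA] at h5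
      rw [← h5]; simp
    by_contra hlt
    rw [Polynomial.coeff_eq_zero_of_natDegree_lt (by omega)] at c3
    exact h336 c3.symm
  have hvdeg : vk.natDegree < p := by
    have : vk.natDegree ≤ p - 1 := by
      rw [Polynomial.natDegree_le_iff_coeff_eq_zero]
      intro i hi
      rw [hvk, Polynomial.coeff_map, hVi, coeff_trunc, if_neg (by omega), map_zero]
    have := hp.out.pos
    omega
  obtain ⟨⟨y1, hy1⟩, ⟨v1, hv1⟩⟩ := alg_key hp11 ch0 hroot hdeg hd2 hvdeg hN0
  have hq3 : 2 * φ δ = (y1 : K⟦X⟧) * expand p hp.out.ne_zero a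
      + 2 * ((v1 : K⟦X⟧) * expand p hp.out.ne_zero (th a)) := by
    have hhK : (h : K⟦X⟧) ≠ 0 := by
      intro h5
      apply hh0
      apply Polynomial.coe_injective K
      rw [h5, Polynomial.coe_zero]
    apply mul_left_cancel₀ hhK
    have ey1 : (yk : K⟦X⟧) = (h : K⟦X⟧) * (y1 : K⟦X⟧) := by rw [hy1, Polynomial.coe_mul]
    have ev1 : (vk : K⟦X⟧) = (h : K⟦X⟧) * (v1 : K⟦X⟧) := by rw [hv1, Polynomial.coe_mul]
    rw [ey1, ev1] at q1
    linear_combination q1
  have hcoef : ∀ (q q1 : Polynomial K), q = h * q1 → (∀ i, p ≤ i → q.coeff i = 0) →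
      q.coeff 0 = 0 → (∀ i, p ≤ i → q1.coeff i = 0) ∧ q1.coeff 0 = 0 := by
    intro q q1 hq hqd hq0
    constructor
    · intro i hi
      rcases eq_or_ne q 0 with h5 | h5
      · rw [h5] at hq
        have := (mul_eq_zero.1 hq.symm).resolve_left hh0
        rw [this, Polynomial.coeff_zero]
      · have h6 : q1.natDegree ≤ q.natDegree := Polynomial.natDegree_le_of_dvd ⟨h, by
          rw [hq]; ring⟩ h5
        have h7 : q.natDegree ≤ p - 1 := by
          rw [Polynomial.natDegree_le_iff_coeff_eq_zero]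
          intro i hi
          exact hqd i (by omega)
        have := hp.out.pos
        exact Polynomial.coeff_eq_zero_of_natDegree_lt (by omega)
    · rw [hq, Polynomial.mul_coeff_zero, ch0, one_mul] at hq0
      exact hq0
  obtain ⟨hy1d, hy10⟩ := hcoef yk y1 hy1 (by
    intro i hi
    rw [hyk, Polynomial.coeff_map, hYz i hi, map_zero]) (by
    rw [hyk, Polynomial.coeff_map, hY0, map_zero])
  obtain ⟨hv1d, hv10⟩ := hcoef vk v1 hv1 (by
    intro i hi
    rw [hvk, Polynomial.coeff_map, hVi, coeff_trunc, if_neg (by omega), map_zero]) (by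
    rw [hvk, Polynomial.coeff_map, hVi, coeff_trunc, if_pos hp.out.pos, hV0, map_zero])
  have hδm : coeff (p * m) (2 * φ δ) = 0 := by
    rw [hq3, map_add, coeff_ofNat_mul']
    have e8 := coeff_mul_expand hp.out.ne_zero (Q := (y1 : K⟦X⟧)) (f := a) (by
      intro i hi; rw [Polynomial.coeff_coe]; exact hy1d i hi) (r := 0) hp.out.pos m
    have e9 := coeff_mul_expand hp.out.ne_zero (Q := (v1 : K⟦X⟧)) (f := th a) (by
      intro i hi; rw [Polynomial.coeff_coe]; exact hv1d i hi) (r := 0) hp.out.pos m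
    rw [add_zero, Polynomial.coeff_coe, hy10, zero_mul] at e8
    rw [add_zero, Polynomial.coeff_coe, hv10, zero_mul] at e9
    rw [e8, e9]; simp
  have hδp : (p : ℤ) ∣ coeff (p * m) δ := by
    rw [coeff_ofNat_mul', hφ, coeff_map] at hδm
    have h2K : ((OfNat.ofNat 2 : ℕ) : K) ≠ 0 := hne 2 (by norm_num) (by
      intro q hq hq2
      have := Nat.le_of_dvd (by norm_num) hq2
      omega)
    have := (mul_eq_zero.1 hδm).resolve_left h2K
    exact (CharP.intCast_eq_zero_iff K p _).1 this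
  obtain ⟨c, hc⟩ := hδp
  have e10 := congrArg (coeff (p * m)) hδ
  have e11 := coeff_mul_expand hp.out.ne_zero (Q := (H : ℤ⟦X⟧)) (f := A) hHz' (r := 0)
    hp.out.pos m
  rw [add_zero, Polynomial.coeff_coe, cH0, one_mul] at e11
  have e12 : coeff (p * m) ((p : ℤ⟦X⟧) * δ) = (p : ℤ) * coeff (p * m) δ := by
    rw [← nsmul_eq_mul, map_nsmul, nsmul_eq_mul]
  rw [map_add, e11, e12, hc] at e10
  exact ⟨c, by rw [e10]; ring⟩

end Pool.Agent.W32
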