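import Mathlib

set_option autoImplicit false

namespace Pool.Agent.W32

theorem exists_sqrt_neg_seven {p : ℕ} [hp : Fact p.Prime] (h2 : p ≠ 2) (h7 : p ≠ 7)
    (h : IsSquare (p : ZMod 7)) : ∃ s : ZMod p, s ^ 2 = -7 := by
  have : Fact (Nat.Prime 7) := ⟨by norm_num⟩
  have hodd : p % 2 = 1 := hp.out.eq_two_or_odd.resolve_left h2
  have key : IsSquare (-7 : ZMod p) := by
    have h4 : p % 4 = 1 ∨ p % 4 = 3 := by omega
    rcases h4 with h4 | h4
    · have h5 : IsSquare (-1 : ZMod p) := by
        rw [ZMod.exists_sq_eq_neg_one_iff]; omega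
      have h6 : IsSquare ((7 : ℕ) : ZMod p) :=
        (ZMod.exists_sq_eq_prime_iff_of_mod_four_eq_one (q := 7) h4 (by norm_num)).2 h
      have := h5.mul h6
      simpa using this
    · have h5 : ¬ IsSquare (-1 : ZMod p) := by
        rw [ZMod.exists_sq_eq_neg_one_iff]; omega
      have h6 : ¬ IsSquare ((7 : ℕ) : ZMod p) := by
        rw [ZMod.exists_sq_eq_prime_iff_of_mod_four_eq_three (q := 7) h4 (by norm_num) h7]
        exact not_not.2 h
      have e1 : legendreSym p (-1) = -1 := by
        rw [legendreSym.eq_neg_one_iff]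
        simpa using h5
      have e2 : legendreSym p 7 = -1 := by
        rw [legendreSym.eq_neg_one_iff]
        simpa using h6
      have e3 : legendreSym p (-7) = 1 := by
        have : (-7 : ℤ) = (-1) * 7 := by norm_num
        rw [this, legendreSym.mul, e1, e2]; norm_num
      have e4 := (legendreSym.eq_one_iff p (a := -7) (by
        intro h0
        rw [(legendreSym.eq_zero_iff p (-7)).2 h0] at e3
        exact absurd e3 (by norm_num))).1 e3
      simpa using e4
  obtain ⟨s, hs⟩ := key
  exact ⟨s, by rw [sq, ← hs]⟩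

end Pool.Agent.W32
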