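import Pool.Agent.W32.T12

set_option autoImplicit false

namespace Pool.Agent.W32

open PowerSeries

theorem coeff_mul_expand_zero {R : Type*} [CommRing R] {p : ℕ} (hp : p ≠ 0) {Q f : R⟦X⟧}
    (hQ : ∀ k, coeff (p * k) Q = 0) (m : ℕ) : coeff (p * m) (Q * expand p hp f) = 0 := by
  rw [coeff_mul]
  apply Finset.sum_eq_zero
  rintro ⟨i, j⟩ hij
  rw [Finset.HasAntidiagonal.mem_antidiagonal] at hij
  simp only at hij ⊢
  by_cases hj : p ∣ j
  · have : p ∣ i := (Nat.dvd_add_left hj).1 (by rw [hij]; exact dvd_mul_right _ _)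
    obtain ⟨k, rfl⟩ := this
    rw [hQ, zero_mul]
  · rw [coeff_expand_of_not_dvd p hp _ hj, mul_zero]

theorem T7v : (T7 2 : ℤ) = 48 ∧ (T7 3 : ℤ) = 760 ∧ (T7 4 : ℤ) = 13840 ∧ (T7 5 : ℤ) = 273504 ∧
    (T7 6 : ℤ) = 5703096 ∧ (T7 7 : ℤ) = 123519792 ∧ (T7 8 : ℤ) = 2751843600 ∧
    (T7 9 : ℤ) = 62659854400 ∧ (T7 10 : ℤ) = 1451780950048 ∧ (T7 11 : ℤ) = 34116354472512 ∧
    (T7 12 : ℤ) = 811208174862904 ∧ (T7 13 : ℤ) = 19481055861877120 := by
  have e0 : (T7 0 : ℤ) = 1 := by rw [T7_zero]; rfl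
  have e1 : (T7 1 : ℤ) = 4 := by rw [T7_one]; rfl
  have r0 := T7_rec 0
  have r1 := T7_rec 1
  have r2 := T7_rec 2
  have r3 := T7_rec 3
  have r4 := T7_rec 4
  have r5 := T7_rec 5
  have r6 := T7_rec 6
  have r7 := T7_rec 7
  have r8 := T7_rec 8
  have r9 := T7_rec 9
  have r10 := T7_rec 10
  have r11 := T7_rec 11
  norm_num at r0 r1 r2 r3 r4 r5 r6 r7 r8 r9 r10 r11
  omega

/-- vanishing of the relevant coefficients -/
theorem coeff_seven {y : (ZMod 7)⟦X⟧} (h0 : coeff 0 y = 0) (hy : ∀ i, 7 ≤ i → coeff i y = 0)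
    (h : 5 * coeff 6 y + 10 * coeff 5 y + 10 * coeff 4 y + 5 * coeff 3 y + coeff 2 y = 0) (k : ℕ) :
    coeff (7 * k) ((1 + X) ^ 5 * y) = 0 := by
  have hc : ∀ i, coeff i ((1 + X) ^ 5 : (ZMod 7)⟦X⟧) = ((Nat.choose 5 i : ℕ) : ZMod 7) := by
    intro i
    rw [← Polynomial.coeff_one_add_X_pow, ← Polynomial.coeff_coe]
    congr 1
    rw [Polynomial.coe_pow, Polynomial.coe_add, Polynomial.coe_one, Polynomial.coe_X]
  rw [coeff_mul]
  rcases Nat.lt_or_ge k 2 with hk | hk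
  · interval_cases k
    · simp [h0]
    · rw [Finset.Nat.sum_antidiagonal_eq_sum_range_succ_mk]
      simp only [Finset.sum_range_succ, Finset.sum_range_zero, hc]
      have h7 : coeff 7 y = 0 := hy 7 le_rfl
      norm_num [Nat.choose, h0, h7]
      linear_combination h
  · apply Finset.sum_eq_zero
    rintro ⟨i, j⟩ hij
    rw [Finset.HasAntidiagonal.mem_antidiagonal] at hij
    simp only at hij ⊢
    rcases Nat.lt_or_ge i 6 with hi | hi
    · rw [hy j (by omega), mul_zero]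
    · rw [hc, Nat.choose_eq_zero_of_lt (by omega)]; simp

theorem dec_one : (1 + (1 + 0) ^ 2 * 1 ^ 7 : ZMod 7) ≠ 0 := by decide

theorem dec_two : (5 * ((814728 : ℤ) : ZMod 7) + 10 * ((39072 : ℤ) : ZMod 7)
        + 10 * ((1977 : ℤ) : ZMod 7) + 5 * ((108 : ℤ) : ZMod 7) + ((6 : ℤ) : ZMod 7)) = 0 := by
  decide

theorem dec_three : (5 * (4 : ℕ) + 10 * (4 : ℕ) + 10 * (4 : ℕ) + 5 * (0 : ℕ) + (5 : ℕ) : ZMod 7)
    = 0 := by decide

theorem dec_four : ((2 : ℕ) : ZMod 7) ≠ 0 := by decide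

theorem main7 {A U : ℤ⟦X⟧} (h1 : constantCoeff A = 1) (hA : A * A = Z7) (hU : A * U = 1) (m : ℕ) :
    ((7 : ℕ) : ℤ) ^ 2 ∣ coeff (7 * m) A - coeff m A := by
  have hp : Fact (Nat.Prime 7) := ⟨by norm_num⟩
  set φ := PowerSeries.map (Int.castRingHom (ZMod 7)) with hφ
  obtain ⟨t2, t3, t4, t5, t6, t7, t8, t9, t10, t11, t12, t13⟩ := T7v
  have t0 : (T7 0 : ℤ) = 1 := by rw [T7_zero]; rfl
  have t1 : (T7 1 : ℤ) = 4 := by rw [T7_one]; rfl
  obtain ⟨V, W, hV0, hVz, hZ⟩ := Z7_mod hp.out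
  have hpK : ((7 : ℕ) : (ZMod 7)⟦X⟧) = 0 := by
    rw [← map_natCast (C (R := ZMod 7)), CharP.cast_eq_zero, map_zero]
  have hc4 : ∀ i, coeff i ((1 + X) ^ 4 : ℤ⟦X⟧) = ((Nat.choose 4 i : ℕ) : ℤ) := by
    intro i
    rw [← Polynomial.coeff_one_add_X_pow, ← Polynomial.coeff_coe]
    congr 1
    rw [Polynomial.coe_pow, Polynomial.coe_add, Polynomial.coe_one, Polynomial.coe_X]
  have hc2 : ∀ i, coeff i ((1 + X) ^ 2 : ℤ⟦X⟧) = ((Nat.choose 2 i : ℕ) : ℤ) := by
    intro i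
    rw [← Polynomial.coeff_one_add_X_pow, ← Polynomial.coeff_coe]
    congr 1
    rw [Polynomial.coe_pow, Polynomial.coe_add, Polynomial.coe_one, Polynomial.coe_X]
  set H : ℤ⟦X⟧ := (1 + X) ^ 2 with hH
  have hHH : H * H = (1 + X) ^ 4 := by rw [hH]; ring
  have hφH : φ H = (1 + X) ^ 2 := by
    rw [hH, map_pow, map_add, map_one, hφ, PowerSeries.map_X]
  -- `Y`
  obtain ⟨Y, hY⟩ : ∃ Y : ℤ⟦X⟧, PT 7 - H * H = ((7 : ℕ) : ℤ⟦X⟧) * Y := by
    obtain ⟨g, hg⟩ := dvd_of_coeff (p := ((7 : ℕ) : ℤ)) (f := PT 7 - H * H) (by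
      intro n
      rw [map_sub, hHH, hc4, PT, coeff_mk]
      split_ifs with hn
      · interval_cases n
        all_goals norm_num [Nat.choose, t0, t1, t2, t3, t4, t5, t6]
      · rw [Nat.choose_eq_zero_of_lt (by omega)]; simp)
    exact ⟨g, by rw [hg]; simp⟩
  have hYY : PT 7 = H * H + ((7 : ℕ) : ℤ⟦X⟧) * Y := by linear_combination hY
  have hYc : ∀ n, (7 : ℤ) * coeff n Y = coeff n (PT 7) - ((Nat.choose 4 n : ℕ) : ℤ) := by
    intro n
    have := congrArg (coeff n) hY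
    rw [map_sub, hHH, hc4, ← nsmul_eq_mul, map_nsmul, nsmul_eq_mul] at this
    push_cast at this
    linarith
  have hPTc : ∀ n, n < 7 → coeff n (PT 7) = (T7 n : ℤ) := by
    intro n hn
    rw [PT, coeff_mk, if_pos hn]
  -- structure mod 7
  have hau : φ A * φ U = 1 := by rw [← map_mul, hU, map_one]
  have haa : φ A * φ A = (1 + X) ^ 4 * ((φ A) ^ 7 * (φ A) ^ 7) := by
    have h2 := congrArg φ hZ
    simp only [map_add, map_mul, map_pow, map_natCast] at h2
    rw [hpK] at h2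
    have e : φ (expand 7 hp.out.ne_zero Z7) = (φ Z7) ^ 7 := by
      rw [hφ, PowerSeries.map_expand, expand_eq_pow]
    have e2 : φ (PT 7) = (1 + X) ^ 4 := by
      rw [hYY, map_add, map_mul, map_mul, map_natCast, hpK, hφH]; ring
    rw [e, e2, ← hA, map_mul] at h2
    linear_combination h2
  have hfac : (φ A - (1 + X) ^ 2 * (φ A) ^ 7) * (φ A + (1 + X) ^ 2 * (φ A) ^ 7) = 0 := by
    linear_combination haa
  have hcA : constantCoeff (φ A) = 1 := by
    rw [← coeff_zero_eq_constantCoeff_apply, hφ, coeff_map, coeff_zero_eq_constantCoeff_apply, h1,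
      map_one]
  have hgA : φ A = (1 + X) ^ 2 * (φ A) ^ 7 := by
    rcases mul_eq_zero.1 hfac with h5 | h5
    · linear_combination h5
    · exfalso
      have h6 := congrArg constantCoeff h5
      simp only [map_add, map_mul, map_pow, map_one, constantCoeff_X, hcA, map_zero] at h6
      exact dec_one h6
  obtain ⟨δ, hδ0⟩ := dvd_of_map (K := ZMod 7) (p := 7)
    (f := A - H * expand 7 hp.out.ne_zero A) (by
      rw [map_sub, map_mul, PowerSeries.map_expand, expand_eq_pow, ← hφ, hφH, ← hgA, sub_self])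
  have hδ : A = H * expand 7 hp.out.ne_zero A + ((7 : ℕ) : ℤ⟦X⟧) * δ := by
    linear_combination hδ0
  have q1 := eqOne (K := ZMod 7) hA hU hδ hYY hZ
  rw [← hφ, hφH] at q1
  set a := φ A with ha
  -- the inverse of `1 + X`
  obtain ⟨ι, hι⟩ : ∃ ι : (ZMod 7)⟦X⟧, (1 + X) * ι = 1 :=
    ⟨(1 + X)⁻¹, PowerSeries.mul_inv_cancel _ (by simp)⟩
  have hι7 : (1 + X : (ZMod 7)⟦X⟧) ^ 7 * expand 7 hp.out.ne_zero ι = 1 := by
    have e : expand 7 hp.out.ne_zero (1 + X : (ZMod 7)⟦X⟧) = (1 + X) ^ 7 := by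
      have := expand_eq_pow (K := ZMod 7) (p := 7) (1 + X : ℤ⟦X⟧)
      rw [map_add, map_one, PowerSeries.map_X] at this
      exact this
    rw [← e, ← map_mul, hι, map_one]
  have q2 : 2 * φ δ = ((1 + X) ^ 5 * φ Y) * expand 7 hp.out.ne_zero (ι * a)
      + 2 * (((1 + X) ^ 5 * φ V) * expand 7 hp.out.ne_zero (ι * th a)) := by
    rw [map_mul, map_mul]
    linear_combination (-2 * φ δ) * hι7 + (1 + X) ^ 5 * expand 7 hp.out.ne_zero ι * q1
  -- vanishing of coefficients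
  have zY : ∀ k, coeff (7 * k) ((1 + X) ^ 5 * φ Y) = 0 := by
    intro k
    have c0 : coeff 0 Y = 0 := by
      have := hYc 0; rw [hPTc 0 (by norm_num), t0] at this; simpa using this
    have c2 : coeff 2 Y = 6 := by
      have := hYc 2; rw [hPTc 2 (by norm_num), t2] at this; norm_num [Nat.choose] at this; omega
    have c3 : coeff 3 Y = 108 := by
      have := hYc 3; rw [hPTc 3 (by norm_num), t3] at this; norm_num [Nat.choose] at this; omega
    have c4 : coeff 4 Y = 1977 := by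
      have := hYc 4; rw [hPTc 4 (by norm_num), t4] at this; norm_num [Nat.choose] at this; omega
    have c5 : coeff 5 Y = 39072 := by
      have := hYc 5; rw [hPTc 5 (by norm_num), t5] at this; norm_num [Nat.choose] at this; omega
    have c6 : coeff 6 Y = 814728 := by
      have := hYc 6; rw [hPTc 6 (by norm_num), t6] at this; norm_num [Nat.choose] at this; omega
    apply coeff_seven
    · rw [hφ, coeff_map, c0]; simp
    · intro i hi
      have h8 := hYc i
      rw [PT, coeff_mk, if_neg (by omega), Nat.choose_eq_zero_of_lt (by omega)] at h8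
      have h9 : coeff i Y = 0 := by simpa using h8
      rw [hφ, coeff_map, h9, map_zero]
    · rw [hφ, coeff_map, coeff_map, coeff_map, coeff_map, coeff_map, c2, c3, c4, c5, c6]
      simp only [eq_intCast]
      exact dec_two
  have hVc : ∀ r, r < 7 → (T7 (7 + r) : ℤ) = T7 r * 4 + 7 * (coeff r V * 4)
      + 49 * coeff (7 + r) W := by
    intro r hr
    have h8 := congrArg (coeff (7 * 1 + r)) hZ
    have hPTz : ∀ i, 7 ≤ i → coeff i (PT 7) = 0 := by
      intro i hi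
      rw [PT, coeff_mk, if_neg (by omega)]
    have e3 : coeff (7 * 1 + r) (((7 : ℕ) : ℤ⟦X⟧) * (V * expand 7 hp.out.ne_zero (th Z7))) =
        7 * (coeff r V * 4) := by
      rw [← nsmul_eq_mul, map_nsmul, nsmul_eq_mul, coeff_mul_expand hp.out.ne_zero hVz hr, coeff_th,
        Z7, coeff_mk, t1]
      norm_num
    have e4 : coeff (7 * 1 + r) (((7 : ℕ) : ℤ⟦X⟧) ^ 2 * W) = 49 * coeff (7 + r) W := by
      have : (((7 : ℕ) : ℤ⟦X⟧) ^ 2 * W) = ((49 : ℕ) : ℤ⟦X⟧) * W := by push_cast; ring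
      rw [this, ← nsmul_eq_mul, map_nsmul, nsmul_eq_mul]
      norm_num
    rw [map_add, map_add, e3, e4, coeff_mul_expand hp.out.ne_zero hPTz hr, hPTc r hr] at h8
    rw [Z7, coeff_mk, coeff_mk, t1] at h8
    exact h8
  have zV : ∀ k, coeff (7 * k) ((1 + X) ^ 5 * φ V) = 0 := by
    intro k
    have cast : ∀ (z : ℤ) (c : ℕ), z % 7 = c → ((z : ℤ) : ZMod 7) = (c : ZMod 7) := by
      intro z c hz
      have h9 : (z : ZMod 7) = ((c : ℤ) : ZMod 7) := by
        rw [ZMod.intCast_eq_intCast_iff_dvd_sub]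
        push_cast
        omega
      rw [h9]; simp
    have c2 : ((coeff 2 V : ℤ) : ZMod 7) = (5 : ℕ) := by
      apply cast
      have := hVc 2 (by norm_num); norm_num [t2, t9] at this; omega
    have c3 : ((coeff 3 V : ℤ) : ZMod 7) = (0 : ℕ) := by
      apply cast
      have := hVc 3 (by norm_num); norm_num [t3, t10] at this; omega
    have c4 : ((coeff 4 V : ℤ) : ZMod 7) = (4 : ℕ) := by
      apply cast
      have := hVc 4 (by norm_num); norm_num [t4, t11] at this; omega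
    have c5 : ((coeff 5 V : ℤ) : ZMod 7) = (4 : ℕ) := by
      apply cast
      have := hVc 5 (by norm_num); norm_num [t5, t12] at this; omega
    have c6 : ((coeff 6 V : ℤ) : ZMod 7) = (4 : ℕ) := by
      apply cast
      have := hVc 6 (by norm_num); norm_num [t6, t13] at this; omega
    apply coeff_seven
    · rw [hφ, coeff_map, hV0]; simp
    · intro i hi
      rw [hφ, coeff_map, hVz i hi, map_zero]
    · rw [hφ, coeff_map, coeff_map, coeff_map, coeff_map, coeff_map]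
      simp only [eq_intCast, c2, c3, c4, c5, c6]
      exact dec_three
  have hδm : coeff (7 * m) (2 * φ δ) = 0 := by
    rw [q2, map_add, coeff_ofNat_mul', coeff_mul_expand_zero _ zY, coeff_mul_expand_zero _ zV]
    simp
  have hδp : (7 : ℤ) ∣ coeff (7 * m) δ := by
    rw [coeff_ofNat_mul', hφ, coeff_map] at hδm
    have := (mul_eq_zero.1 hδm).resolve_left dec_four
    exact_mod_cast (CharP.intCast_eq_zero_iff (ZMod 7) 7 _).1 this
  obtain ⟨c, hc⟩ := hδp
  have e10 := congrArg (coeff (7 * m)) hδ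
  have hHz' : ∀ i, 7 ≤ i → coeff i H = 0 := by
    intro i hi
    rw [hc2, Nat.choose_eq_zero_of_lt (by omega)]; simp
  have e11 := coeff_mul_expand hp.out.ne_zero (Q := H) (f := A) hHz' (r := 0) hp.out.pos m
  rw [add_zero, hc2, Nat.choose_zero_right, Nat.cast_one, one_mul] at e11
  have e12 : coeff (7 * m) (((7 : ℕ) : ℤ⟦X⟧) * δ) = ((7 : ℕ) : ℤ) * coeff (7 * m) δ := by
    rw [← nsmul_eq_mul, map_nsmul, nsmul_eq_mul]
  rw [map_add, e11, e12, hc] at e10
  exact ⟨c, by rw [e10]; push_cast; ring⟩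

end Pool.Agent.W32
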