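import Pool.Agent.W32.T3

set_option autoImplicit false

namespace Pool.Agent.W32

open Finset

theorem luc (n k : ℕ) : ((n.choose k : ℕ) : ZMod 2) =
    (((n % 2).choose (k % 2) : ℕ) : ZMod 2) * (((n / 2).choose (k / 2) : ℕ) : ZMod 2) := by
  have : Fact (Nat.Prime 2) := ⟨Nat.prime_two⟩
  have h := Choose.choose_modEq_choose_mod_mul_choose_div_nat (p := 2) (n := n) (k := k)
  have h2 := (ZMod.natCast_eq_natCast_iff _ _ _).2 h
  rw [h2]; push_cast; rfl

theorem c00 (a b : ℕ) : (((2 * a).choose (2 * b) : ℕ) : ZMod 2) = ((a.choose b : ℕ) : ZMod 2) := by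
  rw [luc, show 2 * a % 2 = 0 by omega, show 2 * b % 2 = 0 by omega,
    show 2 * a / 2 = a by omega, show 2 * b / 2 = b by omega]; simp

theorem c10 (a b : ℕ) :
    (((2 * a + 1).choose (2 * b) : ℕ) : ZMod 2) = ((a.choose b : ℕ) : ZMod 2) := by
  rw [luc, show (2 * a + 1) % 2 = 1 by omega, show 2 * b % 2 = 0 by omega,
    show (2 * a + 1) / 2 = a by omega, show 2 * b / 2 = b by omega]; simp

theorem c11 (a b : ℕ) :
    (((2 * a + 1).choose (2 * b + 1) : ℕ) : ZMod 2) = ((a.choose b : ℕ) : ZMod 2) := by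
  rw [luc, show (2 * a + 1) % 2 = 1 by omega, show (2 * b + 1) % 2 = 1 by omega,
    show (2 * a + 1) / 2 = a by omega, show (2 * b + 1) / 2 = b by omega]; simp

theorem c01 (a b : ℕ) : (((2 * a).choose (2 * b + 1) : ℕ) : ZMod 2) = 0 := by
  rw [luc, show 2 * a % 2 = 0 by omega, show (2 * b + 1) % 2 = 1 by omega]; simp

/-- the terms modulo two -/
def G2 (N j : ℕ) : ZMod 2 :=
  (((2 * j - 1).choose j : ℕ) : ZMod 2) * (((N + j).choose (2 * j) : ℕ) : ZMod 2)
    * ((j.choose (N - j) : ℕ) : ZMod 2)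

/-- a quarter of the sum modulo two -/
def S2 (N : ℕ) : ZMod 2 := ∑ j ∈ range (N + 1), G2 N j

theorem sum_even_odd {R : Type*} [AddCommMonoid R] (f : ℕ → R) (M : ℕ) :
    ∑ j ∈ range (2 * M + 1), f j = ∑ i ∈ range (M + 1), f (2 * i) + ∑ i ∈ range M, f (2 * i + 1) := by
  induction M with
  | zero => simp
  | succ M ih =>
    rw [show 2 * (M + 1) + 1 = 2 * M + 1 + 1 + 1 by ring, sum_range_succ, sum_range_succ, ih,
      sum_range_succ (fun i => f (2 * i)) (M + 1), sum_range_succ (fun i => f (2 * i + 1)) M,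
      show 2 * M + 1 + 1 = 2 * (M + 1) by ring]
    abel

theorem G2_odd {N i : ℕ} (hN : 3 ≤ N) : G2 N (2 * i + 1) = 0 := by
  unfold G2
  rcases Nat.eq_zero_or_pos i with rfl | hi
  · rw [Nat.choose_eq_zero_of_lt (by omega : 2 * 0 + 1 < N - (2 * 0 + 1))]; simp
  · have h1 : (((2 * (2 * i + 1) - 1).choose (2 * i + 1) : ℕ) : ZMod 2) = 0 := by
      rw [show 2 * (2 * i + 1) - 1 = 2 * (2 * i) + 1 by omega, c11]
      have := Nat.two_dvd_centralBinom_of_one_le hi
      rw [Nat.centralBinom_eq_two_mul_choose] at this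
      exact (ZMod.natCast_eq_zero_iff _ _).2 this
    rw [h1]; simp

theorem S2_even {M : ℕ} (hM : 2 ≤ M) : S2 (2 * M) = S2 M := by
  unfold S2
  rw [sum_even_odd, sum_eq_zero (s := range M) (f := fun i => G2 (2 * M) (2 * i + 1))
    (fun i _ => G2_odd (by omega)), add_zero]
  apply sum_congr rfl
  intro i hi
  rw [mem_range] at hi
  unfold G2
  rcases Nat.eq_zero_or_pos i with rfl | hi0
  · rw [Nat.choose_eq_zero_of_lt (by omega : 2 * 0 < 2 * M - 2 * 0),
      Nat.choose_eq_zero_of_lt (by omega : 0 < M - 0)]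
    simp
  · rw [show 2 * (2 * i) - 1 = 2 * (2 * i - 1) + 1 by omega, c10,
      show 2 * M + 2 * i = 2 * (M + i) by ring, c00,
      show 2 * M - 2 * i = 2 * (M - i) by omega, c00]

theorem S2_odd {M : ℕ} (hM : 1 ≤ M) : S2 (2 * M + 1) = 0 := by
  unfold S2
  apply sum_eq_zero
  intro j hj
  rw [mem_range] at hj
  rcases Nat.even_or_odd' j with ⟨i, rfl | rfl⟩
  · unfold G2
    rw [show 2 * M + 1 - 2 * i = 2 * (M - i) + 1 by omega, c01, mul_zero]
  · exact G2_odd (by omega)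

theorem S2_zero {N : ℕ} (hN : 2 ≤ N) : S2 N = 0 := by
  induction N using Nat.strong_induction_on with
  | _ N ih =>
    rcases Nat.even_or_odd' N with ⟨M, rfl | rfl⟩
    · rcases Nat.lt_or_ge M 2 with h | h
      · obtain rfl : M = 1 := by omega
        decide
      · rw [S2_even h]
        exact ih M (by omega) h
    · exact S2_odd (by omega)

theorem eight_dvd_T7 {N : ℕ} (hN : 2 ≤ N) : 8 ∣ T7 N := by
  have h1 : T7 N = 4 * ∑ j ∈ range (N + 1),
      (if j = 0 then 0 else (2 * j - 1).choose j ^ 2 * ((N + j).choose (2 * j) * j.choose (N - j))) := by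
    rw [T7_eq, mul_sum]
    apply sum_congr rfl
    intro j hj
    rw [mem_range] at hj
    rcases Nat.eq_zero_or_pos j with rfl | hj0
    · rw [F7_zero_of_lt' (by omega)]; simp
    · rw [if_neg (by omega), F7_alt' N j (by omega)]
      obtain ⟨i, rfl⟩ : ∃ i, j = i + 1 := ⟨j - 1, by omega⟩
      have e : (2 * (i + 1)).choose (i + 1) = 2 * (2 * (i + 1) - 1).choose (i + 1) := by
        rw [show 2 * (i + 1) = (2 * i + 1) + 1 by ring, Nat.add_sub_cancel, Nat.choose_succ_succ,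
          Nat.choose_symm_half]
        ring
      rw [e]; ring
  rw [h1, show (8 : ℕ) = 4 * 2 by norm_num]
  apply Nat.mul_dvd_mul_left
  rw [← ZMod.natCast_eq_zero_iff, ← S2_zero hN, Nat.cast_sum]
  unfold S2
  apply sum_congr rfl
  intro j hj
  unfold G2
  rcases Nat.eq_zero_or_pos j with rfl | hj0
  · rw [if_pos rfl, Nat.choose_eq_zero_of_lt (by omega : 0 < N - 0)]; simp
  · rw [if_neg (by omega)]
    push_cast
    have hsq : ∀ x : ZMod 2, x ^ 2 = x := by decide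
    rw [hsq]; ring

theorem sum_sym {R : Type*} [CommRing R] (f : ℕ → R) (k : ℕ) (hf : ∀ j, j ≤ 2 * k → f (2 * k - j) = f j) :
    ∑ j ∈ range (2 * k + 1), f j = f k + 2 * ∑ j ∈ range k, f j := by
  have h1 : ∑ j ∈ range (2 * k + 1), f j =
      ∑ j ∈ range k, f j + ∑ j ∈ range (k + 1), f (k + j) := by
    rw [show 2 * k + 1 = k + (k + 1) by ring, sum_range_add]
  have h2 : ∑ j ∈ range k, f (k + 1 + j) = ∑ j ∈ range k, f j := by
    rw [← sum_range_reflect]
    apply sum_congr rfl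
    intro j hj
    rw [mem_range] at hj
    rw [← hf j (by omega)]
    congr 1
    omega
  rw [h1, sum_range_succ']
  have h3 : ∑ j ∈ range k, f (k + (j + 1)) = ∑ j ∈ range k, f (k + 1 + j) := by
    apply sum_congr rfl
    intro j _
    congr 1; ring
  rw [h3, h2, add_zero]
  ring

theorem main2 {τ : ℕ → ℤ} (h0 : τ 0 = 1) (h2 : ∀ n, 1 ≤ n → 2 ∣ τ n)
    (h : ∀ n : ℕ, ∑ j ∈ range (n + 1), τ j * τ (n - j) = (T7 n : ℤ)) {n : ℕ} (hn : 1 ≤ n) :
    (4 : ℤ) ∣ τ (2 * n) - τ n := by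
  obtain ⟨k, rfl⟩ : ∃ k, n = k + 1 := ⟨n - 1, by omega⟩
  have h3 := h (2 * k + 1 + 1)
  rw [conv_split, h0, sum_sym (fun j => τ (j + 1) * τ (2 * k + 1 - j)) k (by
    intro j hj
    rw [mul_comm]
    congr 2 <;> omega)] at h3
  obtain ⟨c, hc⟩ := eight_dvd_T7 (N := 2 * k + 1 + 1) (by omega)
  obtain ⟨d, hd⟩ : (4 : ℤ) ∣ ∑ j ∈ range k, τ (j + 1) * τ (2 * k + 1 - j) := by
    apply Finset.dvd_sum
    intro j hj
    rw [mem_range] at hj
    exact mul_dvd_mul (h2 (j + 1) (by omega)) (h2 (2 * k + 1 - j) (by omega))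
  obtain ⟨b, hb⟩ := h2 (k + 1) (by omega)
  rw [hd, hc, show 2 * k + 1 - k = k + 1 by omega, hb] at h3
  rw [show 2 * (k + 1) = 2 * k + 1 + 1 by ring, hb]
  push_cast at h3
  have hbb : (2 : ℤ) ∣ b * b + b := by
    rcases Int.even_or_odd' b with ⟨e, rfl | rfl⟩
    · exact ⟨2 * e * e + e, by ring⟩
    · exact ⟨2 * e * e + 3 * e + 1, by ring⟩
  obtain ⟨e, he⟩ := hbb
  refine ⟨c - d - e, ?_⟩
  linarith

end Pool.Agent.W32
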