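import Pool.Agent.W217.BE.Stm

/-! # BE: cutting a graded module -/

set_option autoImplicit false

namespace Pool.Agent.W32.BEGRCUT

open Pool.Agent.W217.BE

section gen

variable {A M I : Type} [CommRing A] [AddCommGroup M] [Module A M] {ℳ : I → Submodule A M}

lemma ext_of [DecidableEq I] (h : DirectSum.IsInternal ℳ) {M' : Type} [AddCommGroup M'] [Module A M']
    (f g : M →ₗ[A] M') (hfg : ∀ a, ∀ x ∈ ℳ a, f x = g x) : f = g := by
  have h1 : (⊤ : Submodule A M) ≤ LinearMap.eqLocus f g := by
    rw [← h.submodule_iSup_eq_top]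
    exact iSup_le fun a x hx => hfg a x hx
  ext x
  exact h1 (Submodule.mem_top : x ∈ ⊤)

lemma ex_pr [DecidableEq I] (h : DirectSum.IsInternal ℳ) : ∃ Pr : (I → Prop) → (M →ₗ[A] M),
    (∀ p a x, x ∈ ℳ a → p a → Pr p x = x) ∧ (∀ p a x, x ∈ ℳ a → ¬ p a → Pr p x = 0) := by
  classical
  obtain ⟨e, he⟩ : ∃ e : (DirectSum I fun a => ℳ a) ≃ₗ[A] M, ∀ x, e x = DirectSum.coeLinearMap ℳ x :=
    ⟨LinearEquiv.ofBijective (DirectSum.coeLinearMap ℳ) h, fun x => rfl⟩
  have hsymm : ∀ a x (hx : x ∈ ℳ a), e.symm x = DirectSum.lof A I (fun a => ℳ a) a ⟨x, hx⟩ := by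
    intro a x hx
    rw [LinearEquiv.symm_apply_eq, he, DirectSum.coeLinearMap_lof]
  refine ⟨fun p => (DirectSum.coeLinearMap ℳ) ∘ₗ
    (DFinsupp.filterLinearMap A (fun a => ℳ a) p) ∘ₗ e.symm.toLinearMap, ?_, ?_⟩
  · intro p a x hx hp
    simp only [LinearMap.comp_apply, LinearEquiv.coe_coe]
    rw [hsymm a x hx]
    have h1 : DFinsupp.filterLinearMap A (fun a => ℳ a) p
        (DirectSum.lof A I (fun a => ℳ a) a ⟨x, hx⟩) =
        DirectSum.lof A I (fun a => ℳ a) a ⟨x, hx⟩ :=
      DFinsupp.filter_single_pos a _ hp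
    rw [h1, DirectSum.coeLinearMap_lof]
  · intro p a x hx hp
    simp only [LinearMap.comp_apply, LinearEquiv.coe_coe]
    rw [hsymm a x hx]
    have h1 : DFinsupp.filterLinearMap A (fun a => ℳ a) p
        (DirectSum.lof A I (fun a => ℳ a) a ⟨x, hx⟩) = 0 :=
      DFinsupp.filter_single_neg a _ hp
    rw [h1, map_zero]

/-- the part killed after localisation -/
def Kt {κ : Type} [Field κ] (χ : A →+* κ) (M : Type) [AddCommGroup M] [Module A M] :
    Submodule A M where
  carrier := {x | ∃ s : A, χ s ≠ 0 ∧ s • x = 0}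
  add_mem' := by
    rintro x y ⟨s, hs, hx⟩ ⟨t, ht, hy⟩
    refine ⟨s * t, by rw [map_mul]; exact mul_ne_zero hs ht, ?_⟩
    rw [smul_add, mul_smul, mul_smul, hy, smul_zero, add_zero, smul_comm, hx, smul_zero]
  zero_mem' := ⟨1, by rw [map_one]; exact one_ne_zero, smul_zero _⟩
  smul_mem' := by
    rintro c x ⟨s, hs, hx⟩
    exact ⟨s, hs, by rw [smul_comm, hx, smul_zero]⟩

lemma mem_Kt {κ : Type} [Field κ] (χ : A →+* κ) (x : M) :
    x ∈ Kt χ M ↔ ∃ s : A, χ s ≠ 0 ∧ s • x = 0 := Iff.rfl

lemma unif {κ : Type} [Field κ] (χ : A →+* κ) (N : Submodule A M) (hN : N.FG) (h : N ≤ Kt χ M) :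
    ∃ s : A, χ s ≠ 0 ∧ ∀ x ∈ N, s • x = 0 := by
  classical
  obtain ⟨G, hG⟩ := hN
  have h1 : ∀ g : M, ∃ s : A, χ s ≠ 0 ∧ (g ∈ N → s • g = 0) := by
    intro g
    by_cases hg : g ∈ N
    · obtain ⟨s, hs, hs'⟩ := h hg
      exact ⟨s, hs, fun _ => hs'⟩
    · exact ⟨1, by rw [map_one]; exact one_ne_zero, fun h => absurd h hg⟩
  choose s hs hs' using h1
  refine ⟨∏ g ∈ G, s g, ?_, ?_⟩
  · rw [map_prod]
    exact Finset.prod_ne_zero_iff.2 fun g _ => hs g
  · have h2 : N ≤ LinearMap.ker (LinearMap.lsmul A M (∏ g ∈ G, s g)) := by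
      rw [← hG, Submodule.span_le]
      intro g hg
      have hgN : g ∈ N := by
        rw [← hG]
        exact Submodule.subset_span hg
      show (∏ g ∈ G, s g) • g = 0
      rw [← Finset.mul_prod_erase G s hg, mul_comm, mul_smul, hs' g hgN, smul_zero]
    intro x hx
    exact h2 hx

end gen

section cut

variable {A κ : Type} [CommRing A] [Field κ] {k : ℕ}
  {M : Type} [AddCommGroup M] [Module A M] [Module (MvPolynomial (Fin (k + 1)) A) M]
  [IsScalarTower A (MvPolynomial (Fin (k + 1)) A) M]

/-- multiplication by a polynomial as a linear map over `A` -/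
noncomputable def mulL (A : Type) [CommRing A] (k : ℕ) (M : Type) [AddCommGroup M] [Module A M]
    [Module (MvPolynomial (Fin (k + 1)) A) M]
    [IsScalarTower A (MvPolynomial (Fin (k + 1)) A) M]
    (q : MvPolynomial (Fin (k + 1)) A) : M →ₗ[A] M where
  toFun x := q • x
  map_add' x y := smul_add q x y
  map_smul' c x := by
    rw [RingHom.id_apply, ← algebraMap_smul (MvPolynomial (Fin (k + 1)) A) c x, smul_smul, mul_comm,
      ← smul_smul, algebraMap_smul]

lemma mulL_apply (q : MvPolynomial (Fin (k + 1)) A) (x : M) : mulL A k M q x = q • x := rfl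

lemma smul_comm' (q : MvPolynomial (Fin (k + 1)) A) (c : A) (x : M) : q • (c • x) = c • (q • x) :=
  (mulL A k M q).map_smul c x

lemma stab (N : Submodule A M)
    (hN : ∀ (j : Fin k) (x : M), x ∈ N →
      (MvPolynomial.X j.succ : MvPolynomial (Fin (k + 1)) A) • x ∈ N)
    (q : MvPolynomial (Fin k) A) (x : M) (hx : x ∈ N) :
    MvPolynomial.rename Fin.succ q • x ∈ N := by
  induction q using MvPolynomial.induction_on generalizing x with
  | C a =>
    rw [MvPolynomial.rename_C]
    have h1 : (MvPolynomial.C a : MvPolynomial (Fin (k + 1)) A) • x = a • x := by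
      rw [← MvPolynomial.algebraMap_eq, algebraMap_smul]
    rw [h1]
    exact N.smul_mem a hx
  | add p q hp hq =>
    rw [map_add, add_smul]
    exact N.add_mem (hp x hx) (hq x hx)
  | mul_X p j hp =>
    rw [map_mul, MvPolynomial.rename_X, mul_smul]
    exact hp _ (hN j x hx)

lemma comm_rename (P : M →ₗ[A] M)
    (hP : ∀ (j : Fin k) (x : M), P ((MvPolynomial.X j.succ : MvPolynomial (Fin (k + 1)) A) • x) =
      (MvPolynomial.X j.succ : MvPolynomial (Fin (k + 1)) A) • P x)
    (q : MvPolynomial (Fin k) A) (x : M) :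
    P (MvPolynomial.rename Fin.succ q • x) = MvPolynomial.rename Fin.succ q • P x := by
  induction q using MvPolynomial.induction_on generalizing x with
  | C a =>
    rw [MvPolynomial.rename_C]
    have h1 : ∀ y : M, (MvPolynomial.C a : MvPolynomial (Fin (k + 1)) A) • y = a • y := by
      intro y
      rw [← MvPolynomial.algebraMap_eq, algebraMap_smul]
    rw [h1, h1, map_smul]
  | add p q hp hq =>
    rw [map_add, add_smul, add_smul, map_add, hp, hq]
  | mul_X p j hp =>
    rw [map_mul, MvPolynomial.rename_X, mul_smul, mul_smul, hp, hP]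

/-- the module structure of a slab -/
@[reducible] noncomputable def slabModule (N : Submodule A M)
    (hN : ∀ (q : MvPolynomial (Fin k) A) (x : M), x ∈ N →
      MvPolynomial.rename Fin.succ q • x ∈ N) : Module (MvPolynomial (Fin k) A) N where
  smul q x := ⟨MvPolynomial.rename Fin.succ q • (x : M), hN q x x.2⟩
  one_smul x := by
    apply Subtype.ext
    show MvPolynomial.rename Fin.succ (1 : MvPolynomial (Fin k) A) • (x : M) = x
    rw [map_one, one_smul]
  mul_smul p q x := by
    apply Subtype.ext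
    show MvPolynomial.rename Fin.succ (p * q) • (x : M) =
      MvPolynomial.rename Fin.succ p • (MvPolynomial.rename Fin.succ q • (x : M))
    rw [map_mul, mul_smul]
  smul_zero p := by
    apply Subtype.ext
    show MvPolynomial.rename Fin.succ p • ((0 : N) : M) = ((0 : N) : M)
    rw [Submodule.coe_zero, smul_zero]
  smul_add p x y := by
    apply Subtype.ext
    show MvPolynomial.rename Fin.succ p • ((x + y : N) : M) =
      MvPolynomial.rename Fin.succ p • (x : M) + MvPolynomial.rename Fin.succ p • (y : M)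
    rw [Submodule.coe_add, smul_add]
  add_smul p q x := by
    apply Subtype.ext
    show MvPolynomial.rename Fin.succ (p + q) • (x : M) =
      MvPolynomial.rename Fin.succ p • (x : M) + MvPolynomial.rename Fin.succ q • (x : M)
    rw [map_add, add_smul]
  zero_smul x := by
    apply Subtype.ext
    show MvPolynomial.rename Fin.succ (0 : MvPolynomial (Fin k) A) • (x : M) = ((0 : N) : M)
    rw [map_zero, zero_smul, Submodule.coe_zero]

end cut

theorem main : GRCUT := by
  classical
  intro A κ _ _ _ χ k M _ _ _ _ _ ℳ hint hX hNZ top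
  obtain ⟨Pr, hPr1, hPr0⟩ := ex_pr hint
  obtain ⟨P, hPd⟩ : ∃ P : ℤ → (M →ₗ[A] M), ∀ t, P t = Pr (fun a => a 0 = t) := ⟨_, fun _ => rfl⟩
  have hP1 : ∀ t a x, x ∈ ℳ a → a 0 = t → P t x = x := by
    intro t a x hx ha
    rw [hPd]
    exact hPr1 _ a x hx ha
  have hP0 : ∀ t a x, x ∈ ℳ a → a 0 ≠ t → P t x = 0 := by
    intro t a x hx ha
    rw [hPd]
    exact hPr0 _ a x hx ha
  -- idempotent
  have hPP : ∀ t x, P t (P t x) = P t x := by
    intro t
    have h1 : (P t) ∘ₗ (P t) = P t := by
      refine ext_of hint _ _ fun a x hx => ?_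
      rw [LinearMap.comp_apply]
      by_cases ha : a 0 = t
      · rw [hP1 t a x hx ha, hP1 t a x hx ha]
      · rw [hP0 t a x hx ha, map_zero]
    intro x
    exact LinearMap.congr_fun h1 x
  -- commutation with the variables
  have hPs : ∀ t (j : Fin k) x, P t ((MvPolynomial.X j.succ : MvPolynomial (Fin (k + 1)) A) • x) =
      (MvPolynomial.X j.succ : MvPolynomial (Fin (k + 1)) A) • P t x := by
    intro t j
    have h1 : (P t) ∘ₗ (mulL A k M (MvPolynomial.X j.succ)) =
        (mulL A k M (MvPolynomial.X j.succ)) ∘ₗ (P t) := by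
      refine ext_of hint _ _ fun a x hx => ?_
      rw [LinearMap.comp_apply, LinearMap.comp_apply, mulL_apply]
      have h2 := hX j.succ a x hx
      have h3 : (a + Pi.single (j.succ) (1 : ℤ) : Fin (k + 1) → ℤ) 0 = a 0 := by
        rw [Pi.add_apply, Pi.single_eq_of_ne (Fin.succ_ne_zero j).symm, add_zero]
      by_cases ha : a 0 = t
      · rw [hP1 t _ _ h2 (h3.trans ha), hP1 t a x hx ha, mulL_apply]
      · rw [hP0 t _ _ h2 (fun h => ha (h3.symm.trans h)), hP0 t a x hx ha, map_zero]
    intro x
    exact LinearMap.congr_fun h1 x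
  have hPz : ∀ t x, P (t + 1) ((MvPolynomial.X 0 : MvPolynomial (Fin (k + 1)) A) • x) =
      (MvPolynomial.X 0 : MvPolynomial (Fin (k + 1)) A) • P t x := by
    intro t
    have h1 : (P (t + 1)) ∘ₗ (mulL A k M (MvPolynomial.X 0)) =
        (mulL A k M (MvPolynomial.X 0)) ∘ₗ (P t) := by
      refine ext_of hint _ _ fun a x hx => ?_
      rw [LinearMap.comp_apply, LinearMap.comp_apply, mulL_apply]
      have h2 := hX 0 a x hx
      have h3 : (a + Pi.single 0 (1 : ℤ) : Fin (k + 1) → ℤ) 0 = a 0 + 1 := by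
        rw [Pi.add_apply, Pi.single_eq_same]
      by_cases ha : a 0 = t
      · rw [hP1 (t + 1) _ _ h2 (by rw [h3, ha]), hP1 t a x hx ha, mulL_apply]
      · rw [hP0 (t + 1) _ _ h2 (by rw [h3]; intro h; exact ha (by omega)), hP0 t a x hx ha,
          map_zero]
    intro x
    exact LinearMap.congr_fun h1 x
  -- the slabs
  obtain ⟨Nt, hNt⟩ : ∃ Nt : ℤ → Submodule A M, ∀ t, Nt t = LinearMap.range (P t) := ⟨_, fun _ => rfl⟩
  have hmem : ∀ t x, x ∈ Nt t ↔ P t x = x := by
    intro t x
    rw [hNt]
    constructor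
    · rintro ⟨y, rfl⟩
      exact hPP t y
    · intro h
      exact ⟨x, h⟩
  have hPmem : ∀ t x, P t x ∈ Nt t := fun t x => (hmem t _).2 (hPP t x)
  have hMN : ∀ a x, x ∈ ℳ a → x ∈ Nt (a 0) := fun a x hx => (hmem _ _).2 (hP1 _ a x hx rfl)
  have hnoeth : IsNoetherian A M := inferInstance
  have hFG : ∀ t, (Nt t).FG := fun t => hnoeth.noetherian _
  -- finiteness
  have hfin : {a | ℳ a ≠ ⊥}.Finite :=
    WellFoundedGT.finite_ne_bot_of_iSupIndep hint.submodule_iSupIndep
  obtain ⟨T, hT⟩ : ∃ T : Set ℤ, T = {t | ¬ Nt t ≤ Kt χ M} := ⟨_, rfl⟩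
  have hTfin : T.Finite := by
    refine (hfin.image (fun a => a 0)).subset ?_
    intro t ht
    rw [hT] at ht
    by_contra hcon
    apply ht
    have h1 : P t = 0 := by
      refine ext_of hint _ _ fun a x hx => ?_
      rw [LinearMap.zero_apply]
      by_cases ha : a 0 = t
      · have h2 : ℳ a = ⊥ := by
          by_contra h3
          exact hcon ⟨a, h3, ha⟩
        rw [h2, Submodule.mem_bot] at hx
        rw [hx, map_zero]
      · exact hP0 t a x hx ha
    rw [hNt, h1, LinearMap.range_zero]
    exact bot_le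
  have hTne : T.Nonempty := by
    by_contra hcon
    rw [Set.not_nonempty_iff_eq_empty] at hcon
    have h1 : ∀ t, Nt t ≤ Kt χ M := by
      intro t
      by_contra h2
      have : t ∈ T := by rw [hT]; exact h2
      rw [hcon] at this
      exact this
    have h2 : (⊤ : Submodule A M) ≤ Kt χ M := by
      rw [← hint.submodule_iSup_eq_top]
      exact iSup_le fun a x hx => h1 (a 0) (hMN a x hx)
    obtain ⟨x, hx⟩ := hNZ
    obtain ⟨s, hs, hs'⟩ := h2 (Submodule.mem_top : x ∈ ⊤)
    exact hx s hs hs'
  -- the choice of the slab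
  obtain ⟨t0, ht0, s, hs, hstop, hsbot⟩ : ∃ t0 ∈ T, ∃ s : A, χ s ≠ 0 ∧
      (top = true → ∀ x ∈ Nt (t0 + 1), s • x = 0) ∧
      (top = false → ∀ x ∈ Nt (t0 - 1), s • x = 0) := by
    cases top with
    | true =>
      obtain ⟨t0, ht0, hmax⟩ := hTfin.toFinset.exists_max_image id
        (by rwa [Set.Finite.toFinset_nonempty])
      rw [Set.Finite.mem_toFinset] at ht0
      have h1 : Nt (t0 + 1) ≤ Kt χ M := by
        by_contra h2
        have h3 : t0 + 1 ∈ hTfin.toFinset := by
          rw [Set.Finite.mem_toFinset, hT]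
          exact h2
        have h4 := hmax _ h3
        simp only [id] at h4
        omega
      obtain ⟨s, hs, hs'⟩ := unif χ _ (hFG _) h1
      exact ⟨t0, ht0, s, hs, fun _ => hs', fun h => absurd h (by decide)⟩
    | false =>
      obtain ⟨t0, ht0, hmin⟩ := hTfin.toFinset.exists_min_image id
        (by rwa [Set.Finite.toFinset_nonempty])
      rw [Set.Finite.mem_toFinset] at ht0
      have h1 : Nt (t0 - 1) ≤ Kt χ M := by
        by_contra h2
        have h3 : t0 - 1 ∈ hTfin.toFinset := by
          rw [Set.Finite.mem_toFinset, hT]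
          exact h2
        have h4 := hmin _ h3
        simp only [id] at h4
        omega
      obtain ⟨s, hs, hs'⟩ := unif χ _ (hFG _) h1
      exact ⟨t0, ht0, s, hs, fun h => absurd h (by decide), fun _ => hs'⟩
  have hstab : ∀ (q : MvPolynomial (Fin k) A) (x : M), x ∈ Nt t0 →
      MvPolynomial.rename Fin.succ q • x ∈ Nt t0 := by
    intro q x hx
    refine stab (Nt t0) (fun j y hy => ?_) q x hx
    rw [hmem] at hy ⊢
    rw [hPs, hy]
  obtain ⟨π0, hπ0⟩ : ∃ π0 : M →ₗ[A] Nt t0, ∀ x, ((π0 x : Nt t0) : M) = P t0 x :=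
    ⟨LinearMap.codRestrict (Nt t0) (P t0) (hPmem t0), fun x => rfl⟩
  have hcons : ∀ a : Fin (k + 1) → ℤ, a 0 = t0 → a = Fin.cons t0 (Fin.tail a) := by
    intro a ha
    rw [← ha, Fin.cons_self_tail]
  have hinj : ∀ b b' : Fin k → ℤ, (Fin.cons t0 b : Fin (k + 1) → ℤ) = Fin.cons t0 b' → b = b' := by
    intro b b' h
    have := congrArg Fin.tail h
    rwa [Fin.tail_cons, Fin.tail_cons] at this
  refine ⟨Nt t0, slabModule (Nt t0) hstab, ?_, fun b => (ℳ (Fin.cons t0 b)).comap (Nt t0).subtype,
    if top = true then π0 else s • π0, if top = true then s • (Nt t0).subtype else (Nt t0).subtype,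
    s, ?_, ?_, ?_, hs, ?_, ?_, ?_, ?_, ?_⟩
  · -- scalar tower
    let _ := slabModule (Nt t0) hstab
    refine ⟨fun a q x => ?_⟩
    apply Subtype.ext
    show MvPolynomial.rename Fin.succ (a • q) • (x : M) =
      a • (MvPolynomial.rename Fin.succ q • (x : M))
    rw [map_smul, smul_assoc]
  · -- grading
    rw [DirectSum.isInternal_submodule_iff_iSupIndep_and_iSup_eq_top]
    constructor
    · rw [iSupIndep_def]
      intro b
      rw [Submodule.disjoint_def]
      intro x hx hx'
      have h1 : Pr (fun a => a = Fin.cons t0 b) (x : M) = x := hPr1 _ _ _ hx rfl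
      have h2 : (⨆ (b' : Fin k → ℤ) (_ : b' ≠ b),
          (ℳ (Fin.cons t0 b')).comap (Nt t0).subtype) ≤
          LinearMap.ker ((Pr (fun a => a = Fin.cons t0 b)) ∘ₗ (Nt t0).subtype) := by
        refine iSup_le fun b' => iSup_le fun hb' => ?_
        intro y hy
        rw [LinearMap.mem_ker, LinearMap.comp_apply]
        exact hPr0 _ _ _ hy (fun h => hb' (hinj _ _ h))
      have h3 := h2 hx'
      rw [LinearMap.mem_ker, LinearMap.comp_apply, Submodule.subtype_apply, h1] at h3
      exact Subtype.ext h3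
    · rw [eq_top_iff]
      intro x _
      have h1 : (⊤ : Submodule A M).map π0 ≤
          ⨆ b : Fin k → ℤ, (ℳ (Fin.cons t0 b)).comap (Nt t0).subtype := by
        rw [← hint.submodule_iSup_eq_top, Submodule.map_iSup]
        refine iSup_le fun a => ?_
        rw [Submodule.map_le_iff_le_comap]
        intro y hy
        rw [Submodule.mem_comap]
        by_cases ha : a 0 = t0
        · refine Submodule.mem_iSup_of_mem (Fin.tail a) ?_
          rw [Submodule.mem_comap, Submodule.subtype_apply, hπ0, hP1 t0 a y hy ha, ← hcons a ha]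
          exact hy
        · have h2 : π0 y = 0 := by
            apply Subtype.ext
            rw [hπ0, hP0 t0 a y hy ha]
            rfl
          rw [h2]
          exact Submodule.zero_mem _
      have h2 : x = π0 (x : M) := by
        apply Subtype.ext
        rw [hπ0]
        exact ((hmem t0 _).1 x.2).symm
      rw [h2]
      exact h1 (Submodule.mem_map_of_mem Submodule.mem_top)
  · -- the variables
    intro j a x hx
    rw [Submodule.mem_comap, Submodule.subtype_apply] at hx ⊢
    have h1 := hX j.succ _ _ hx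
    have h2 : (Fin.cons t0 a : Fin (k + 1) → ℤ) + Pi.single j.succ 1 =
        Fin.cons t0 (a + Pi.single j 1) := by
      funext i
      refine Fin.cases ?_ (fun i => ?_) i
      · rw [Pi.add_apply, Fin.cons_zero, Fin.cons_zero,
          Pi.single_eq_of_ne (Fin.succ_ne_zero j).symm, add_zero]
      · rw [Pi.add_apply, Fin.cons_succ, Fin.cons_succ, Pi.add_apply]
        by_cases hij : i = j
        · subst hij
          rw [Pi.single_eq_same, Pi.single_eq_same]
        · rw [Pi.single_eq_of_ne hij, Pi.single_eq_of_ne (fun h => hij (Fin.succ_injective _ h))]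
    rw [h2] at h1
    show MvPolynomial.rename Fin.succ (MvPolynomial.X j : MvPolynomial (Fin k) A) • (x : M) ∈ _
    rw [MvPolynomial.rename_X]
    exact h1
  · -- NZ
    rw [hT] at ht0
    have h1 : ∃ x ∈ Nt t0, x ∉ Kt χ M := by
      by_contra hcon
      push Not at hcon
      exact ht0 hcon
    obtain ⟨x, hx, hx'⟩ := h1
    refine ⟨⟨x, hx⟩, fun s hs h => hx' ⟨s, hs, ?_⟩⟩
    exact congrArg Subtype.val h
  · intro x
    have h1 : π0 (x : M) = x := by
      apply Subtype.ext
      rw [hπ0]
      exact (hmem t0 _).1 x.2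
    cases top with
    | true =>
      simp only [if_true, LinearMap.smul_apply, Submodule.subtype_apply, map_smul, h1]
    | false =>
      simp only [Bool.false_eq_true, if_false, LinearMap.smul_apply, Submodule.subtype_apply, h1]
  · intro q x
    cases top with
    | true =>
      simp only [if_true, LinearMap.smul_apply, Submodule.subtype_apply]
      rw [smul_comm']
      rfl
    | false =>
      simp only [Bool.false_eq_true, if_false, Submodule.subtype_apply]
      rfl
  · intro q x
    have h1 : π0 (MvPolynomial.rename Fin.succ q • x) =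
        (slabModule (Nt t0) hstab).toSMul.smul q (π0 x) := by
      apply Subtype.ext
      rw [hπ0, comm_rename (P t0) (hPs t0) q x, ← hπ0]
      rfl
    cases top with
    | true =>
      simp only [if_true]
      exact h1
    | false =>
      simp only [Bool.false_eq_true, if_false, LinearMap.smul_apply]
      rw [h1]
      apply Subtype.ext
      exact (smul_comm' _ s _).symm
  · intro htop x
    subst htop
    simp only [Bool.false_eq_true, if_false, LinearMap.smul_apply]
    apply Subtype.ext
    have h1 := hPz (t0 - 1) x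
    rw [sub_add_cancel] at h1
    show s • ((π0 _ : Nt t0) : M) = 0
    rw [hπ0, h1, ← smul_comm', hsbot rfl _ (hPmem _ _), smul_zero]
  · intro htop x
    subst htop
    simp only [if_true, LinearMap.smul_apply, Submodule.subtype_apply]
    rw [smul_comm']
    refine hstop rfl _ ?_
    rw [hmem, hPz, (hmem t0 _).1 x.2]

end Pool.Agent.W32.BEGRCUT
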