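import Pool.Agent.W527.CL.Stm

/-! # Multiplicative independence -/

set_option autoImplicit false

namespace Pool.Agent.W32.CLINDEP

open Pool.Agent.W527.CL
open Polynomial

/-- the ring of algebraic integers -/
abbrev Ri : Subalgebra ℤ ℂ := integralClosure ℤ ℂ

lemma integral_root (z : ℂ) (h : z ^ 5 - 4 * z + 2 = 0) : IsIntegral ℤ z := by
  refine ⟨X ^ 5 - 4 * X + 2, ?_, ?_⟩
  · monicity!
  · simp only [eval₂_add, eval₂_sub, eval₂_mul, eval₂_pow, eval₂_X, eval₂_ofNat]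
    exact h

/-- the integers `F(n)` -/
def Fn (n : ℤ) : ℤ := n ^ 5 - 4 * n - 2

lemma dvd_F (b : Ri) (h : b ^ 5 - 4 * b + 2 = 0) (n : ℤ) : b + (n : Ri) ∣ ((Fn n : ℤ) : Ri) := by
  refine ⟨b ^ 4 - b ^ 3 * n + b ^ 2 * n ^ 2 - b * n ^ 3 + n ^ 4 - 4, ?_⟩
  unfold Fn
  push_cast
  linear_combination (-1 : Ri) * h

lemma cop1 (b b' : Ri) (h : b ^ 5 - 4 * b + 2 = 0) (h' : b' ^ 5 - 4 * b' + 2 = 0) (i j : Fin 4)
    (hij : i ≠ j) : IsCoprime (b + ((nn i : ℤ) : Ri)) (b' + ((nn j : ℤ) : Ri)) := by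
  have hc : IsCoprime (Fn (nn i)) (Fn (nn j)) := by
    rw [Int.isCoprime_iff_gcd_eq_one]
    revert hij
    revert i j
    decide
  have hc2 : IsCoprime ((Fn (nn i) : ℤ) : Ri) ((Fn (nn j) : ℤ) : Ri) := hc.intCast
  exact (hc2.of_isCoprime_of_dvd_left (dvd_F b h _)).of_isCoprime_of_dvd_right (dvd_F b' h' _)

lemma cop2 (b b' : Ri) (h : b ^ 5 - 4 * b + 2 = 0)
    (h2 : b ^ 4 + b ^ 3 * b' + b ^ 2 * b' ^ 2 + b * b' ^ 3 + b' ^ 4 - 4 = 0) (j : Fin 4) :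
    IsCoprime (b + ((nn j : ℤ) : Ri)) (b' + ((nn j : ℤ) : Ri)) := by
  have hc : IsCoprime (Fn (nn j)) (5 * (nn j) ^ 4 - 4) := by
    rw [Int.isCoprime_iff_gcd_eq_one]
    revert j
    decide
  obtain ⟨u, v, huv⟩ := hc
  obtain ⟨w, hw⟩ := dvd_F b h (nn j)
  generalize nn j = n at *
  have huv' : (u : Ri) * ((Fn n : ℤ) : Ri) + (v : Ri) * (5 * (n : Ri) ^ 4 - 4) = 1 := by
    exact_mod_cast congrArg (fun z : ℤ => (z : Ri)) huv
  rw [hw] at huv'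
  refine ⟨u * w - v * ((b ^ 3 - b ^ 2 * n + b * n ^ 2 - n ^ 3) + (b ^ 2 - b * n + n ^ 2) * b' +
    (b - n) * b' ^ 2 + b' ^ 3), - v * ((b' ^ 3 - b' ^ 2 * n + b' * n ^ 2 - n ^ 3) -
    n * (b' ^ 2 - b' * n + n ^ 2) + n ^ 2 * (b' - n) - n ^ 3), ?_⟩
  linear_combination huv' - (v : Ri) * h2

section

variable {K : Type} [Field K] [NumberField K] (D : FieldData K)

lemma prod_eq (n : ℤ) : ∏ k, (D.β k + (n : ℂ)) = ((Fn n : ℤ) : ℂ) := by
  have h1 : (X ^ 5 - 4 * X + 2 : ℂ[X]) = Lagrange.nodal Finset.univ D.β := by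
    refine Polynomial.eq_of_degree_sub_lt_of_eval_index_eq Finset.univ (v := D.β) D.inj.injOn ?_ ?_
    · have hm : (X ^ 5 - 4 * X + 2 : ℂ[X]).Monic := by monicity!
      have hd : (X ^ 5 - 4 * X + 2 : ℂ[X]).degree = 5 := by compute_degree!
      have hd2 : (Lagrange.nodal Finset.univ D.β).degree = 5 := by
        rw [Lagrange.degree_nodal]
        simp
      have h := Polynomial.degree_sub_lt_left (hd.trans hd2.symm) hm.ne_zero
        (hm.leadingCoeff.trans (Lagrange.nodal_monic).leadingCoeff.symm)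
      rw [hd] at h
      simpa using h
    · intro k _
      rw [Lagrange.eval_nodal_at_node (Finset.mem_univ k)]
      simp only [eval_add, eval_sub, eval_mul, eval_pow, eval_X, eval_ofNat]
      exact D.root k
  have h2 := congrArg (fun p : ℂ[X] => p.eval (-(n : ℂ))) h1
  simp only [eval_add, eval_sub, eval_mul, eval_pow, eval_X, eval_ofNat, Lagrange.eval_nodal] at h2
  have h3 : ∏ k, (-(n : ℂ) - D.β k) = (-1) ^ 5 * ∏ k, (D.β k + (n : ℂ)) := by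
    rw [Fin.prod_univ_five, Fin.prod_univ_five]
    ring
  rw [h3] at h2
  unfold Fn
  push_cast
  linear_combination h2

lemma F_gt : ∀ j : Fin 4, 1 < Fn (nn j) := by decide

lemma not_unit (j : Fin 4) (hinv : IsIntegral ℤ ((D.β 0 + ((nn j : ℤ) : ℂ))⁻¹)) : False := by
  obtain ⟨φ0, hφ0⟩ := D.surj 1
  have h0 : φ0 (D.b 0) = D.β 0 := hφ0 0
  have hK : IsIntegral ℤ ((D.b 0 + ((nn j : ℤ) : K))⁻¹) := by
    have h1 : φ0 ((D.b 0 + ((nn j : ℤ) : K))⁻¹) = (D.β 0 + ((nn j : ℤ) : ℂ))⁻¹ := by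
      rw [map_inv₀, map_add, h0, map_intCast]
    rw [← h1] at hinv
    exact (isIntegral_algHom_iff (φ0.toIntAlgHom) φ0.injective).1 hinv
  have hall : ∀ k, IsIntegral ℤ ((D.β k + ((nn j : ℤ) : ℂ))⁻¹) := by
    intro k
    obtain ⟨φ, hφ⟩ := D.surj (Equiv.swap 0 k)
    have h1 : φ ((D.b 0 + ((nn j : ℤ) : K))⁻¹) = (D.β k + ((nn j : ℤ) : ℂ))⁻¹ := by
      rw [map_inv₀, map_add, hφ 0, map_intCast, Equiv.swap_apply_left]
    rw [← h1]
    exact hK.map φ.toIntAlgHom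
  have hprod : IsIntegral ℤ (∏ k, (D.β k + ((nn j : ℤ) : ℂ))⁻¹) :=
    IsIntegral.prod _ fun k _ => hall k
  rw [Finset.prod_inv_distrib, prod_eq] at hprod
  have h2 : IsIntegral ℤ (((Fn (nn j) : ℤ) : ℚ)⁻¹) := by
    have h3 : algebraMap ℚ ℂ (((Fn (nn j) : ℤ) : ℚ)⁻¹) = (((Fn (nn j) : ℤ) : ℂ))⁻¹ := by
      rw [map_inv₀, map_intCast]
    rw [← h3] at hprod
    exact (isIntegral_algebraMap_iff (algebraMap ℚ ℂ).injective).1 hprod
  obtain ⟨z, hz⟩ := IsIntegrallyClosed.isIntegral_iff.1 h2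
  have hF : 1 < Fn (nn j) := F_gt j
  have hF0 : ((Fn (nn j) : ℤ) : ℚ) ≠ 0 := by
    have : Fn (nn j) ≠ 0 := by omega
    exact_mod_cast this
  have h4 : (z : ℚ) * ((Fn (nn j) : ℤ) : ℚ) = 1 := by
    have : (z : ℚ) = (((Fn (nn j) : ℤ) : ℚ))⁻¹ := by simpa using hz
    rw [this, inv_mul_cancel₀ hF0]
  have h5 : z * Fn (nn j) = 1 := by exact_mod_cast h4
  have h6 := Int.eq_one_or_neg_one_of_mul_eq_one' h5
  omega

lemma root_ne (k : Fin 5) (j : Fin 4) : D.β k + ((nn j : ℤ) : ℂ) ≠ 0 := by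
  intro h
  have h1 := prod_eq D (nn j)
  rw [Finset.prod_eq_zero (Finset.mem_univ k) h] at h1
  have h2 : Fn (nn j) = 0 := by exact_mod_cast h1.symm
  have := F_gt j
  omega

lemma key (m : Fin 4 → ℤ)
    (h : ∏ j, (D.β 0 + (nn j : ℂ)) ^ m j = ∏ j, (D.β 1 + (nn j : ℂ)) ^ m j) (j0 : Fin 4) :
    ¬ 0 < m j0 := by
  intro hpos
  obtain ⟨B, hB⟩ : ∃ B : Fin 5 → Ri, ∀ k, ((B k : Ri) : ℂ) = D.β k :=
    ⟨fun k => ⟨D.β k, integral_root _ (D.root k)⟩, fun k => rfl⟩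
  have hBr : ∀ k, B k ^ 5 - 4 * B k + 2 = 0 := by
    intro k
    apply Subtype.ext
    push_cast
    rw [hB]
    exact D.root k
  have hinj : (D.β 0 : ℂ) - D.β 1 ≠ 0 := by
    rw [sub_ne_zero]
    intro h'
    exact absurd (D.inj h') (by decide)
  have h2 : B 0 ^ 4 + B 0 ^ 3 * B 1 + B 0 ^ 2 * B 1 ^ 2 + B 0 * B 1 ^ 3 + B 1 ^ 4 - 4 = 0 := by
    apply Subtype.ext
    push_cast
    rw [hB, hB]
    have h4 : ((4 : Ri) : ℂ) = 4 := rfl
    rw [h4]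
    apply mul_left_cancel₀ hinj
    have r0 := D.root 0
    have r1 := D.root 1
    linear_combination r0 - r1
  -- relation without negative exponents
  have hrel : (∏ j, (B 0 + ((nn j : ℤ) : Ri)) ^ (m j).toNat) *
      (∏ j, (B 1 + ((nn j : ℤ) : Ri)) ^ (-m j).toNat)
      = (∏ j, (B 1 + ((nn j : ℤ) : Ri)) ^ (m j).toNat) *
        (∏ j, (B 0 + ((nn j : ℤ) : Ri)) ^ (-m j).toNat) := by
    apply Subtype.ext
    push_cast
    simp only [hB]
    have hz : ∀ (z : ℂ) (n : ℤ), z ≠ 0 → z ^ n * z ^ (-n).toNat = z ^ n.toNat := by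
      intro z n hz
      rw [← zpow_natCast, ← zpow_natCast, ← zpow_add₀ hz]
      congr 1
      omega
    have e0 : ∏ j, (D.β 0 + (nn j : ℂ)) ^ (m j).toNat =
        (∏ j, (D.β 0 + (nn j : ℂ)) ^ m j) * ∏ j, (D.β 0 + (nn j : ℂ)) ^ (-m j).toNat := by
      rw [← Finset.prod_mul_distrib]
      exact Finset.prod_congr rfl fun j _ => (hz _ _ (root_ne D 0 j)).symm
    have e1 : ∏ j, (D.β 1 + (nn j : ℂ)) ^ (m j).toNat =
        (∏ j, (D.β 1 + (nn j : ℂ)) ^ m j) * ∏ j, (D.β 1 + (nn j : ℂ)) ^ (-m j).toNat := by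
      rw [← Finset.prod_mul_distrib]
      exact Finset.prod_congr rfl fun j _ => (hz _ _ (root_ne D 1 j)).symm
    rw [e0, e1, h]
    ring
  have hdvd : B 0 + ((nn j0 : ℤ) : Ri) ∣ (∏ j, (B 1 + ((nn j : ℤ) : Ri)) ^ (m j).toNat) *
        (∏ j, (B 0 + ((nn j : ℤ) : Ri)) ^ (-m j).toNat) := by
    rw [← hrel]
    refine Dvd.dvd.mul_right ?_ _
    refine dvd_trans ?_ (Finset.dvd_prod_of_mem _ (Finset.mem_univ j0))
    exact dvd_pow_self _ (by omega)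
  have hcop : IsCoprime (B 0 + ((nn j0 : ℤ) : Ri)) ((∏ j, (B 1 + ((nn j : ℤ) : Ri)) ^ (m j).toNat) *
        (∏ j, (B 0 + ((nn j : ℤ) : Ri)) ^ (-m j).toNat)) := by
    refine IsCoprime.mul_right ?_ ?_
    · refine IsCoprime.prod_right fun j _ => IsCoprime.pow_right ?_
      by_cases hj : j0 = j
      · subst hj
        exact cop2 _ _ (hBr 0) h2 j0
      · exact cop1 _ _ (hBr 0) (hBr 1) _ _ hj
    · refine IsCoprime.prod_right fun j _ => ?_
      by_cases hj : j0 = j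
      · subst hj
        have : (-m j0).toNat = 0 := by omega
        rw [this, pow_zero]
        exact isCoprime_one_right
      · exact IsCoprime.pow_right (cop1 _ _ (hBr 0) (hBr 0) _ _ hj)
  have hu : IsUnit (B 0 + ((nn j0 : ℤ) : Ri)) := hcop.isUnit_of_dvd' dvd_rfl hdvd
  obtain ⟨v, hv⟩ := hu.exists_right_inv
  refine not_unit D j0 ?_
  have h3 : (D.β 0 + ((nn j0 : ℤ) : ℂ)) * ((v : Ri) : ℂ) = 1 := by
    have := congrArg (fun z : Ri => (z : ℂ)) hv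
    push_cast at this
    rw [hB] at this
    exact this
  rw [← eq_inv_of_mul_eq_one_right h3]
  exact v.2

end

theorem t_INDEP : Pool.Agent.W527.CL.S_INDEP := by
  intro K _ _ D m h
  have h' : ∏ j, (D.β 0 + (nn j : ℂ)) ^ (-m) j = ∏ j, (D.β 1 + (nn j : ℂ)) ^ (-m) j := by
    simp only [Pi.neg_apply, zpow_neg, Finset.prod_inv_distrib]
    rw [h]
  funext j
  have h1 := key D m h j
  have h2 := key D (-m) h' j
  rw [Pi.neg_apply] at h2
  rw [Pi.zero_apply]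
  omega

end Pool.Agent.W32.CLINDEP
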