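import Mathlib

set_option autoImplicit false

namespace Pool.Agent.W32

open Finset

/-- the summand of the level 7 sequence -/
def F7 (n j : ℕ) : ℕ := (n.choose j) ^ 2 * (2 * j).choose n * (n + j).choose j

/-- the level 7 sequence -/
def T7 (n : ℕ) : ℕ := ∑ j ∈ range (n + 1), (n.choose j) ^ 2 * (2 * j).choose n * (n + j).choose j

theorem T7_eq (n : ℕ) : T7 n = ∑ j ∈ range (n + 1), F7 n j := rfl

theorem F7_zero_of_lt {n j : ℕ} (h : n < j) : F7 n j = 0 := by
  unfold F7
  rw [Nat.choose_eq_zero_of_lt h]; simp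

theorem F7_zero_of_lt' {n j : ℕ} (h : 2 * j < n) : F7 n j = 0 := by
  unfold F7
  rw [Nat.choose_eq_zero_of_lt h]; simp

theorem F7_fac {n j : ℕ} (h1 : j ≤ n) (h2 : n ≤ 2 * j) :
    (F7 n j : ℚ) = ((2 * j).factorial : ℚ) * (n + j).factorial /
      ((j.factorial : ℚ) ^ 3 * ((n - j).factorial : ℚ) ^ 2 * ((2 * j - n).factorial : ℚ)) := by
  unfold F7
  push_cast
  rw [Nat.cast_choose ℚ h1, Nat.cast_choose ℚ h2, Nat.cast_choose ℚ (Nat.le_add_left j n),
    Nat.add_sub_cancel]
  have e1 : (n.factorial : ℚ) ≠ 0 := by exact_mod_cast n.factorial_ne_zero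
  have e2 : (j.factorial : ℚ) ≠ 0 := by exact_mod_cast j.factorial_ne_zero
  have e3 : ((n - j).factorial : ℚ) ≠ 0 := by exact_mod_cast (n - j).factorial_ne_zero
  have e4 : ((2 * j - n).factorial : ℚ) ≠ 0 := by exact_mod_cast (2 * j - n).factorial_ne_zero
  field_simp

/-- the hypergeometric term used in the certificate -/
noncomputable def H7 (n j : ℕ) : ℚ :=
  if j ≤ n + 2 ∧ n ≤ 2 * j then
    ((2 * j).factorial : ℚ) * (n + j).factorial /
      ((j.factorial : ℚ) ^ 3 * ((n + 2 - j).factorial : ℚ) ^ 2 * ((2 * j - n).factorial : ℚ))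
  else 0

theorem fac_ne (n : ℕ) : (n.factorial : ℚ) ≠ 0 := by exact_mod_cast n.factorial_ne_zero

theorem F7_H0 (n j : ℕ) :
    (F7 n j : ℚ) = H7 n j * (((n : ℚ) + 2 - j) * ((n : ℚ) + 1 - j)) ^ 2 := by
  by_cases h2 : n ≤ 2 * j
  · by_cases h1 : j ≤ n
    · obtain ⟨i, rfl⟩ := Nat.exists_eq_add_of_le h1
      rw [F7_fac h1 h2, H7, if_pos ⟨by omega, h2⟩]
      have e1 : j + i + 2 - j = i + 2 := by omega
      have e2 : j + i - j = i := by omega
      rw [e1, e2, Nat.factorial_succ, Nat.factorial_succ]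
      have := fac_ne i
      have := fac_ne j
      have := fac_ne (2 * j - (j + i))
      push_cast
      have : (i : ℚ) + 1 ≠ 0 := by positivity
      have : (i : ℚ) + 1 + 1 ≠ 0 := by positivity
      field_simp
      ring
    · rw [F7_zero_of_lt (by omega)]
      by_cases h3 : j = n + 1
      · subst h3; push_cast; ring
      · by_cases h4 : j = n + 2
        · subst h4; push_cast; ring
        · rw [H7, if_neg (by omega)]; simp
  · rw [F7_zero_of_lt' (by omega), H7, if_neg (by omega)]; simp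

theorem F7_H1 (n j : ℕ) :
    (F7 (n + 1) j : ℚ) = H7 n j * (((n : ℚ) + j + 1) * ((n : ℚ) + 2 - j) ^ 2 * (2 * j - n)) := by
  by_cases h2 : n + 1 ≤ 2 * j
  · by_cases h1 : j ≤ n + 1
    · obtain ⟨i, hi⟩ := Nat.exists_eq_add_of_le h1
      obtain ⟨l, hl⟩ := Nat.exists_eq_add_of_le h2
      rw [F7_fac h1 h2, H7, if_pos ⟨by omega, by omega⟩]
      have e1 : n + 2 - j = i + 1 := by omega
      have e2 : n + 1 - j = i := by omega
      have e3 : 2 * j - n = l + 1 := by omega
      have e4 : 2 * j - (n + 1) = l := by omega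
      have e5 : n + 1 + j = (n + j) + 1 := by omega
      rw [e1, e2, e3, e4, e5, Nat.factorial_succ (n + j), Nat.factorial_succ i,
        Nat.factorial_succ l]
      have := fac_ne i
      have := fac_ne j
      have := fac_ne l
      have hn : (n : ℚ) = j + i - 1 := by
        have : ((n + 1 : ℕ) : ℚ) = ((j + i : ℕ) : ℚ) := by rw [hi]
        push_cast at this; linarith
      have hj : (2 * j : ℚ) = n + 1 + l := by
        have : ((2 * j : ℕ) : ℚ) = ((n + 1 + l : ℕ) : ℚ) := by rw [hl]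
        push_cast at this; linarith
      have hl' : (2 * (j:ℚ) - n) = l + 1 := by linarith
      have hi' : ((n:ℚ) + 2 - j) = i + 1 := by linarith
      push_cast
      rw [hl', hi']
      have : (i : ℚ) + 1 ≠ 0 := by positivity
      have : (l : ℚ) + 1 ≠ 0 := by positivity
      field_simp
    · rw [F7_zero_of_lt (by omega)]
      by_cases h4 : j = n + 2
      · subst h4; push_cast; ring
      · rw [H7, if_neg (by omega)]; simp
  · rw [F7_zero_of_lt' (by omega)]
    by_cases h3 : 2 * j = n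
    · have : (2 * (j:ℚ) - n) = 0 := by
        have : ((2 * j : ℕ) : ℚ) = n := by rw [h3]
        push_cast at this; linarith
      rw [this]; simp
    · rw [H7, if_neg (by omega)]; simp

theorem F7_H2 (n j : ℕ) :
    (F7 (n + 2) j : ℚ) = H7 n j * (((n : ℚ) + j + 1) * ((n : ℚ) + j + 2) *
      ((2 * j - n) * (2 * j - n - 1))) := by
  by_cases h2 : n + 2 ≤ 2 * j
  · by_cases h1 : j ≤ n + 2
    · obtain ⟨i, hi⟩ := Nat.exists_eq_add_of_le h1
      obtain ⟨l, hl⟩ := Nat.exists_eq_add_of_le h2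
      rw [F7_fac h1 h2, H7, if_pos ⟨by omega, by omega⟩]
      have e1 : n + 2 - j = i := by omega
      have e3 : 2 * j - n = l + 2 := by omega
      have e4 : 2 * j - (n + 2) = l := by omega
      have e5 : n + 2 + j = (n + j) + 1 + 1 := by omega
      rw [e1, e3, e4, e5, Nat.factorial_succ (n + j + 1), Nat.factorial_succ (n + j),
        Nat.factorial_succ (l + 1), Nat.factorial_succ l]
      have := fac_ne i
      have := fac_ne j
      have := fac_ne l
      have hj : (2 * j : ℚ) = n + 2 + l := by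
        have : ((2 * j : ℕ) : ℚ) = ((n + 2 + l : ℕ) : ℚ) := by rw [hl]
        push_cast at this; linarith
      have hl' : (2 * (j:ℚ) - n) = l + 2 := by linarith
      push_cast
      rw [hl']
      have : (l : ℚ) + 1 ≠ 0 := by positivity
      have : (l : ℚ) + 1 + 1 ≠ 0 := by positivity
      field_simp
      ring
    · rw [F7_zero_of_lt (by omega), H7, if_neg (by omega)]; simp
  · rw [F7_zero_of_lt' (by omega)]
    by_cases h3 : 2 * j = n
    · have : (2 * (j:ℚ) - n) = 0 := by
        have : ((2 * j : ℕ) : ℚ) = n := by rw [h3]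
        push_cast at this; linarith
      rw [this]; simp
    · by_cases h4 : 2 * j = n + 1
      · have : (2 * (j:ℚ) - n - 1) = 0 := by
          have : ((2 * j : ℕ) : ℚ) = ((n + 1 : ℕ) : ℚ) := by rw [h4]
          push_cast at this; linarith
        rw [this]; simp
      · rw [H7, if_neg (by omega)]; simp

theorem H7_succ (n j : ℕ) :
    H7 n (j + 1) * (((j : ℚ) + 1) ^ 2 * ((2 * j + 2 - n) * (2 * j + 1 - n))) =
      H7 n j * (2 * (2 * j + 1) * ((n : ℚ) + 1 + j) * ((n : ℚ) + 2 - j) ^ 2) := by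
  by_cases h2 : n ≤ 2 * j
  · by_cases h1 : j ≤ n + 1
    · obtain ⟨i, hi⟩ := Nat.exists_eq_add_of_le h1
      obtain ⟨l, hl⟩ := Nat.exists_eq_add_of_le h2
      rw [H7, if_pos ⟨by omega, by omega⟩, H7, if_pos ⟨by omega, by omega⟩]
      have e1 : n + 2 - j = i + 1 := by omega
      have e2 : n + 2 - (j + 1) = i := by omega
      have e3 : 2 * j - n = l := by omega
      have e4 : 2 * (j + 1) - n = l + 1 + 1 := by omega
      have e5 : n + (j + 1) = (n + j) + 1 := by omega
      have e6 : 2 * (j + 1) = 2 * j + 1 + 1 := by omega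
      rw [e1, e2, e3, e4, e5, e6, Nat.factorial_succ (n + j), Nat.factorial_succ (2 * j + 1),
        Nat.factorial_succ (2 * j), Nat.factorial_succ i,
        Nat.factorial_succ (l + 1), Nat.factorial_succ l, Nat.factorial_succ j]
      have := fac_ne i
      have := fac_ne j
      have := fac_ne l
      have hj : (2 * j : ℚ) = n + l := by
        have : ((2 * j : ℕ) : ℚ) = ((n + l : ℕ) : ℚ) := by rw [hl]
        push_cast at this; linarith
      have hn : (n : ℚ) = j + i - 1 := by
        have : ((n + 1 : ℕ) : ℚ) = ((j + i : ℕ) : ℚ) := by rw [hi]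
        push_cast at this; linarith
      have hl1 : (2 * (j:ℚ) + 2 - n) = l + 1 + 1 := by linarith
      have hl2 : (2 * (j:ℚ) + 1 - n) = l + 1 := by linarith
      have hi' : ((n:ℚ) + 2 - j) = i + 1 := by linarith
      push_cast
      rw [hl1, hl2, hi']
      have : (l : ℚ) + 1 ≠ 0 := by positivity
      have : (l : ℚ) + 1 + 1 ≠ 0 := by positivity
      have : (j : ℚ) + 1 ≠ 0 := by positivity
      have : (i : ℚ) + 1 ≠ 0 := by positivity
      field_simp
      ring
    · rw [H7, if_neg (by omega)]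
      by_cases h4 : j = n + 2
      · subst h4; push_cast; ring
      · rw [H7, if_neg (by omega)]; simp
  · have hH : H7 n j = 0 := by rw [H7, if_neg (by omega)]
    rw [hH, zero_mul]
    by_cases h3 : 2 * j + 2 = n
    · have : (2 * (j:ℚ) + 2 - n) = 0 := by
        have : ((2 * j + 2 : ℕ) : ℚ) = n := by rw [h3]
        push_cast at this; linarith
      rw [this]; simp
    · by_cases h4 : 2 * j + 1 = n
      · have : (2 * (j:ℚ) + 1 - n) = 0 := by
          have : ((2 * j + 1 : ℕ) : ℚ) = ((n : ℕ) : ℚ) := by rw [h4]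
          push_cast at this; linarith
        rw [this]; simp
      · rw [H7, if_neg (by omega)]; simp

/-- the polynomial of the certificate (for the shifted recurrence) -/
def q7 (n j : ℚ) : ℚ :=
  (7 * (n + 1) + 4) * (n + 2) ^ 2 - 13 * (n + 2) * (2 * n + 3) * j + (15 * (n + 1) + 7) * j ^ 2

/-- the telescoping function -/
noncomputable def G7 (n j : ℕ) : ℚ :=
  H7 n j * ((j : ℚ) ^ 2 * (2 * j - n) * (2 * j - n - 1) * q7 n j)

theorem tele (n j : ℕ) :
    ((n : ℚ) + 2) ^ 3 * F7 (n + 2) j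
      - (2 * n + 3) * (13 * (n + 1) ^ 2 + 13 * (n + 1) + 4) * F7 (n + 1) j
      - 3 * (n + 1) * (9 * (n + 1) ^ 2 - 1) * F7 n j = G7 n (j + 1) - G7 n j := by
  have h := H7_succ n j
  have hG : G7 n (j + 1) = H7 n j * (2 * (2 * j + 1) * ((n : ℚ) + 1 + j) * ((n : ℚ) + 2 - j) ^ 2) *
      q7 n (j + 1) := by
    rw [← h, G7]; push_cast; ring
  rw [hG, F7_H2 n j, F7_H1 n j, F7_H0 n j, G7, q7, q7]
  ring

theorem T7_rec_rat (n : ℕ) :
    ((n : ℚ) + 2) ^ 3 * T7 (n + 2) =
      (2 * n + 3) * (13 * (n + 1) ^ 2 + 13 * (n + 1) + 4) * T7 (n + 1)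
      + 3 * (n + 1) * (9 * (n + 1) ^ 2 - 1) * T7 n := by
  have h2 : (T7 (n + 2) : ℚ) = ∑ j ∈ range (n + 3), (F7 (n + 2) j : ℚ) := by
    rw [T7_eq]; push_cast; rfl
  have h1 : (T7 (n + 1) : ℚ) = ∑ j ∈ range (n + 3), (F7 (n + 1) j : ℚ) := by
    rw [T7_eq, sum_range_succ _ (n + 2), F7_zero_of_lt (by omega : n + 1 < n + 2)]
    push_cast; ring
  have h0 : (T7 n : ℚ) = ∑ j ∈ range (n + 3), (F7 n j : ℚ) := by
    rw [T7_eq, sum_range_succ _ (n + 2), sum_range_succ _ (n + 1),
      F7_zero_of_lt (by omega : n < n + 2), F7_zero_of_lt (by omega : n < n + 1)]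
    push_cast; ring
  have hs : ∑ j ∈ range (n + 3), (G7 n (j + 1) - G7 n j) = 0 := by
    rw [sum_range_sub]
    have e1 : G7 n (n + 3) = 0 := by rw [G7, H7, if_neg (by omega)]; simp
    have e2 : G7 n 0 = 0 := by rw [G7]; simp
    rw [e1, e2, sub_zero]
  rw [← sub_eq_zero, ← hs, h2, h1, h0, mul_sum, mul_sum, mul_sum, ← sub_sub, ← sum_sub_distrib,
    ← sum_sub_distrib]
  exact sum_congr rfl fun j _ => tele n j

/-- the recurrence of the level 7 sequence -/
theorem T7_rec (n : ℕ) :
    ((n : ℤ) + 2) ^ 3 * T7 (n + 2) =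
      (2 * n + 3) * (13 * (n + 1) ^ 2 + 13 * (n + 1) + 4) * T7 (n + 1)
      + 3 * (n + 1) * (9 * (n + 1) ^ 2 - 1) * T7 n := by
  have := T7_rec_rat n
  exact_mod_cast this

theorem T7_zero : T7 0 = 1 := by decide

theorem T7_one : T7 1 = 4 := by decide

end Pool.Agent.W32
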