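import Pool.Agent.W32.T9

set_option autoImplicit false

namespace Pool.Agent.W32

open PowerSeries

section

variable {R : Type*} [CommRing R]

theorem L7_mul_const {f c : R⟦X⟧} (hc : th c = 0) : L7 (f * c) = c * L7 f := by
  unfold L7
  have h1 : th (f * c) = c * th f := by rw [th_mul, hc]; ring
  have h2 : th (th (f * c)) = c * th (th f) := by rw [h1, th_mul, hc]; ring
  rw [h2, h1]; ring

end

section main

variable {K : Type*} [Field K]

theorem toPS_th (Q : Polynomial K) :
    toPS (Polynomial.X * Polynomial.derivative Q) = th (toPS Q) := by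
  rw [map_mul, toPS_apply, toPS_apply, toPS_apply, Polynomial.coe_X, th, derivative_coe]

/-- the polynomial `∑_{r<p} T(r) X^r` over `K` -/
noncomputable def Pp (K : Type*) [Field K] (p : ℕ) : Polynomial K :=
  PowerSeries.trunc p (PowerSeries.map (Int.castRingHom K) Z7)

theorem coe_Pp (p : ℕ) : ((Pp K p : Polynomial K) : K⟦X⟧) =
    PowerSeries.map (Int.castRingHom K) (PT p) := by
  ext n
  rw [Polynomial.coeff_coe, Pp, coeff_trunc, coeff_map, coeff_map, PT, Z7, coeff_mk, coeff_mk]
  split_ifs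
  · rfl
  · simp

theorem natDegree_Pp {p : ℕ} (hp : 0 < p) : (Pp K p).natDegree < p := by
  obtain ⟨q, rfl⟩ : ∃ q, p = q + 1 := ⟨p - 1, by omega⟩
  exact natDegree_trunc_lt _ _

theorem coeff_zero_Pp {p : ℕ} (hp : 0 < p) : (Pp K p).coeff 0 = 1 := by
  rw [Pp, coeff_trunc, if_pos hp, coeff_map, Z7, coeff_mk, T7_zero]; simp

/-- the structure modulo `p` of the square root series -/
theorem modp [IsAlgClosed K] {p : ℕ} [hp : Fact p.Prime] [CharP K p] (hp11 : 11 ≤ p)
    {s : ZMod p} (hs : s ^ 2 = -7) {A U : ℤ⟦X⟧} (h1 : constantCoeff A = 1) (hA : A * A = Z7)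
    (hU : A * U = 1) :
    ∃ h : Polynomial K, (h : K⟦X⟧) = PowerSeries.map (Int.castRingHom K) (A * U ^ p) ∧
      h * h = Pp K p ∧ Sq2 (Pp K p) := by
  set φ := PowerSeries.map (Int.castRingHom K) with hφ
  set a := φ A with ha
  set u := φ U with hu
  set g := φ (A * U ^ p) with hg
  have hau : a * u = 1 := by rw [ha, hu, ← map_mul, hU, map_one]
  have hgu : g = a * u ^ p := by rw [hg, map_mul, map_pow]
  have hga : g * a ^ p = a := by
    rw [hgu, mul_assoc, ← mul_pow, mul_comm u a, hau, one_pow, mul_one]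
  have hpK : (p : K⟦X⟧) = 0 := by
    rw [← map_natCast (C (R := K)), CharP.cast_eq_zero, map_zero]
  have ha0 : a ≠ 0 := by rintro h; rw [h, zero_mul] at hau; exact zero_ne_one hau
  -- `z = P z^p`
  have hz : φ Z7 = φ (PT p) * (φ Z7) ^ p := by
    obtain ⟨V, W, -, -, h⟩ := Z7_mod hp.out
    have h2 := congrArg φ h
    simp only [map_add, map_mul, map_pow, map_natCast] at h2
    rw [hpK] at h2
    have e : φ (expand p hp.out.ne_zero Z7) = (φ Z7) ^ p := by
      rw [hφ, PowerSeries.map_expand, expand_eq_pow]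
    rw [e] at h2
    linear_combination h2
  have hzz : φ Z7 = a * a := by rw [ha, ← map_mul, hA]
  have hgg : g * g = φ (PT p) := by
    apply mul_right_cancel₀ (pow_ne_zero p (mul_ne_zero ha0 ha0))
    rw [hzz] at hz
    rw [← hz, mul_pow]
    linear_combination (g * a ^ p + a) * hga
  -- the differential equation of `g`
  have hLa : L7 a = 0 := by
    rw [ha, hφ, L7_map, L7_of_sq h1 hA, map_zero]
  have hup : th (u ^ p) = 0 := by
    rw [th_pow, hpK]; ring
  have hLg : L7 g = 0 := by rw [hgu, L7_mul_const hup, hLa, mul_zero]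
  have hcoe : (Pp K p : K⟦X⟧) = g * g := by rw [coe_Pp, hgg]
  have hS : Sq2 (Pp K p) := by
    unfold Sq2
    apply Polynomial.coe_injective K
    rw [← toPS_apply, ← toPS_apply]
    have eP : toPS (Pp K p) = g * g := by rw [toPS_apply, hcoe]
    have e1 : toPS (Polynomial.X * Polynomial.derivative (Pp K p)) = th (g * g) := by
      rw [toPS_th, eP]
    have e2 : toPS (Polynomial.X * Polynomial.derivative
        (Polynomial.X * Polynomial.derivative (Pp K p))) = th (th (g * g)) := by
      rw [toPS_th, e1]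
    have eX : toPS (Polynomial.X : Polynomial K) = X := by rw [toPS_apply, Polynomial.coe_X]
    generalize Polynomial.X * Polynomial.derivative
        (Polynomial.X * Polynomial.derivative (Pp K p)) = Q2 at e2 ⊢
    generalize Polynomial.X * Polynomial.derivative (Pp K p) = Q1 at e1 ⊢
    simp only [map_sub, map_mul, map_add, map_one, map_ofNat, map_zero, e1, e2, eP, eX]
    have e := hLg
    unfold L7 Dl at e
    simp only [th_mul, th_add]
    linear_combination 4 * g ^ 3 * e
  -- the functional equation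
  have hfa := congrArg φ (func_eq h1 (L7_of_sq h1 hA))
  have ms : ∀ (c f : ℤ⟦X⟧), HasSubst c → φ (f.subst c) = (φ f).subst (φ c) :=
    fun c f hc => PowerSeries.map_subst hc f
  rw [ms _ _ hasSubst_ys, map_mul, ms _ _ hasSubst_xs, hφ, map_xs, map_ys] at hfa
  simp only [map_sub, map_mul, map_one, map_ofNat, PowerSeries.map_X] at hfa
  rw [← hφ, ← ha] at hfa
  have hsx := congrArg (substAlgHom (hasSubst_xs (R := K))) hga
  have hsy := congrArg (substAlgHom (hasSubst_ys (R := K))) hga
  rw [map_mul, map_pow] at hsx hsy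
  rw [coe_substAlgHom] at hsx hsy
  rw [hfa] at hsy
  have hax : a.subst (xs : K⟦X⟧) ≠ 0 := by
    intro h
    have h3 : constantCoeff (a.subst (xs : K⟦X⟧) : K⟦X⟧) = constantCoeff a :=
      constantCoeff_subst' (by simp [xs])
    rw [h] at h3
    have h4 : constantCoeff a = 1 := by
      rw [ha, hφ, ← coeff_zero_eq_constantCoeff_apply, coeff_map, coeff_zero_eq_constantCoeff_apply,
        h1, map_one]
    rw [h4] at h3
    simp at h3
  have hm : (1 - 2 * X : K⟦X⟧) ≠ 0 := by
    intro h
    have := congrArg constantCoeff h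
    simp at this
  have hgxy : g.subst (xs : K⟦X⟧) = (1 - 2 * X) ^ (p - 1) * g.subst (ys : K⟦X⟧) := by
    apply mul_right_cancel₀ (pow_ne_zero p hax)
    apply mul_left_cancel₀ hm
    have hpp : (1 - 2 * X : K⟦X⟧) ^ p = (1 - 2 * X) * (1 - 2 * X) ^ (p - 1) := by
      rw [← pow_succ']
      congr 1
      omega
    rw [mul_pow, hpp] at hsy
    linear_combination (1 - 2 * X) * hsx - hsy
  have hfe : Polynomial.aeval (xs : K⟦X⟧) (Pp K p) =
      (1 - 2 * X) ^ (2 * (p - 1)) * Polynomial.aeval (ys : K⟦X⟧) (Pp K p) := by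
    have e1 : Polynomial.aeval (xs : K⟦X⟧) (Pp K p) =
        g.subst (xs : K⟦X⟧) * g.subst (xs : K⟦X⟧) := by
      rw [← subst_mul hasSubst_xs, ← hcoe]
      exact (subst_coe hasSubst_xs _).symm
    have e2 : Polynomial.aeval (ys : K⟦X⟧) (Pp K p) =
        g.subst (ys : K⟦X⟧) * g.subst (ys : K⟦X⟧) := by
      rw [← subst_mul hasSubst_ys, ← hcoe]
      exact (subst_coe hasSubst_ys _).symm
    rw [e1, e2, hgxy, two_mul (p - 1), pow_add]
    ring
  -- the special point
  have hne : ∀ k : ℕ, 0 < k → k < 11 → (k : ZMod p) ≠ 0 := by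
    intro k h2 h3 h4
    rw [ZMod.natCast_eq_zero_iff] at h4
    exact absurd (Nat.le_of_dvd h2 h4) (by omega)
  have n8 : (8 : ZMod p) ≠ 0 := by exact_mod_cast hne 8 (by norm_num) (by norm_num)
  set v : ZMod p := (3 + s) / 8 with hv
  have h8v : 8 * v = 3 + s := by rw [hv]; field_simp
  have hv0 : 4 * v ^ 2 - 3 * v + 1 = 0 := by
    have h5 : 16 * (4 * v ^ 2 - 3 * v + 1) = 0 := by
      linear_combination (8 * v + s - 3) * h8v + hs
    refine (mul_eq_zero.1 h5).resolve_left ?_
    have : (16 : ZMod p) = 8 * 2 := by norm_num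
    rw [this]
    exact mul_ne_zero n8 (by exact_mod_cast hne 2 (by norm_num) (by norm_num))
  have hm0 : 1 - 2 * v ≠ 0 := by
    intro h
    have h6 : v = 0 := by linear_combination (-(1 - 2 * v)) * h + hv0
    rw [h6] at h
    simp at h
  have hv1 : (1 - 2 * v) ^ (p - 1) = 1 := ZMod.pow_card_sub_one_eq_one hm0
  set j := ZMod.castHom (dvd_refl p) K with hj
  have hjv0 := congrArg j hv0
  have hjv1 := congrArg j hv1
  simp only [map_add, map_sub, map_mul, map_pow, map_one, map_ofNat, map_zero] at hjv0 hjv1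
  obtain ⟨Q, hQ⟩ := P_sq hp11 hS (natDegree_Pp hp.out.pos) (coeff_zero_Pp hp.out.pos) hfe hjv0 hjv1
  have hgQ : (g - Q) * (g + Q) = 0 := by
    have : (Pp K p : K⟦X⟧) = (Q : K⟦X⟧) * Q := by rw [hQ, Polynomial.coe_mul]
    rw [hcoe] at this
    linear_combination this
  rcases mul_eq_zero.1 hgQ with h | h
  · exact ⟨Q, (sub_eq_zero.1 h).symm, hQ.symm, hS⟩
  · refine ⟨-Q, ?_, by rw [neg_mul_neg]; exact hQ.symm, hS⟩
    rw [← toPS_apply, map_neg, toPS_apply]
    linear_combination -h

end main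

end Pool.Agent.W32
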