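import Pool.Agent.W32.T10

set_option autoImplicit false

namespace Pool.Agent.W32

open Polynomial

section poly

variable {R : Type*} [CommRing R]

/-- `θ` on polynomials -/
noncomputable def tp (Q : R[X]) : R[X] := X * derivative Q

theorem coe_tp (Q : R[X]) : ((tp Q : R[X]) : PowerSeries R) = th (Q : PowerSeries R) := by
  rw [tp, Polynomial.coe_mul, Polynomial.coe_X, th, PowerSeries.derivative_coe]

theorem tp_map {S : Type*} [CommRing S] (f : R →+* S) (Q : R[X]) :
    (tp Q).map f = tp (Q.map f) := by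
  rw [tp, tp, Polynomial.map_mul, Polynomial.map_X, Polynomial.derivative_map]

theorem tp_add (P Q : R[X]) : tp (P + Q) = tp P + tp Q := by
  rw [tp, tp, tp, derivative_add]; ring

theorem tp_mul (P Q : R[X]) : tp (P * Q) = P * tp Q + Q * tp P := by
  rw [tp, tp, tp, derivative_mul]; ring

/-- the polynomial `1 - 26 X - 27 X^2` -/
noncomputable def Dp : R[X] := 1 - 26 * X - 27 * (X * X)

/-- the operator on polynomials -/
noncomputable def L7p (Q : R[X]) : R[X] :=
  Dp * tp (tp Q) - (13 * X + 27 * (X * X)) * tp Q - (2 * X + 6 * (X * X)) * Q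

theorem coe_Dp : ((Dp : R[X]) : PowerSeries R) = Dl := by
  rw [Dp, Dl]
  simp only [← coeToPowerSeries.ringHom_apply, map_sub, map_mul, map_one, map_ofNat]
  simp only [coeToPowerSeries.ringHom_apply, Polynomial.coe_X]

theorem coe_L7p (Q : R[X]) : ((L7p Q : R[X]) : PowerSeries R) = L7 (Q : PowerSeries R) := by
  have e : coeToPowerSeries.ringHom (tp (tp Q)) = th (th (Q : PowerSeries R)) := by
    rw [coeToPowerSeries.ringHom_apply, coe_tp, coe_tp]
  have e1 : coeToPowerSeries.ringHom (tp Q) = th (Q : PowerSeries R) := by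
    rw [coeToPowerSeries.ringHom_apply, coe_tp]
  have e2 : coeToPowerSeries.ringHom (Dp : R[X]) = Dl := by
    rw [coeToPowerSeries.ringHom_apply, coe_Dp]
  rw [L7p, L7]
  simp only [← coeToPowerSeries.ringHom_apply, map_sub, map_mul, map_ofNat, map_add, e, e1, e2]
  simp only [coeToPowerSeries.ringHom_apply, Polynomial.coe_X]

/-- the operator acting on corrections -/
noncomputable def Qop (h Q : R[X]) : R[X] :=
  Dp * (h ^ 2 * tp (tp Q) - 2 * h * tp h * tp Q + (2 * (tp h) ^ 2 - h * tp (tp h)) * Q)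
    - (13 * X + 27 * (X * X)) * (h ^ 2 * tp Q - h * tp h * Q) - (2 * X + 6 * (X * X)) * h ^ 2 * Q

end poly

section alg

variable {K : Type*} [Field K]

theorem natDegree_tp_le {Q : K[X]} {n : ℕ} (h : Q.natDegree ≤ n) : (tp Q).natDegree ≤ n := by
  rw [natDegree_le_iff_coeff_eq_zero] at h ⊢
  intro m hm
  rw [tp]
  cases m with
  | zero => simp
  | succ m =>
    rw [coeff_X_mul, coeff_derivative, h (m + 1) hm, zero_mul]

theorem natDegree_Dp_le : (Dp : K[X]).natDegree ≤ 2 := by
  rw [Dp]; compute_degree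

theorem alg_key [IsAlgClosed K] {p : ℕ} [hp : Fact p.Prime] [CharP K p] (hp11 : 11 ≤ p)
    {h Y V l : K[X]} (h0 : h.coeff 0 = 1)
    (hroot : ∀ α : K, h.IsRoot α → (Dp : K[X]).eval α ≠ 0 ∧ (tp h).eval α ≠ 0)
    (hd : 2 * h.natDegree < p) (hd2 : 2 ≤ h.natDegree) (hV : V.natDegree < p)
    (hN : (2 * h ^ 3 * l + Qop h Y) * h ^ p
      + (2 * h ^ 3 * (2 * Dp * tp h - (13 * X + 27 * (X * X)) * h) + 2 * Qop h V) * (tp h) ^ p = 0) :
    h ∣ Y ∧ h ∣ V := by
  have hh0 : h ≠ 0 := by rintro rfl; simp at h0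
  have h2K : (2 : K) ≠ 0 := by
    have := CharP.cast_eq_zero_iff K p 2
    intro h2
    have h3 : ((2 : ℕ) : K) = 0 := by exact_mod_cast h2
    rw [this] at h3
    exact absurd (Nat.le_of_dvd (by norm_num) h3) (by omega)
  have c1 : IsCoprime h (Dp : K[X]) := by
    rw [isCoprime_iff_aeval_ne_zero_of_isAlgClosed K K]
    intro a
    by_cases ha : h.IsRoot a
    · right
      rw [coe_aeval_eq_eval]
      exact (hroot a ha).1
    · left
      rw [coe_aeval_eq_eval]
      exact ha
  have c2 : IsCoprime h (tp h) := by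
    rw [isCoprime_iff_aeval_ne_zero_of_isAlgClosed K K]
    intro a
    by_cases ha : h.IsRoot a
    · right
      rw [coe_aeval_eq_eval]
      exact (hroot a ha).2
    · left
      rw [coe_aeval_eq_eval]
      exact ha
  set N2 := 2 * h ^ 3 * (2 * Dp * tp h - (13 * X + 27 * (X * X)) * h) + 2 * Qop h V with hN2
  have hdvd : h ^ p ∣ N2 := by
    have c3 : IsCoprime (h ^ p) ((tp h) ^ p) := c2.pow
    apply c3.dvd_of_dvd_mul_right
    refine ⟨-(2 * h ^ 3 * l + Qop h Y), ?_⟩
    linear_combination hN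
  have hdeg : N2.natDegree ≤ 2 * h.natDegree + p + 1 := by
    set d := h.natDegree with hdd
    have b0 : h.natDegree ≤ d := le_rfl
    have b1 := natDegree_tp_le b0
    have b2 := natDegree_tp_le b1
    have bV : V.natDegree ≤ p - 1 := by omega
    have bV1 := natDegree_tp_le bV
    have bV2 := natDegree_tp_le bV1
    have bD := natDegree_Dp_le (K := K)
    have bq1 : (13 * X + 27 * (X * X) : K[X]).natDegree ≤ 2 := by compute_degree
    have bq2 : (2 * X + 6 * (X * X) : K[X]).natDegree ≤ 2 := by compute_degree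
    have b22 : (2 : K[X]).natDegree ≤ 0 := by compute_degree
    have bh2 : (h ^ 2).natDegree ≤ 2 * d := natDegree_pow_le_of_le 2 b0
    have bh3 : (h ^ 3).natDegree ≤ 3 * d := natDegree_pow_le_of_le 3 b0
    have t1 : (2 * h ^ 3 * (2 * Dp * tp h - (13 * X + 27 * (X * X)) * h)).natDegree
        ≤ (0 + 3 * d) + (max (0 + 2 + d) (2 + d)) := by
      refine natDegree_mul_le_of_le (natDegree_mul_le_of_le b22 bh3) ?_
      exact natDegree_sub_le_of_le (natDegree_mul_le_of_le (natDegree_mul_le_of_le b22 bD) b1)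
        (natDegree_mul_le_of_le bq1 b0)
    have s1 : (h ^ 2 * tp (tp V)).natDegree ≤ 2 * d + (p - 1) := natDegree_mul_le_of_le bh2 bV2
    have s2 : (2 * h * tp h * tp V).natDegree ≤ 0 + d + d + (p - 1) :=
      natDegree_mul_le_of_le (natDegree_mul_le_of_le (natDegree_mul_le_of_le b22 b0) b1) bV1
    have s3 : ((2 * (tp h) ^ 2 - h * tp (tp h)) * V).natDegree
        ≤ max (0 + 2 * d) (d + d) + (p - 1) :=
      natDegree_mul_le_of_le (natDegree_sub_le_of_le
        (natDegree_mul_le_of_le b22 (natDegree_pow_le_of_le 2 b1)) (natDegree_mul_le_of_le b0 b2)) bV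
    have s4 : (h ^ 2 * tp V - h * tp h * V).natDegree
        ≤ max (2 * d + (p - 1)) (d + d + (p - 1)) :=
      natDegree_sub_le_of_le (natDegree_mul_le_of_le bh2 bV1)
        (natDegree_mul_le_of_le (natDegree_mul_le_of_le b0 b1) bV)
    have t2 : (Qop h V).natDegree ≤ 2 * d + p + 1 := by
      rw [Qop]
      have u1 := natDegree_mul_le_of_le bD
        (natDegree_add_le_of_le (natDegree_sub_le_of_le s1 s2) s3)
      have u2 := natDegree_mul_le_of_le bq1 s4
      have u3 := natDegree_mul_le_of_le (natDegree_mul_le_of_le bq2 bh2) bV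
      refine (natDegree_sub_le_of_le (natDegree_sub_le_of_le u1 u2) u3).trans ?_
      omega
    refine (natDegree_add_le_of_le t1 (natDegree_mul_le_of_le b22 t2)).trans ?_
    omega
  have hN20 : N2 = 0 := by
    by_contra hne
    have h3 := natDegree_le_of_dvd hdvd hne
    rw [natDegree_pow] at h3
    have h4 : p * h.natDegree ≤ 2 * h.natDegree + p + 1 := h3.trans hdeg
    have h5 : 11 * h.natDegree ≤ p * h.natDegree := Nat.mul_le_mul_right _ hp11
    nlinarith
  have hN10 : 2 * h ^ 3 * l + Qop h Y = 0 := by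
    rw [hN20, zero_mul, add_zero] at hN
    exact (mul_eq_zero.1 hN).resolve_right (pow_ne_zero _ hh0)
  have c4 : IsCoprime h (2 * Dp * (tp h) ^ 2) := by
    refine IsCoprime.mul_right (IsCoprime.mul_right ?_ c1) c2.pow_right
    have : (2 : K[X]) = C 2 := rfl
    rw [this]
    exact ⟨0, C 2⁻¹, by rw [zero_mul, zero_add, ← C_mul, inv_mul_cancel₀ h2K, C_1]⟩
  constructor
  · apply c4.dvd_of_dvd_mul_left
    refine ⟨-(2 * h ^ 2 * l + (Dp * (h * tp (tp Y) - 2 * tp h * tp Y - tp (tp h) * Y)
      - (13 * X + 27 * (X * X)) * (h * tp Y - tp h * Y) - (2 * X + 6 * (X * X)) * h * Y)), ?_⟩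
    unfold Qop at hN10
    linear_combination hN10
  · apply c4.dvd_of_dvd_mul_left
    refine ⟨-(h ^ 2 * (2 * Dp * tp h - (13 * X + 27 * (X * X)) * h)
      + (Dp * (h * tp (tp V) - 2 * tp h * tp V - tp (tp h) * V)
      - (13 * X + 27 * (X * X)) * (h * tp V - tp h * V) - (2 * X + 6 * (X * X)) * h * V)), ?_⟩
    have h22 : (2 : K[X]) ≠ 0 := by
      have : (2 : K[X]) = C 2 := rfl
      rw [this, Ne, C_eq_zero]; exact h2K
    apply mul_left_cancel₀ h22
    rw [hN2] at hN20
    unfold Qop at hN20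
    linear_combination hN20

end alg

end Pool.Agent.W32
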