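import Pool.Agent.W32.T11

set_option autoImplicit false

namespace Pool.Agent.W32

open PowerSeries

section general

variable {K : Type*} [Field K] {p : ℕ} [hp : Fact p.Prime] [CharP K p]

theorem dvd_of_map {f : ℤ⟦X⟧} (h : PowerSeries.map (Int.castRingHom K) f = 0) :
    ∃ g : ℤ⟦X⟧, f = (p : ℤ⟦X⟧) * g := by
  obtain ⟨g, hg⟩ := dvd_of_coeff (p := (p : ℤ)) (f := f) (by
    intro n
    have h2 := congrArg (coeff n) h
    rw [coeff_map, map_zero] at h2
    exact (CharP.intCast_eq_zero_iff K p _).1 h2)
  refine ⟨g, ?_⟩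
  rw [hg]; simp

theorem pdvd_of_map {f : Polynomial ℤ} (h : f.map (Int.castRingHom K) = 0) :
    ∃ g : Polynomial ℤ, f = Polynomial.C (p : ℤ) * g ∧ ∀ n, f.coeff n = 0 → g.coeff n = 0 := by
  have h1 : Polynomial.C (p : ℤ) ∣ f := by
    rw [Polynomial.C_dvd_iff_dvd_coeff]
    intro n
    have h2 := congrArg (fun q : Polynomial K => q.coeff n) h
    simp only [Polynomial.coeff_map, Polynomial.coeff_zero] at h2
    exact (CharP.intCast_eq_zero_iff K p _).1 h2
  obtain ⟨g, hg⟩ := h1
  refine ⟨g, hg, fun n hn => ?_⟩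
  rw [hg, Polynomial.coeff_C_mul] at hn
  have : (p : ℤ) ≠ 0 := by exact_mod_cast hp.out.ne_zero
  exact (mul_eq_zero.1 hn).resolve_left this

/-- the first order equation for the correction -/
theorem eqOne {A U H Y δ V W : ℤ⟦X⟧} (hA : A * A = Z7) (hU : A * U = 1)
    (hδ : A = H * expand p hp.out.ne_zero A + (p : ℤ⟦X⟧) * δ)
    (hY : PT p = H * H + (p : ℤ⟦X⟧) * Y)
    (hZ : Z7 = PT p * expand p hp.out.ne_zero Z7
      + (p : ℤ⟦X⟧) * (V * expand p hp.out.ne_zero (th Z7)) + (p : ℤ⟦X⟧) ^ 2 * W) :
    2 * PowerSeries.map (Int.castRingHom K) H * PowerSeries.map (Int.castRingHom K) δ =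
      PowerSeries.map (Int.castRingHom K) Y *
        expand p hp.out.ne_zero (PowerSeries.map (Int.castRingHom K) A)
      + 2 * PowerSeries.map (Int.castRingHom K) V *
        expand p hp.out.ne_zero (th (PowerSeries.map (Int.castRingHom K) A)) := by
  have hpZ : (p : ℤ⟦X⟧) ≠ 0 := by
    have : (p : ℤ) ≠ 0 := by exact_mod_cast hp.out.ne_zero
    intro h
    apply this
    have h2 := congrArg constantCoeff h
    simpa using h2
  have hpK : (p : K⟦X⟧) = 0 := by
    rw [← map_natCast (C (R := K)), CharP.cast_eq_zero, map_zero]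
  have eZ : expand p hp.out.ne_zero Z7 = expand p hp.out.ne_zero A * expand p hp.out.ne_zero A := by
    rw [← hA, map_mul]
  have eT : expand p hp.out.ne_zero (th Z7) =
      2 * (expand p hp.out.ne_zero A * expand p hp.out.ne_zero (th A)) := by
    rw [← hA, th_mul, map_add, map_mul]; ring
  have hAA : A * A = PT p * expand p hp.out.ne_zero Z7
      + (p : ℤ⟦X⟧) * (V * expand p hp.out.ne_zero (th Z7)) + (p : ℤ⟦X⟧) ^ 2 * W := by
    rw [hA]; exact hZ
  rw [eZ, eT, hY] at hAA
  set e := expand p hp.out.ne_zero A with he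
  set f := expand p hp.out.ne_zero (th A) with hf
  have h3 : 2 * H * e * δ + (p : ℤ⟦X⟧) * (δ * δ) = Y * (e * e) + 2 * V * (e * f)
      + (p : ℤ⟦X⟧) * W := by
    apply mul_left_cancel₀ hpZ
    have hsq : (H * e + (p : ℤ⟦X⟧) * δ) * (H * e + (p : ℤ⟦X⟧) * δ) =
      (H * H + (p : ℤ⟦X⟧) * Y) * (e * e) + (p : ℤ⟦X⟧) * (V * (2 * (e * f))) +
        (p : ℤ⟦X⟧) ^ 2 * W := by
      rw [← hδ]; exact hAA
    linear_combination hsq
  have h4 := congrArg (PowerSeries.map (Int.castRingHom K)) h3
  simp only [map_add, map_mul, map_natCast, map_ofNat, hpK, zero_mul, add_zero] at h4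
  have he' : PowerSeries.map (Int.castRingHom K) e =
      expand p hp.out.ne_zero (PowerSeries.map (Int.castRingHom K) A) := by
    rw [he, PowerSeries.map_expand]
  have hf' : PowerSeries.map (Int.castRingHom K) f =
      expand p hp.out.ne_zero (th (PowerSeries.map (Int.castRingHom K) A)) := by
    rw [hf, PowerSeries.map_expand, th_map]
  rw [← he', ← hf']
  have he0 : PowerSeries.map (Int.castRingHom K) e ≠ 0 := by
    have h5 : e * expand p hp.out.ne_zero U = 1 := by rw [he, ← map_mul, hU, map_one]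
    have h6 := congrArg (PowerSeries.map (Int.castRingHom K)) h5
    rw [map_mul, map_one] at h6
    intro h7
    rw [h7, zero_mul] at h6
    exact zero_ne_one h6
  apply mul_left_cancel₀ he0
  linear_combination h4

/-- the second order equation for the correction -/
theorem eqTwo {A H δ l : ℤ⟦X⟧} (hL : L7 A = 0)
    (hδ : A = H * expand p hp.out.ne_zero A + (p : ℤ⟦X⟧) * δ)
    (hl : L7 H = (p : ℤ⟦X⟧) * l) :
    PowerSeries.map (Int.castRingHom K) l *
        expand p hp.out.ne_zero (PowerSeries.map (Int.castRingHom K) A)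
      + (2 * Dl * th (PowerSeries.map (Int.castRingHom K) H)
        - (13 * X + 27 * (X * X)) * PowerSeries.map (Int.castRingHom K) H) *
        expand p hp.out.ne_zero (th (PowerSeries.map (Int.castRingHom K) A))
      + L7 (PowerSeries.map (Int.castRingHom K) δ) = 0 := by
  have hpZ : (p : ℤ⟦X⟧) ≠ 0 := by
    have : (p : ℤ) ≠ 0 := by exact_mod_cast hp.out.ne_zero
    intro h
    apply this
    have h2 := congrArg constantCoeff h
    simpa using h2
  have hpK : (p : K⟦X⟧) = 0 := by
    rw [← map_natCast (C (R := K)), CharP.cast_eq_zero, map_zero]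
  have he1 := th_expand hp.out.ne_zero A
  have he2 := th_expand hp.out.ne_zero (th A)
  have he' : PowerSeries.map (Int.castRingHom K) (expand p hp.out.ne_zero A) =
      expand p hp.out.ne_zero (PowerSeries.map (Int.castRingHom K) A) := by
    rw [PowerSeries.map_expand]
  have hf' : PowerSeries.map (Int.castRingHom K) (expand p hp.out.ne_zero (th A)) =
      expand p hp.out.ne_zero (th (PowerSeries.map (Int.castRingHom K) A)) := by
    rw [PowerSeries.map_expand, th_map]
  rw [← he', ← hf']
  set e := expand p hp.out.ne_zero A with he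
  set f := expand p hp.out.ne_zero (th A) with hf
  set f2 := expand p hp.out.ne_zero (th (th A)) with hf2
  rw [hδ] at hL
  have h3 : l * e + (2 * Dl * th H - (13 * X + 27 * (X * X)) * H) * f + L7 δ
      + (p : ℤ⟦X⟧) * (Dl * H * f2) = 0 := by
    apply mul_left_cancel₀ hpZ
    unfold L7 at hL hl ⊢
    simp only [th_add, th_mul, he1, he2, th_natCast, mul_zero, add_zero] at hL
    linear_combination hL + e * (- hl)
  have h4 := congrArg (PowerSeries.map (Int.castRingHom K)) h3
  rw [L7_map, th_map]
  have eX : PowerSeries.map (Int.castRingHom K) X = X := PowerSeries.map_X _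
  have eD : PowerSeries.map (Int.castRingHom K) Dl = Dl := by
    unfold Dl
    simp only [map_sub, map_mul, map_one, map_ofNat, eX]
  simp only [map_add, map_sub, map_mul, map_natCast, map_ofNat, hpK, zero_mul, add_zero, map_zero,
    eX, eD] at h4
  linear_combination h4

end general

end Pool.Agent.W32
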