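import Pool.Agent.W32.T1

set_option autoImplicit false

namespace Pool.Agent.W32

open PowerSeries

section th

variable {R : Type*} [CommRing R]

/-- the derivation `X d/dX` -/
noncomputable def th (f : R⟦X⟧) : R⟦X⟧ := X * derivative R f

theorem coeff_th (f : R⟦X⟧) (n : ℕ) : coeff n (th f) = n * coeff n f := by
  unfold th
  rcases n with _ | n
  · simp
  · rw [coeff_succ_X_mul, coeff_derivative]; push_cast; ring

theorem th_add (f g : R⟦X⟧) : th (f + g) = th f + th g := by
  unfold th; rw [map_add]; ring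

theorem th_sub (f g : R⟦X⟧) : th (f - g) = th f - th g := by
  unfold th; rw [map_sub]; ring

theorem th_mul (f g : R⟦X⟧) : th (f * g) = f * th g + g * th f := by
  unfold th; rw [Derivation.leibniz]; simp only [smul_eq_mul]; ring

theorem th_X : th (X : R⟦X⟧) = X := by
  unfold th; rw [derivative_X, mul_one]

theorem th_pow (f : R⟦X⟧) (n : ℕ) : th (f ^ n) = n * f ^ (n - 1) * th f := by
  unfold th; rw [derivative_pow]; ring

theorem th_C (r : R) : th (C r : R⟦X⟧) = 0 := by
  unfold th; rw [derivative_C, mul_zero]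

theorem th_one : th (1 : R⟦X⟧) = 0 := by
  unfold th; rw [derivative_one, mul_zero]

theorem th_natCast (k : ℕ) : th ((k : R⟦X⟧)) = 0 := by
  unfold th
  rw [Derivation.map_natCast, mul_zero]

theorem th_ofNat (k : ℕ) [k.AtLeastTwo] : th ((ofNat(k) : R⟦X⟧)) = 0 := by
  rw [← Nat.cast_ofNat]; exact th_natCast _

theorem th_neg (f : R⟦X⟧) : th (-f) = - th f := by
  unfold th; rw [map_neg]; ring

theorem coeff_ofNat_mul' (k : ℕ) [k.AtLeastTwo] (f : R⟦X⟧) (n : ℕ) :
    coeff n ((ofNat(k) : R⟦X⟧) * f) = (ofNat(k) : R) * coeff n f := by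
  rw [← Nat.cast_ofNat (R := R⟦X⟧), ← nsmul_eq_mul, map_nsmul, nsmul_eq_mul, Nat.cast_ofNat]

theorem th_map {S : Type*} [CommRing S] (φ : R →+* S) (f : R⟦X⟧) :
    th (PowerSeries.map φ f) = PowerSeries.map φ (th f) := by
  ext n
  rw [coeff_th, coeff_map, coeff_map, coeff_th]; simp

/-- the leading coefficient `(1 + X) (1 - 27 X)` -/
noncomputable def Dl : R⟦X⟧ := 1 - 26 * X - 27 * (X * X)

/-- the second order operator -/
noncomputable def L7 (f : R⟦X⟧) : R⟦X⟧ :=
  Dl * th (th f) - (13 * X + 27 * (X * X)) * th f - (2 * X + 6 * (X * X)) * f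

/-- the third order operator -/
noncomputable def M7 (f : R⟦X⟧) : R⟦X⟧ :=
  Dl * th (th (th f)) - (39 * X + 81 * (X * X)) * th (th f) - (21 * X + 78 * (X * X)) * th f
    - (4 * X + 24 * (X * X)) * f

theorem L7_map {S : Type*} [CommRing S] (φ : R →+* S) (f : R⟦X⟧) :
    L7 (PowerSeries.map φ f) = PowerSeries.map φ (L7 f) := by
  unfold L7 Dl
  rw [th_map, th_map]
  simp only [map_sub, map_mul, map_add, PowerSeries.map_X, map_one, map_ofNat]

theorem th_Dl : th (Dl : R⟦X⟧) = - (26 * X + 54 * (X * X)) := by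
  unfold Dl
  simp only [th_sub, th_one, th_mul, th_ofNat, th_X]
  ring

theorem M7_sq (f : R⟦X⟧) : M7 (f * f) = 2 * f * th (L7 f) + 6 * th f * L7 f := by
  unfold M7 L7
  simp only [th_sub, th_add, th_mul, th_ofNat, th_X, th_Dl]
  unfold Dl
  ring

end th

/-- the generating function of the level 7 sequence -/
noncomputable def Z7 : ℤ⟦X⟧ := PowerSeries.mk fun n => (T7 n : ℤ)

theorem M7_Z7 : M7 Z7 = 0 := by
  unfold M7 Dl
  ext n
  simp only [sub_mul, add_mul, mul_assoc, one_mul, map_sub, map_add, map_zero, coeff_ofNat_mul']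
  rcases n with _ | _ | n
  · simp [coeff_th, coeff_zero_X_mul]
  · simp [coeff_th, coeff_zero_X_mul, coeff_succ_X_mul, Z7, T7_one, T7_zero]
  · simp only [coeff_succ_X_mul, coeff_th, Z7, coeff_mk]
    have := T7_rec n
    push_cast
    linear_combination this

/-- If `A ^ 2 = Z7` and `A` has constant term `1` then `A` satisfies the second order equation. -/
theorem L7_of_sq {A : ℤ⟦X⟧} (h0 : constantCoeff A = 1) (hA : A * A = Z7) : L7 A = 0 := by
  have h1 := M7_sq A
  rw [hA, M7_Z7] at h1
  have hA0 : A ≠ 0 := by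
    rintro rfl; simp at h0
  have h2 : A * th (L7 A) + 3 * th A * L7 A = 0 := by
    have : (2 : ℤ⟦X⟧) * (A * th (L7 A) + 3 * th A * L7 A) = 0 := by rw [h1]; ring
    exact (mul_eq_zero.1 this).resolve_left (by
      intro h
      have := congrArg constantCoeff h
      rw [map_ofNat, map_zero] at this
      norm_num at this)
  have h3 : th (A * A * A * L7 A) = 0 := by
    simp only [th_mul]
    linear_combination (A * A) * h2
  have h4 : A * A * A * L7 A = 0 := by
    ext n
    have h5 := congrArg (coeff n) h3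
    rw [coeff_th, map_zero] at h5
    rcases n with _ | n
    · rw [coeff_zero_eq_constantCoeff, map_mul]
      have : constantCoeff (L7 A) = 0 := by
        unfold L7
        rw [← coeff_zero_eq_constantCoeff_apply]
        simp only [sub_mul, add_mul, mul_assoc, map_sub, map_add, coeff_ofNat_mul', coeff_zero_X_mul]
        rw [coeff_zero_eq_constantCoeff_apply, map_mul]
        have : constantCoeff (th (th A)) = 0 := by
          rw [← coeff_zero_eq_constantCoeff_apply, coeff_th]; simp
        rw [this]; simp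
      rw [this]; simp
    · rcases mul_eq_zero.1 h5 with h | h
      · exfalso; push_cast at h; omega
      · rw [h, map_zero]
  exact (mul_eq_zero.1 h4).resolve_left (mul_ne_zero (mul_ne_zero hA0 hA0) hA0)

end Pool.Agent.W32
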