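import Pool.Agent.W32.T2

set_option autoImplicit false

namespace Pool.Agent.W32

open Finset

theorem F7_alt {n j : ℕ} (h : j ≤ n) (h2 : n ≤ 2 * j) :
    F7 n j = (2 * j).choose j ^ 2 * ((n + j).choose (2 * j) * j.choose (n - j)) := by
  unfold F7
  have e1 : (2 * j).choose n * n.choose j = (2 * j).choose j * j.choose (n - j) := by
    rw [Nat.choose_mul (by omega : j ≤ n)]
    congr 2
    omega
  have e2 : (n + j).choose (2 * j) * (2 * j).choose j = (n + j).choose j * n.choose j := by
    rw [Nat.choose_mul (by omega : j ≤ 2 * j)]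
    congr 2 <;> omega
  calc n.choose j ^ 2 * (2 * j).choose n * (n + j).choose j
      = ((2 * j).choose n * n.choose j) * ((n + j).choose j * n.choose j) := by ring
    _ = ((2 * j).choose j * j.choose (n - j)) * ((n + j).choose (2 * j) * (2 * j).choose j) := by
        rw [e1, e2]
    _ = _ := by ring

theorem F7_alt' (n j : ℕ) (h : j ≤ n) :
    F7 n j = (2 * j).choose j ^ 2 * ((n + j).choose (2 * j) * j.choose (n - j)) := by
  by_cases h2 : n ≤ 2 * j
  · exact F7_alt h h2
  · rw [F7_zero_of_lt' (by omega), Nat.choose_eq_zero_of_lt (by omega : j < n - j)]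
    simp

theorem four_dvd_F7 {n j : ℕ} (hn : 1 ≤ n) (h : j ≤ n) : 4 ∣ F7 n j := by
  rcases Nat.eq_zero_or_pos j with rfl | hj
  · rw [F7_zero_of_lt' (by omega)]; simp
  · rw [F7_alt' n j h]
    have h1 : 2 ∣ (2 * j).choose j := by
      have := Nat.two_dvd_centralBinom_of_one_le hj
      rwa [Nat.centralBinom_eq_two_mul_choose] at this
    have h2 : 2 ^ 2 ∣ (2 * j).choose j ^ 2 := pow_dvd_pow_of_dvd h1 2
    exact Dvd.dvd.mul_right (by simpa using h2) _

theorem four_dvd_T7 {n : ℕ} (hn : 1 ≤ n) : 4 ∣ T7 n := by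
  rw [T7_eq]
  apply Finset.dvd_sum
  intro j hj
  exact four_dvd_F7 hn (by rw [mem_range] at hj; omega)

/-- convolution sum with the two end terms split off -/
theorem conv_split {R : Type*} [CommRing R] (t : ℕ → R) (n : ℕ) :
    ∑ j ∈ range (n + 2), t j * t (n + 1 - j) =
      2 * t 0 * t (n + 1) + ∑ j ∈ range n, t (j + 1) * t (n - j) := by
  rw [sum_range_succ, sum_range_succ', Nat.sub_self]
  have : ∑ k ∈ range n, t (k + 1) * t (n + 1 - (k + 1)) = ∑ j ∈ range n, t (j + 1) * t (n - j) := by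
    apply sum_congr rfl
    intro k _
    congr 2
    omega
  rw [this, Nat.sub_zero]
  ring

/-- the square root sequence consists of integers, even ones for `n ≥ 1` -/
theorem exists_int (t : ℕ → ℚ) (h0 : t 0 = 1)
    (h : ∀ n : ℕ, ∑ j ∈ range (n + 1), t j * t (n - j) = (T7 n : ℚ)) :
    ∃ τ : ℕ → ℤ, τ 0 = 1 ∧ (∀ n, t n = τ n) ∧ (∀ n, 1 ≤ n → 2 ∣ τ n) ∧
      ∀ n : ℕ, ∑ j ∈ range (n + 1), τ j * τ (n - j) = (T7 n : ℤ) := by
  have key : ∀ n : ℕ, ∃ b : ℤ, t (n + 1) = 2 * b := by
    intro n
    induction n using Nat.strong_induction_on with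
    | _ n ih =>
      choose! b hb using ih
      obtain ⟨c, hc⟩ := four_dvd_T7 (by omega : 1 ≤ n + 1)
      have h1 := h (n + 1)
      rw [conv_split, h0, hc] at h1
      have h2 : ∑ j ∈ range n, t (j + 1) * t (n - j) =
          4 * ((∑ j ∈ range n, b j * b (n - 1 - j) : ℤ) : ℚ) := by
        rw [Int.cast_sum, mul_sum]
        apply sum_congr rfl
        intro j hj
        rw [mem_range] at hj
        have e : n - j = (n - 1 - j) + 1 := by omega
        rw [e, hb j hj, hb (n - 1 - j) (by omega)]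
        push_cast; ring
      rw [h2] at h1
      refine ⟨(c : ℤ) - ∑ j ∈ range n, b j * b (n - 1 - j), ?_⟩
      push_cast at h1 ⊢
      linarith
  choose b hb using key
  refine ⟨fun n => if n = 0 then 1 else 2 * b (n - 1), by simp, ?_, ?_, ?_⟩
  · intro n
    rcases n with _ | n
    · simp [h0]
    · simp [hb]
  · intro n hn
    simp only [if_neg (by omega : ¬ n = 0)]
    exact dvd_mul_right _ _
  · intro n
    have h1 := h n
    have h2 : ∀ n, t n = (((fun n => if n = 0 then (1 : ℤ) else 2 * b (n - 1)) n : ℤ) : ℚ) := by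
      intro n
      rcases n with _ | n
      · simp [h0]
      · simp [hb]
    simp_rw [h2] at h1
    exact_mod_cast h1

open PowerSeries in
/-- the generating function of an integer sequence whose square is `Z7` -/
theorem gen_sq {τ : ℕ → ℤ}
    (h : ∀ n : ℕ, ∑ j ∈ range (n + 1), τ j * τ (n - j) = (T7 n : ℤ)) :
    (PowerSeries.mk τ) * (PowerSeries.mk τ) = Z7 := by
  ext n
  rw [coeff_mul, Finset.Nat.sum_antidiagonal_eq_sum_range_succ_mk, Z7, coeff_mk, ← h n]
  simp

end Pool.Agent.W32
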