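import Pool.Agent.W32.T3

set_option autoImplicit false

namespace Pool.Agent.W32

open PowerSeries

theorem th_zero {R : Type*} [CommRing R] : th (0 : R⟦X⟧) = 0 := by
  unfold th; rw [map_zero, mul_zero]

/-- a power series over `ℤ` with `X f' = 0` and constant term `0` is zero -/
theorem eq_zero_of_th {f : ℤ⟦X⟧} (h : th f = 0) (h0 : constantCoeff f = 0) : f = 0 := by
  ext n
  have h5 := congrArg (coeff n) h
  rw [coeff_th, map_zero] at h5
  rcases n with _ | n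
  · simpa using h0
  · rcases mul_eq_zero.1 h5 with h | h
    · exfalso; push_cast at h; omega
    · rw [h, map_zero]

section subst

variable {R : Type*} [CommRing R]

theorem th_subst {f g : R⟦X⟧} (hg : HasSubst g) :
    g * th (f.subst g) = (th f).subst g * th g := by
  unfold th
  rw [derivative_subst hg, subst_mul hg, subst_X hg]
  ring

theorem subst_L7 {f g : R⟦X⟧} (hg : HasSubst g) :
    (L7 f).subst g = (1 - 26 * g - 27 * (g * g)) * (th (th f)).subst g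
      - (13 * g + 27 * (g * g)) * (th f).subst g - (2 * g + 6 * (g * g)) * f.subst g := by
  rw [← coe_substAlgHom hg]
  unfold L7 Dl
  simp only [map_sub, map_mul, map_add, map_one, map_ofNat, substAlgHom_X hg]

end subst

/-- `x = v (1 - 4 v)^2` -/
noncomputable def xs {R : Type*} [CommRing R] : R⟦X⟧ := X * ((1 - 4 * X) * (1 - 4 * X))

/-- the inverse of `1 - 2 v` -/
noncomputable def mi {R : Type*} [CommRing R] : R⟦X⟧ := PowerSeries.mk fun n => (2 : R) ^ n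

theorem m_mul_mi {R : Type*} [CommRing R] : (1 - 2 * X : R⟦X⟧) * mi = 1 := by
  ext n
  rw [sub_mul, one_mul, mul_assoc, map_sub, coeff_ofNat_mul']
  rcases n with _ | n
  · simp [mi]
  · rw [coeff_succ_X_mul, mi, coeff_mk, coeff_mk, coeff_one, if_neg (by omega)]
    ring

/-- `y = v^2 (1 - 4 v) / (1 - 2 v)^3` -/
noncomputable def ys {R : Type*} [CommRing R] : R⟦X⟧ := X * X * (1 - 4 * X) * (mi * mi * mi)

theorem ys_mul {R : Type*} [CommRing R] :
    (ys : R⟦X⟧) * ((1 - 2 * X) * (1 - 2 * X) * (1 - 2 * X)) = X * X * (1 - 4 * X) := by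
  have h := m_mul_mi (R := R)
  unfold ys
  linear_combination X * X * (1 - 4 * X) *
    (((1 - 2 * X) * mi) ^ 2 + (1 - 2 * X) * mi + 1) * h

theorem hasSubst_xs {R : Type*} [CommRing R] : HasSubst (xs : R⟦X⟧) :=
  HasSubst.of_constantCoeff_zero' (by simp [xs])

theorem hasSubst_ys {R : Type*} [CommRing R] : HasSubst (ys : R⟦X⟧) :=
  HasSubst.of_constantCoeff_zero' (by simp [ys])

theorem one_sub_ne (a : ℕ) : (1 - (a : ℤ⟦X⟧) * X) ≠ 0 := by
  intro h
  have := congrArg constantCoeff h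
  simp at this

theorem th_m {R : Type*} [CommRing R] (a : ℕ) : th (1 - (a : R⟦X⟧) * X) = - (a : R⟦X⟧) * X := by
  rw [th_sub, th_one, th_mul, th_X, th_natCast]; ring

theorem xs_ne : (xs : ℤ⟦X⟧) ≠ 0 := by
  have h4 : (1 - 4 * X : ℤ⟦X⟧) ≠ 0 := one_sub_ne 4
  exact mul_ne_zero X_ne_zero (mul_ne_zero h4 h4)

theorem ys_ne : (ys : ℤ⟦X⟧) ≠ 0 := by
  intro h
  have h1 := ys_mul (R := ℤ)
  rw [h, zero_mul] at h1
  exact mul_ne_zero (mul_ne_zero X_ne_zero X_ne_zero) (one_sub_ne 4) h1.symm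

theorem th_xs : (1 - 4 * X : ℤ⟦X⟧) * th xs = (1 - 12 * X) * xs := by
  unfold xs
  simp only [th_mul, th_sub, th_one, th_X, th_ofNat]
  ring

theorem th_ys : (1 - 4 * X : ℤ⟦X⟧) * (1 - 2 * X) * th ys = 2 * (1 - 5 * X) * ys := by
  have h := congrArg th (ys_mul (R := ℤ))
  simp only [th_mul, th_sub, th_one, th_X, th_ofNat] at h
  have h1 := ys_mul (R := ℤ)
  have h2 : (1 - 2 * X : ℤ⟦X⟧) ≠ 0 := one_sub_ne 2
  apply mul_left_cancel₀ (mul_ne_zero (mul_ne_zero h2 h2) h2)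
  linear_combination (1 - 4 * X) * (1 - 2 * X) * h + (6 * X * (1 - 4 * X) - 2 * (1 - 5 * X)) * h1

theorem th_comp_x (f : ℤ⟦X⟧) :
    (1 - 4 * X : ℤ⟦X⟧) * th (f.subst xs) = (1 - 12 * X) * (th f).subst xs := by
  apply mul_left_cancel₀ xs_ne
  have h := th_subst (f := f) hasSubst_xs
  have h1 := th_xs
  linear_combination (1 - 4 * X) * h + ((th f).subst xs) * h1

theorem th_comp_y (f : ℤ⟦X⟧) :
    (1 - 4 * X : ℤ⟦X⟧) * (1 - 2 * X) * th (f.subst ys) = 2 * (1 - 5 * X) * (th f).subst ys := by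
  apply mul_left_cancel₀ ys_ne
  have h := th_subst (f := f) hasSubst_ys
  have h1 := th_ys
  linear_combination (1 - 4 * X) * (1 - 2 * X) * h + ((th f).subst ys) * h1

/-- `E = (1+4v)(1-3v)(1-3v+4v²)` -/
noncomputable def E1 : ℤ⟦X⟧ := 1 - 2 * X - 11 * X ^ 2 + 40 * X ^ 3 - 48 * X ^ 4

/-- minus half the logarithmic-type derivative of `E` -/
noncomputable def K1 : ℤ⟦X⟧ := X + 11 * X ^ 2 - 60 * X ^ 3 + 96 * X ^ 4

theorem th_E1 : th E1 = - (2 * K1) := by
  unfold E1 K1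
  simp only [th_sub, th_add, th_one, th_mul, th_pow, th_X, th_ofNat]
  push_cast
  ring

theorem ode_x {A : ℤ⟦X⟧} (hA : L7 A = 0) :
    E1 * (1 - 4 * X) * th (th (A.subst xs)) =
      (4 * X * E1 + K1 * (1 - 4 * X)) * th (A.subst xs) +
        (2 * X * (1 - 4 * X) + 6 * X ^ 2 * (1 - 4 * X) ^ 3) * A.subst xs := by
  have h0 := th_comp_x A
  have h1 := th_comp_x (th A)
  have h2 := subst_L7 (f := A) (hasSubst_xs (R := ℤ))
  rw [hA] at h2
  have hz : (0 : ℤ⟦X⟧).subst (xs : ℤ⟦X⟧) = (0 : ℤ⟦X⟧) := by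
    rw [← coe_substAlgHom hasSubst_xs]; exact map_zero _
  rw [hz] at h2
  have h3 := congrArg th h0
  simp only [th_mul, th_sub, th_one, th_X, th_ofNat] at h3
  have n1 : (1 - 12 * X : ℤ⟦X⟧) ≠ 0 := one_sub_ne 12
  have n2 : (1 - 4 * X : ℤ⟦X⟧) ≠ 0 := one_sub_ne 4
  apply mul_left_cancel₀ (mul_ne_zero n1 n2)
  set B0 := A.subst (xs : ℤ⟦X⟧)
  set B1 := (th A).subst (xs : ℤ⟦X⟧)
  set B2 := (th (th A)).subst (xs : ℤ⟦X⟧)
  have hx : (xs : ℤ⟦X⟧) = X * ((1 - 4 * X) * (1 - 4 * X)) := rfl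
  rw [hx] at h2
  unfold E1 K1
  linear_combination (1 - 12 * X) * ((1 - 2 * X - 11 * X ^ 2 + 40 * X ^ 3 - 48 * X ^ 4) *
      (1 - 4 * X) * h3 + (1 - 2 * X - 11 * X ^ 2 + 40 * X ^ 3 - 48 * X ^ 4) * (1 - 12 * X) * h1
      - h2) + (12 * X * (1 - 2 * X - 11 * X ^ 2 + 40 * X ^ 3 - 48 * X ^ 4) * (1 - 4 * X)
        - (13 * (X * ((1 - 4 * X) * (1 - 4 * X))) + 27 * (X * ((1 - 4 * X) * (1 - 4 * X))) ^ 2)) * h0

theorem ode_y {A : ℤ⟦X⟧} (hA : L7 A = 0) {C : ℤ⟦X⟧} (hC : A.subst ys = (1 - 2 * X) * C) :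
    E1 * (1 - 4 * X) * th (th C) =
      (4 * X * E1 + K1 * (1 - 4 * X)) * th C +
        (2 * X * (1 - 4 * X) + 6 * X ^ 2 * (1 - 4 * X) ^ 3) * C := by
  have h0 := th_comp_y A
  have h1 := th_comp_y (th A)
  have h2 := subst_L7 (f := A) (hasSubst_ys (R := ℤ))
  rw [hA] at h2
  have hz : (0 : ℤ⟦X⟧).subst (ys : ℤ⟦X⟧) = (0 : ℤ⟦X⟧) := by
    rw [← coe_substAlgHom hasSubst_ys]; exact map_zero _
  rw [hz] at h2
  have hy := ys_mul (R := ℤ)
  have n1 : (1 - 5 * X : ℤ⟦X⟧) ≠ 0 := one_sub_ne 5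
  have n2 : (1 - 4 * X : ℤ⟦X⟧) ≠ 0 := one_sub_ne 4
  have n3 : (1 - 2 * X : ℤ⟦X⟧) ≠ 0 := one_sub_ne 2
  have n4 : (2 : ℤ⟦X⟧) ≠ 0 := by
    intro h
    have := congrArg constantCoeff h
    rw [map_ofNat, map_zero] at this
    norm_num at this
  -- the equation for `F0 = A.subst ys`
  have hF : E1 * (1 - 2 * X) * th ((1 - 4 * X) * (1 - 2 * X) * th (A.subst (ys : ℤ⟦X⟧))) =
      (-5 * X + 21 * X ^ 2 - 16 * X ^ 3 - 24 * X ^ 4 + 96 * X ^ 5) *
        ((1 - 4 * X) * (1 - 2 * X)) * th (A.subst (ys : ℤ⟦X⟧))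
      + 4 * (2 * (1 - 2 * X) ^ 3 * X ^ 2 + 6 * X ^ 4 * (1 - 4 * X)) * A.subst (ys : ℤ⟦X⟧) := by
    have h3 := congrArg th h0
    set F0 := A.subst (ys : ℤ⟦X⟧)
    set F1 := (th A).subst (ys : ℤ⟦X⟧)
    set F2 := (th (th A)).subst (ys : ℤ⟦X⟧)
    rw [h3]
    simp only [th_mul, th_sub, th_one, th_X, th_ofNat]
    apply mul_left_cancel₀ n2
    set y := (ys : ℤ⟦X⟧)
    unfold E1
    linear_combination (1 - 2 * X - 11 * X ^ 2 + 40 * X ^ 3 - 48 * X ^ 4) * (2 * (1 - 5 * X)) * h1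
      - 4 * (1 - 2 * X) ^ 6 * h2
      + 4 * (F2 * (26 * (1 - 2 * X) ^ 3 + 27 * (y * (1 - 2 * X) ^ 3 + X ^ 2 * (1 - 4 * X)))
        + F1 * (13 * (1 - 2 * X) ^ 3 + 27 * (y * (1 - 2 * X) ^ 3 + X ^ 2 * (1 - 4 * X)))
        + F0 * (2 * (1 - 2 * X) ^ 3 + 6 * (y * (1 - 2 * X) ^ 3 + X ^ 2 * (1 - 4 * X)))) * hy
      - (1 - 4 * X) * (-5 * X + 21 * X ^ 2 - 16 * X ^ 3 - 24 * X ^ 4 + 96 * X ^ 5) * h0
  rw [hC] at hF
  simp only [th_mul, th_sub, th_add, th_one, th_X, th_ofNat, th_zero] at hF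
  apply mul_left_cancel₀ (mul_ne_zero (mul_ne_zero n3 n3) n3)
  unfold E1 K1 at *
  linear_combination hF

theorem constantCoeff_th {R : Type*} [CommRing R] (f : R⟦X⟧) : constantCoeff (th f) = 0 := by
  unfold th; simp

theorem constantCoeff_subst' {R : Type*} [CommRing R] {f g : R⟦X⟧}
    (hg : constantCoeff g = 0) : constantCoeff (f.subst g : R⟦X⟧) = constantCoeff f := by
  have hs : HasSubst g := HasSubst.of_constantCoeff_zero' hg
  have h1 : f = (f - C (constantCoeff f)) + C (constantCoeff f) := by ring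
  have h2 : constantCoeff (f - C (constantCoeff f)) = 0 := by simp
  have h3 := constantCoeff_subst_eq_zero hg (f - C (constantCoeff f)) h2
  rw [h1, subst_add hs, subst_C]
  have h4 : constantCoeff ((f - C (constantCoeff f)).subst g : R⟦X⟧) = 0 := h3
  rw [map_add, h4, zero_add]
  have h5 : constantCoeff (C (constantCoeff f) : R⟦X⟧) = constantCoeff f := constantCoeff_C _
  rw [← h1]
  exact h5

/-- the functional equation of the square root series under the 2-isogeny -/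
theorem func_eq {A : ℤ⟦X⟧} (h1 : constantCoeff A = 1) (hA : L7 A = 0) :
    A.subst (ys : ℤ⟦X⟧) = (1 - 2 * X) * A.subst (xs : ℤ⟦X⟧) := by
  set B : ℤ⟦X⟧ := A.subst (xs : ℤ⟦X⟧) with hB
  set Cc : ℤ⟦X⟧ := mi * A.subst (ys : ℤ⟦X⟧) with hCc
  have hC : A.subst (ys : ℤ⟦X⟧) = (1 - 2 * X) * Cc := by
    rw [hCc, ← mul_assoc, m_mul_mi, one_mul]
  have o1 := ode_x hA
  have o2 := ode_y hA hC
  rw [← hB] at o1
  have c1 : constantCoeff B = 1 := by
    rw [hB, constantCoeff_subst' (by simp [xs]), h1]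
  have c2 : constantCoeff Cc = 1 := by
    rw [hCc, map_mul, constantCoeff_subst' (by simp [ys]), h1]
    simp [mi]
  set w : ℤ⟦X⟧ := B * th Cc - Cc * th B with hw
  have hw1 : E1 * (1 - 4 * X) * th w = (4 * X * E1 + K1 * (1 - 4 * X)) * w := by
    rw [hw]
    simp only [th_sub, th_mul]
    linear_combination B * o2 - Cc * o1
  have hw2 : th (E1 * (1 - 4 * X) ^ 2 * w ^ 2) = 0 := by
    have e : E1 * (1 - 4 * X) ^ 2 * w ^ 2 = E1 * ((1 - 4 * X) * (1 - 4 * X)) * (w * w) := by ring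
    rw [e]
    simp only [th_mul, th_sub, th_one, th_X, th_ofNat, th_E1]
    linear_combination 2 * (1 - 4 * X) * w * hw1
  have hw3 : E1 * (1 - 4 * X) ^ 2 * w ^ 2 = 0 := by
    apply eq_zero_of_th hw2
    rw [map_mul, map_pow]
    have : constantCoeff w = 0 := by
      rw [hw, map_sub, map_mul, map_mul, constantCoeff_th, constantCoeff_th]; simp
    rw [this]; simp
  have hE : E1 ≠ 0 := by
    intro h
    have := congrArg constantCoeff h
    unfold E1 at this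
    simp at this
  have h4 : (1 - 4 * X : ℤ⟦X⟧) ≠ 0 := one_sub_ne 4
  have hw4 : w = 0 := by
    rcases mul_eq_zero.1 hw3 with h | h
    · exact absurd h (mul_ne_zero hE (pow_ne_zero 2 h4))
    · exact pow_eq_zero_iff (by norm_num) |>.1 h
  have hB0 : B ≠ 0 := by
    intro h; rw [h] at c1; simp at c1
  -- `C / B` is constant
  have hD : Cc - B = 0 := by
    have hu : IsUnit B := by
      rw [isUnit_iff_constantCoeff, c1]; exact isUnit_one
    obtain ⟨U, hU⟩ := hu.exists_right_inv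
    have e1 : B * th U = - (U * th B) := by
      have := congrArg th hU
      rw [th_mul, th_one] at this
      linear_combination this
    have e2 : th (Cc * U) = 0 := by
      apply mul_left_cancel₀ hB0
      rw [th_mul, mul_zero]
      have hw5 : B * th Cc - Cc * th B = 0 := by rw [← hw]; exact hw4
      linear_combination Cc * e1 + U * hw5
    have e3 : Cc * U - 1 = 0 := by
      apply eq_zero_of_th
      · rw [th_sub, e2, th_one, sub_zero]
      · rw [map_sub, map_mul, c2, one_mul, map_one]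
        have := congrArg constantCoeff hU
        rw [map_mul, c1, one_mul, map_one] at this
        rw [this, sub_self]
    linear_combination B * e3 - Cc * hU
  have hCB : Cc = B := by linear_combination hD
  rw [hC, hCB]

end Pool.Agent.W32
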