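import Pool.Agent.W32.T4

set_option autoImplicit false

namespace Pool.Agent.W32

open Finset

section choose

variable {p : ℕ} (hp : p.Prime)
include hp

/-- `p` divides `C(p a, j)` if `p` does not divide `j` -/
theorem dvd_choose_of_not_dvd {a j : ℕ} (hj : ¬ p ∣ j) : p ∣ (p * a).choose j := by
  rcases Nat.eq_zero_or_pos j with rfl | hj0
  · exact absurd (dvd_zero p) hj
  obtain ⟨j, rfl⟩ : ∃ i, j = i + 1 := ⟨j - 1, by omega⟩
  rcases Nat.eq_zero_or_pos (p * a) with h0 | h0
  · rw [h0]; simp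
  obtain ⟨N, hN⟩ : ∃ N, p * a = N + 1 := ⟨p * a - 1, by omega⟩
  have h := Nat.add_one_mul_choose_eq N j
  have h1 : p ∣ (N + 1).choose (j + 1) * (j + 1) := by
    rw [← h, ← hN, mul_assoc]; exact dvd_mul_right _ _
  rw [hN]
  exact (hp.dvd_mul.1 h1).resolve_right hj

/-- `C(p a, p b) ≡ C(a, b)` modulo `p ^ 2` -/
theorem choose_mul_mul (a b : ℕ) :
    (((p * a).choose (p * b) : ℕ) : ZMod (p ^ 2)) = ((a.choose b : ℕ) : ZMod (p ^ 2)) := by
  induction a generalizing b with
  | zero =>
    rcases Nat.eq_zero_or_pos b with rfl | hb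
    · simp
    · rw [Nat.mul_zero, Nat.choose_eq_zero_of_lt (Nat.mul_pos hp.pos hb),
        Nat.choose_eq_zero_of_lt hb]
  | succ a ih =>
    rcases Nat.eq_zero_or_pos b with rfl | hb
    · simp
    obtain ⟨b, rfl⟩ : ∃ c, b = c + 1 := ⟨b - 1, by omega⟩
    rw [Nat.choose_succ_succ a b, Nat.cast_add, ← ih b, ← ih (b + 1)]
    have hv : (p * (a + 1)).choose (p * (b + 1)) =
        ∑ i ∈ range (p * (b + 1) + 1), p.choose i * (p * a).choose (p * (b + 1) - i) := by
      rw [show p * (a + 1) = p + p * a by ring, Nat.add_choose_eq,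
        Finset.Nat.sum_antidiagonal_eq_sum_range_succ_mk]
    rw [hv]
    -- only `i = 0` and `i = p` matter
    have h1 : ∀ i ∈ range (p * (b + 1) + 1), i ≠ 0 → i ≠ p →
        ((p.choose i * (p * a).choose (p * (b + 1) - i) : ℕ) : ZMod (p ^ 2)) = 0 := by
      intro i hi hi0 hip
      rw [mem_range] at hi
      rcases Nat.lt_or_ge p i with h | h
      · rw [Nat.choose_eq_zero_of_lt h]; simp
      · have hlt : i < p := lt_of_le_of_ne h hip
        have d1 : p ∣ p.choose i := hp.dvd_choose_self hi0 hlt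
        have d2 : p ∣ (p * a).choose (p * (b + 1) - i) := by
          apply dvd_choose_of_not_dvd hp
          intro hd
          have h3 : p ∣ i := by
            have h4 : p ∣ p * (b + 1) := dvd_mul_right _ _
            have h5 := Nat.dvd_sub h4 hd
            rwa [Nat.sub_sub_self (by omega)] at h5
          exact absurd (Nat.le_of_dvd (by omega) h3) (by omega)
        rw [ZMod.natCast_eq_zero_iff, sq]
        exact mul_dvd_mul d1 d2
    rw [Nat.cast_sum]
    have hpb : p ∈ range (p * (b + 1) + 1) := by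
      rw [mem_range]
      have : p ≤ p * (b + 1) := Nat.le_mul_of_pos_right _ (by omega)
      omega
    have h0b : 0 ∈ range (p * (b + 1) + 1) := by rw [mem_range]; omega
    have hne : (0 : ℕ) ≠ p := hp.pos.ne
    rw [← Finset.sum_subset (s₁ := {0, p})]
    · rw [sum_pair hne]
      simp only [Nat.choose_zero_right, Nat.choose_self, one_mul, Nat.sub_zero]
      have : p * (b + 1) - p = p * b := by
        rw [Nat.mul_succ]; omega
      rw [this]
      ring
    · intro i hi
      rw [mem_insert, mem_singleton] at hi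
      rcases hi with rfl | rfl
      · exact h0b
      · exact hpb
    · intro i hi hi'
      rw [mem_insert, mem_singleton, not_or] at hi'
      exact h1 i hi hi'.1 hi'.2

theorem F7_mul_mul (m i : ℕ) : ((F7 (p * m) (p * i) : ℕ) : ZMod (p ^ 2)) = (F7 m i : ℕ) := by
  unfold F7
  rw [show 2 * (p * i) = p * (2 * i) by ring, show p * m + p * i = p * (m + i) by ring]
  rw [Nat.cast_mul, Nat.cast_mul, Nat.cast_pow, choose_mul_mul hp, choose_mul_mul hp,
    choose_mul_mul hp]
  push_cast
  rfl

/-- `T(p m) ≡ T(m)` modulo `p ^ 2` -/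
theorem T7_mul (m : ℕ) : ((T7 (p * m) : ℕ) : ZMod (p ^ 2)) = (T7 m : ℕ) := by
  rw [T7_eq, T7_eq, Nat.cast_sum, Nat.cast_sum]
  have himg : ((range (m + 1)).image (fun i => p * i)) ⊆ range (p * m + 1) := by
    intro j hj
    rw [mem_image] at hj
    obtain ⟨i, hi, rfl⟩ := hj
    rw [mem_range] at hi ⊢
    have : p * i ≤ p * m := Nat.mul_le_mul_left _ (by omega)
    omega
  rw [← Finset.sum_subset himg]
  · rw [sum_image]
    · exact sum_congr rfl fun i _ => F7_mul_mul hp m i
    · intro i _ j _ h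
      exact Nat.eq_of_mul_eq_mul_left hp.pos h
  · intro j hj hj'
    have h1 : ¬ p ∣ j := by
      rintro ⟨i, rfl⟩
      apply hj'
      rw [mem_image]
      refine ⟨i, ?_, rfl⟩
      rw [mem_range] at hj ⊢
      have : p * i ≤ p * m := by omega
      have := Nat.le_of_mul_le_mul_left this hp.pos
      omega
    rw [ZMod.natCast_eq_zero_iff]
    unfold F7
    rw [mul_assoc]
    exact Dvd.dvd.mul_right (pow_dvd_pow_of_dvd (dvd_choose_of_not_dvd hp h1) 2) _

/-- `p` divides `T(p m - 1)` -/
theorem dvd_T7 {n m : ℕ} (h : n + 1 = p * m) : p ∣ T7 n := by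
  rw [T7_eq]
  apply Finset.dvd_sum
  intro j _
  unfold F7
  by_cases hj : p ∣ j
  · -- `p ∣ C(2j, n)`
    have h1 : p ∣ (2 * j).choose n := by
      rcases Nat.lt_or_ge (2 * j) n with hlt | hge
      · rw [Nat.choose_eq_zero_of_lt hlt]; exact dvd_zero _
      have h2 := Nat.choose_succ_right_eq (2 * j) n
      have h3 : p ∣ (2 * j).choose n * (2 * j - n) := by
        rw [← h2, h]; exact Dvd.dvd.mul_left (dvd_mul_right _ _) _
      apply (hp.dvd_mul.1 h3).resolve_right
      intro h4
      have h5 : p ∣ 2 * j - n + (n + 1) := dvd_add h4 (h ▸ dvd_mul_right _ _)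
      have h6 : 2 * j - n + (n + 1) = 2 * j + 1 := by omega
      rw [h6] at h5
      have h7 : p ∣ 1 := (Nat.dvd_add_right (Dvd.dvd.mul_left hj 2)).1 h5
      exact hp.one_lt.ne' (Nat.dvd_one.1 h7)
    exact Dvd.dvd.mul_right (Dvd.dvd.mul_left h1 _) _
  · -- `p ∣ C(n + j, j)`
    rcases Nat.eq_zero_or_pos j with rfl | hj0
    · exact absurd (dvd_zero p) hj
    obtain ⟨i, rfl⟩ : ∃ i, j = i + 1 := ⟨j - 1, by omega⟩
    have h2 := Nat.choose_succ_right_eq (n + (i + 1)) i
    have h3 : n + (i + 1) - i = n + 1 := by omega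
    rw [h3, h] at h2
    have h4 : p ∣ (n + (i + 1)).choose (i + 1) * (i + 1) := by
      rw [h2]; exact Dvd.dvd.mul_left (dvd_mul_right _ _) _
    exact Dvd.dvd.mul_left ((hp.dvd_mul.1 h4).resolve_right hj) _

end choose

end Pool.Agent.W32
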