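import Pool.Agent.W32.T5

set_option autoImplicit false

namespace Pool.Agent.W32

open Finset

/-- `Ges p r v`: `T(p m + r) = (T(r) + p m v) T(m)` modulo `p ^ 2` for all `m` -/
def Ges (p r : ℕ) (v : ℤ) : Prop :=
  ∀ m : ℕ, (T7 (p * m + r) : ZMod (p ^ 2)) =
    ((T7 r : ZMod (p ^ 2)) + (p : ZMod (p ^ 2)) * m * (v : ZMod (p ^ 2))) * (T7 m : ZMod (p ^ 2))

/-- right hand side of the recurrence for the derivative -/
def stepR {R : Type*} [CommRing R] (n T0 T1 T2 v0 v1 : R) : R :=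
  (78 * n ^ 2 + 78 * n + 21) * T1
      + (2 * n + 1) * (13 * n ^ 2 + 13 * n + 4) * v1 + (81 * n ^ 2 - 3) * T0
      + 3 * n * (9 * n ^ 2 - 1) * v0 - 3 * (n + 1) ^ 2 * T2

/-- general step of the recurrence modulo the square of an ideal -/
theorem step_ring {R : Type*} [CommRing R] (n ε v v0 v1 T0 T1 T2 Tm x0 x1 x2 : R)
    (hε : ε * ε = 0)
    (hx0 : x0 = (T0 + ε * v0) * Tm) (hx1 : x1 = (T1 + ε * v1) * Tm)
    (hx : (n + 1 + ε) ^ 3 * x2 = (2 * (n + ε) + 1) * (13 * (n + ε) ^ 2 + 13 * (n + ε) + 4) * x1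
      + 3 * (n + ε) * (9 * (n + ε) ^ 2 - 1) * x0)
    (hT : (n + 1) ^ 3 * T2 = (2 * n + 1) * (13 * n ^ 2 + 13 * n + 4) * T1
      + 3 * n * (9 * n ^ 2 - 1) * T0)
    (hv : ε * ((n + 1) ^ 3 * v) = ε * stepR n T0 T1 T2 v0 v1) :
    (n + 1 + ε) ^ 3 * (x2 - (T2 + ε * v) * Tm) = 0 := by
  have ha : (2 * (n + ε) + 1) * (13 * (n + ε) ^ 2 + 13 * (n + ε) + 4) =
      (2 * n + 1) * (13 * n ^ 2 + 13 * n + 4) + ε * (78 * n ^ 2 + 78 * n + 21) := by
    linear_combination (78 * n + 39 + 26 * ε) * hε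
  have hb : 3 * (n + ε) * (9 * (n + ε) ^ 2 - 1) =
      3 * n * (9 * n ^ 2 - 1) + ε * (81 * n ^ 2 - 3) := by
    linear_combination (81 * n + 27 * ε) * hε
  have hc : (n + 1 + ε) ^ 3 = (n + 1) ^ 3 + ε * (3 * (n + 1) ^ 2) := by
    linear_combination (3 * (n + 1) + ε) * hε
  rw [ha, hb, hc, hx0, hx1] at hx
  rw [hc]
  unfold stepR at hv
  linear_combination hx - Tm * hT - Tm * hv
    + (Tm * ((78 * n ^ 2 + 78 * n + 21) * v1 + (81 * n ^ 2 - 3) * v0 - 3 * (n + 1) ^ 2 * v)) * hε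

variable {p : ℕ} (hp : p.Prime)
include hp

theorem isUnit_of_lt {r m : ℕ} (hr0 : 0 < r) (hr : r < p) :
    IsUnit (((r : ZMod (p ^ 2)) + (p : ZMod (p ^ 2)) * m) ^ 3) := by
  apply IsUnit.pow
  have h1 : ((r : ZMod (p ^ 2)) + (p : ZMod (p ^ 2)) * m) = ((r + p * m : ℕ) : ZMod (p ^ 2)) := by
    push_cast; rfl
  rw [h1, ZMod.isUnit_iff_coprime]
  apply Nat.Coprime.pow_right
  rw [Nat.coprime_comm, hp.coprime_iff_not_dvd]
  intro h
  have h2 : p ∣ r := (Nat.dvd_add_left (dvd_mul_right p m)).1 h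
  exact absurd (Nat.le_of_dvd hr0 h2) (by omega)

omit hp in
theorem eps_sq (m : ℕ) :
    ((p : ZMod (p ^ 2)) * m) * ((p : ZMod (p ^ 2)) * m) = 0 := by
  have h : ((p : ZMod (p ^ 2))) * (p : ZMod (p ^ 2)) = 0 := by
    have : ((p ^ 2 : ℕ) : ZMod (p ^ 2)) = 0 := ZMod.natCast_self _
    rw [← this]; push_cast; ring
  linear_combination ((m : ZMod (p ^ 2)) * m) * h

omit hp in
theorem p_mul_p : ((p : ZMod (p ^ 2))) * (p : ZMod (p ^ 2)) = 0 := by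
  have : ((p ^ 2 : ℕ) : ZMod (p ^ 2)) = 0 := ZMod.natCast_self _
  rw [← this]; push_cast; ring

theorem Ges_zero : Ges p 0 0 := by
  intro m
  have h := T7_mul hp m
  rw [add_zero, T7_zero, h]
  simp

theorem Ges_one (h1p : 1 < p) : Ges p 1 9 := by
  intro m
  rcases Nat.eq_zero_or_pos m with rfl | hm
  · simp [T7_zero]
  have h0 := T7_mul hp m
  obtain ⟨n, hn⟩ : ∃ n, p * m = n + 1 := ⟨p * m - 1, by
    have := Nat.mul_pos hp.pos hm
    omega⟩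
  obtain ⟨c, hc⟩ := dvd_T7 hp hn.symm
  have hrec := congrArg (Int.cast : ℤ → ZMod (p ^ 2)) (T7_rec n)
  push_cast at hrec
  rw [show n + 2 = p * m + 1 by omega, ← hn, hc, h0] at hrec
  have hn' : (n : ZMod (p ^ 2)) = p * m - 1 := by
    have : ((p * m : ℕ) : ZMod (p ^ 2)) = ((n + 1 : ℕ) : ZMod (p ^ 2)) := by rw [hn]
    push_cast at this; linear_combination -this
  rw [hn'] at hrec
  push_cast at hrec
  have hu := isUnit_of_lt hp (m := m) Nat.zero_lt_one h1p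
  have he := eps_sq (p := p) m
  have hpp := p_mul_p (p := p)
  have key : ((1 : ℕ) + (p : ZMod (p ^ 2)) * m) ^ 3 * ((T7 (p * m + 1) : ZMod (p ^ 2)) -
      ((T7 1 : ZMod (p ^ 2)) + (p : ZMod (p ^ 2)) * m * ((9 : ℤ) : ZMod (p ^ 2))) *
        (T7 m : ZMod (p ^ 2))) = 0 := by
    rw [T7_one]
    push_cast
    linear_combination hrec + (-5 * (p * m) - 9 * (p * m) ^ 2) * (T7 m : ZMod (p ^ 2)) * he
      + 3 * m * (9 * (p * m) ^ 2 - 1) * c * hpp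
  exact sub_eq_zero.1 ((hu.mul_right_eq_zero).1 key)

theorem Ges_step {r : ℕ} (hr : r + 2 < p) {v0 v1 : ℤ} (h0 : Ges p r v0) (h1 : Ges p (r + 1) v1) :
    ∃ v2 : ℤ, Ges p (r + 2) v2 := by
  -- choose `v2`
  have : NeZero (p ^ 2) := ⟨pow_ne_zero 2 hp.ne_zero⟩
  have hu0 : IsUnit (((r + 2 : ℕ) : ZMod (p ^ 2)) ^ 3) := by
    have := isUnit_of_lt hp (r := r + 2) (m := 0) (by omega) (by omega)
    simpa using this
  obtain ⟨u, hu⟩ := hu0.exists_right_inv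
  obtain ⟨v2, hv2⟩ := ZMod.intCast_surjective
    (u * stepR ((r : ZMod (p ^ 2)) + 1) (T7 r) (T7 (r + 1)) (T7 (r + 2)) v0 v1)
  refine ⟨v2, fun m => ?_⟩
  have hx0 := h0 m
  have hx1 := h1 m
  have hT := congrArg (Int.cast : ℤ → ZMod (p ^ 2)) (T7_rec r)
  have hx := congrArg (Int.cast : ℤ → ZMod (p ^ 2)) (T7_rec (p * m + r))
  push_cast at hT hx
  have hunit := isUnit_of_lt hp (r := r + 2) (m := m) (by omega) (by omega)
  have key := step_ring ((r : ZMod (p ^ 2)) + 1) ((p : ZMod (p ^ 2)) * m) v2 v0 v1 (T7 r)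
    (T7 (r + 1)) (T7 (r + 2)) (T7 m) (T7 (p * m + r)) (T7 (p * m + (r + 1)))
    (T7 (p * m + (r + 2))) (eps_sq (p := p) m) hx0 hx1
    (by
      rw [show p * m + (r + 2) = p * m + r + 2 by ring, show p * m + (r + 1) = p * m + r + 1 by ring]
      linear_combination hx)
    (by linear_combination hT)
    (by
      rw [hv2]
      push_cast at hu
      linear_combination (((p : ZMod (p ^ 2)) * m) *
        stepR ((r : ZMod (p ^ 2)) + 1) (T7 r) (T7 (r + 1)) (T7 (r + 2)) v0 v1) * hu)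
  have e : ((r : ZMod (p ^ 2)) + 1 + 1 + (p : ZMod (p ^ 2)) * m) =
      (((r + 2 : ℕ) : ZMod (p ^ 2)) + (p : ZMod (p ^ 2)) * m) := by push_cast; ring
  rw [e] at key
  exact sub_eq_zero.1 ((hunit.mul_right_eq_zero).1 key)

/-- for all `r < p` there is `v_r` -/
theorem Ges_all : ∃ V : ℕ → ℤ, V 0 = 0 ∧ ∀ r < p, Ges p r (V r) := by
  have h : ∀ r : ℕ, r + 1 < p → (∃ v, Ges p r v) ∧ (∃ v, Ges p (r + 1) v) := by
    intro r
    induction r with
    | zero => intro h1; exact ⟨⟨0, Ges_zero hp⟩, ⟨9, Ges_one hp h1⟩⟩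
    | succ r ih =>
      intro h1
      obtain ⟨⟨v0, h0⟩, ⟨v1, h1'⟩⟩ := ih (by omega)
      exact ⟨⟨v1, h1'⟩, Ges_step hp h1 h0 h1'⟩
  have h' : ∀ r : ℕ, ∃ v : ℤ, (r = 0 → v = 0) ∧ (r < p → Ges p r v) := by
    intro r
    rcases r with _ | r
    · exact ⟨0, fun _ => rfl, fun _ => Ges_zero hp⟩
    · by_cases hr : r + 1 < p
      · obtain ⟨v, hv⟩ := (h r hr).2
        exact ⟨v, by simp, fun _ => hv⟩
      · exact ⟨0, by simp, fun h => absurd h hr⟩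
  choose V hV using h'
  exact ⟨V, (hV 0).1 rfl, fun r => (hV r).2⟩

end Pool.Agent.W32
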