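import Pool.Agent.W32.T6

set_option autoImplicit false

namespace Pool.Agent.W32

open PowerSeries

section expand

variable {R : Type*} [CommRing R] {p : ℕ} (hp : p ≠ 0)

theorem coeff_mul_expand {Q f : R⟦X⟧} (hQ : ∀ i, p ≤ i → coeff i Q = 0) {r : ℕ} (hr : r < p)
    (m : ℕ) : coeff (p * m + r) (Q * expand p hp f) = coeff r Q * coeff m f := by
  rw [coeff_mul, Finset.sum_eq_single (r, p * m)]
  · rw [coeff_expand_mul]
  · rintro ⟨i, j⟩ hij hne
    rw [Finset.HasAntidiagonal.mem_antidiagonal] at hij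
    simp only at hij ⊢
    rcases Nat.lt_or_ge i p with hi | hi
    · rw [coeff_expand_of_not_dvd, mul_zero]
      rintro ⟨k, rfl⟩
      apply hne
      have h1 : i = r := by
        have h2 : (i + p * k) % p = (p * m + r) % p := by rw [hij]
        rw [Nat.add_mul_mod_self_left, Nat.mul_add_mod, Nat.mod_eq_of_lt hi,
          Nat.mod_eq_of_lt hr] at h2
        exact h2
      subst h1
      have h3 : p * k = p * m := by omega
      rw [h3]
    · rw [hQ i hi, zero_mul]
  · intro h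
    exact absurd (Finset.HasAntidiagonal.mem_antidiagonal.2 (Nat.add_comm _ _)) h

theorem th_expand (f : R⟦X⟧) : th (expand p hp f) = (p : R⟦X⟧) * expand p hp (th f) := by
  ext n
  rw [coeff_th, ← nsmul_eq_mul, ← nsmul_eq_mul, map_nsmul, nsmul_eq_mul, nsmul_eq_mul]
  by_cases h : p ∣ n
  · obtain ⟨m, rfl⟩ := h
    rw [coeff_expand_mul, coeff_expand_mul, coeff_th]
    push_cast; ring
  · rw [coeff_expand_of_not_dvd p hp _ h, coeff_expand_of_not_dvd p hp _ h]; simp

end expand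

/-- the truncation of the generating function at `p` -/
noncomputable def PT (p : ℕ) : ℤ⟦X⟧ := PowerSeries.mk fun n => if n < p then (T7 n : ℤ) else 0

/-- divisibility of all coefficients -/
theorem dvd_of_coeff {p : ℤ} {f : ℤ⟦X⟧} (h : ∀ n, p ∣ coeff n f) : ∃ g : ℤ⟦X⟧, f = C p * g := by
  choose g hg using h
  refine ⟨PowerSeries.mk g, ?_⟩
  ext n
  rw [coeff_C_mul, coeff_mk, ← hg n]

/-- the generating function modulo `p ^ 2` -/
theorem Z7_mod {p : ℕ} (hp : p.Prime) : ∃ V W : ℤ⟦X⟧, coeff 0 V = 0 ∧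
    (∀ i, p ≤ i → coeff i V = 0) ∧
    Z7 = PT p * expand p hp.ne_zero Z7 + (p : ℤ⟦X⟧) * (V * expand p hp.ne_zero (th Z7))
      + (p : ℤ⟦X⟧) ^ 2 * W := by
  obtain ⟨V, hV0, hV⟩ := Ges_all hp
  set Vs : ℤ⟦X⟧ := PowerSeries.mk fun n => if n < p then V n else 0 with hVs
  have hd : ∀ n, ((p : ℤ) ^ 2) ∣ coeff n (Z7 - (PT p * expand p hp.ne_zero Z7
      + (p : ℤ⟦X⟧) * (Vs * expand p hp.ne_zero (th Z7)))) := by
    intro n
    obtain ⟨m, r, hr, rfl⟩ : ∃ m r, r < p ∧ n = p * m + r :=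
      ⟨n / p, n % p, Nat.mod_lt _ hp.pos, (Nat.div_add_mod n p).symm⟩
    rw [map_sub, map_add, coeff_mul_expand hp.ne_zero _ hr, ← nsmul_eq_mul, map_nsmul,
      nsmul_eq_mul, coeff_mul_expand hp.ne_zero _ hr, coeff_th]
    · have h := hV r hr m
      simp only [Z7, PT, hVs, coeff_mk, if_pos hr]
      have h1 : ((((T7 (p * m + r) : ℤ) - ((T7 r : ℤ) * T7 m + p * (V r * (m * T7 m)))) : ℤ) :
          ZMod (p ^ 2)) = 0 := by
        push_cast
        rw [h]; ring
      rw [ZMod.intCast_zmod_eq_zero_iff_dvd] at h1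
      exact_mod_cast h1
    · intro i hi
      rw [hVs, coeff_mk, if_neg (by omega)]
    · intro i hi
      rw [PT, coeff_mk, if_neg (by omega)]
  obtain ⟨W, hW⟩ := dvd_of_coeff hd
  refine ⟨Vs, W, ?_, ?_, ?_⟩
  · rw [hVs, coeff_mk, if_pos hp.pos, hV0]
  · intro i hi
    rw [hVs, coeff_mk, if_neg (by omega)]
  · have : (C ((p : ℤ) ^ 2) : ℤ⟦X⟧) = (p : ℤ⟦X⟧) ^ 2 := by simp
    rw [this] at hW
    linear_combination hW

/-- Frobenius on the image of `ℤ⟦X⟧` in characteristic `p` -/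
theorem expand_eq_pow {K : Type*} [Field K] {p : ℕ} [hp : Fact p.Prime] [CharP K p] (F : ℤ⟦X⟧) :
    expand p hp.out.ne_zero (PowerSeries.map (Int.castRingHom K) F) =
      (PowerSeries.map (Int.castRingHom K) F) ^ p := by
  have h : PowerSeries.map (frobenius K p) (expand p hp.out.ne_zero
      (PowerSeries.map (Int.castRingHom K) F)) = (PowerSeries.map (Int.castRingHom K) F) ^ p :=
    MvPowerSeries.map_frobenius_expand p hp.out.ne_zero
  rw [PowerSeries.map_expand] at h
  rw [← h]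
  congr 1
  have h2 : (frobenius K p).comp (Int.castRingHom K) = Int.castRingHom K :=
    RingHom.ext_int _ _
  ext n
  rw [coeff_map, coeff_map]
  exact (RingHom.congr_fun h2 _).symm

end Pool.Agent.W32
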