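import Mathlib

set_option autoImplicit false

namespace Pool.Agent.W32

open Polynomial

/-- The polynomial equation satisfied by the square of a solution of the second order equation. -/
def Sq2 {K : Type*} [Field K] (P : K[X]) : Prop :=
  (1 - 26 * X - 27 * (X * X)) * (2 * P * (X * derivative (X * derivative P))
    - (X * derivative P) * (X * derivative P))
    - (26 * X + 54 * (X * X)) * P * (X * derivative P) - 4 * (2 * X + 6 * (X * X)) * (P * P) = 0

variable {K : Type*} [Field K]

theorem mult_one {P W : K[X]} {α : K} (hα : α ≠ 0) (hS : Sq2 P) (hP : P = (X - C α) * W)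
    (hW : W.eval α ≠ 0) : 1 - 26 * α - 27 * (α * α) = 0 := by
  unfold Sq2 at hS
  have h := congrArg (eval α) hS
  rw [hP] at h
  simp only [derivative_mul, derivative_sub, derivative_X, derivative_C, eval_sub, eval_add,
    eval_mul, eval_X, eval_C, eval_one, eval_ofNat, eval_zero, sub_self, zero_mul, mul_zero,
    zero_add, sub_zero, one_mul, zero_sub, neg_eq_zero] at h
  rcases mul_eq_zero.1 h with h | h
  · exact h
  · have h1 : α * eval α W * (α * eval α W) = 0 := by linear_combination -h
    exact absurd h1 (mul_ne_zero (mul_ne_zero hα hW) (mul_ne_zero hα hW))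

theorem mult_ge_two {P W : K[X]} {α : K} {i : ℕ} (hα : α ≠ 0) (hS : Sq2 P)
    (hP : P = (X - C α) ^ (i + 2) * W) (hW : W.eval α ≠ 0) (hi : ((i : K) + 2) ≠ 0)
    (hi1 : ((i : K) + 1) ≠ 0) (h784 : (784 : K) ≠ 0) :
    (i : K) = 0 ∧ 1 - 26 * α - 27 * (α * α) ≠ 0 := by
  set u : K[X] := X - C α with hu
  have hu0 : u ≠ 0 := X_sub_C_ne_zero α
  have du : derivative u = 1 := by rw [hu]; simp
  -- first derivative
  set P1 : K[X] := ((i : K[X]) + 2) * W + u * derivative W with hP1
  have d1 : derivative P = u ^ (i + 1) * P1 := by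
    rw [hP, hP1, derivative_mul, derivative_pow, du]
    simp only [Nat.add_sub_cancel, mul_one]
    have : ((i + 2 : ℕ) : K) = (i : K) + 2 := by push_cast; ring
    rw [this, map_add, show (C (2 : K)) = (2 : K[X]) from rfl, map_natCast,
      show i + 2 - 1 = i + 1 by omega]
    ring
  have d2 : derivative (X * derivative P) = u ^ i * (u * P1 + X * (((i : K[X]) + 1) * P1
      + u * derivative P1)) := by
    rw [d1, derivative_mul, derivative_X, derivative_mul, derivative_pow, du]
    simp only [mul_one, one_mul]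
    have : ((i + 1 : ℕ) : K) = (i : K) + 1 := by push_cast; ring
    rw [this, map_add, map_one, map_natCast, Nat.add_sub_cancel]
    ring
  unfold Sq2 at hS
  rw [d2, d1, hP] at hS
  have hS' : u ^ (2 * i + 2) * ((1 - 26 * X - 27 * (X * X)) *
      (2 * W * (X * (u * P1 + X * (((i : K[X]) + 1) * P1 + u * derivative P1))) - X * P1 * (X * P1))
      - (26 * X + 54 * (X * X)) * (u * W * (X * P1)) - 4 * (2 * X + 6 * (X * X)) * (u ^ 2 * (W * W)))
      = 0 := by
    rw [← hS]
    ring
  have hS2 := (mul_eq_zero.1 hS').resolve_left (pow_ne_zero _ hu0)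
  have eu : eval α u = 0 := by rw [hu]; simp
  have eP1 : eval α P1 = ((i : K) + 2) * eval α W := by
    rw [hP1]; simp [eu]
  have h := congrArg (eval α) hS2
  simp only [eval_sub, eval_add, eval_mul, eval_X, eval_C, eval_one, eval_ofNat, eval_zero, eu,
    eval_pow, eval_natCast, eP1, zero_mul, mul_zero, zero_add, sub_zero, one_mul] at h
  have h' : (1 - 26 * α - 27 * (α * α)) * ((i : K) * ((i + 2) * (α * α * (eval α W * eval α W))))
      = 0 := by
    have hz : (0 : K) ^ 2 = 0 := by norm_num
    rw [hz] at h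
    linear_combination h
  by_cases hD : 1 - 26 * α - 27 * (α * α) = 0
  · -- contradiction
    exfalso
    -- factor `Δ = (X - α) Δ₁`
    have hfac : (1 - 26 * X - 27 * (X * X) : K[X]) = u * (-(26 + 27 * α : K) • 1 - 27 * X) := by
      have h2 : (1 - 26 * X - 27 * (X * X) : K[X]) - u * (-(26 + 27 * α : K) • 1 - 27 * X) =
          C (1 - 26 * α - 27 * (α * α)) := by
        rw [hu]
        simp only [smul_eq_C_mul, mul_one, map_sub, map_add, map_mul, map_one, map_neg]
        rw [show (C (26 : K)) = (26 : K[X]) from rfl, show (C (27 : K)) = (27 : K[X]) from rfl]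
        ring
      rw [hD, map_zero, sub_eq_zero] at h2
      exact h2
    rw [hfac] at hS2
    have hS3 : u * ((-(26 + 27 * α : K) • 1 - 27 * X) *
      (2 * W * (X * (u * P1 + X * (((i : K[X]) + 1) * P1 + u * derivative P1))) - X * P1 * (X * P1))
      - (26 * X + 54 * (X * X)) * (W * (X * P1)) - 4 * (2 * X + 6 * (X * X)) * (u * (W * W)))
      = 0 := by
      rw [← hS2]; ring
    have hS4 := (mul_eq_zero.1 hS3).resolve_left hu0
    have h4 := congrArg (eval α) hS4
    simp only [eval_sub, eval_add, eval_mul, eval_X, eval_C, eval_one, eval_ofNat, eval_zero, eu,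
      eval_natCast, eP1, zero_mul, mul_zero, zero_add, sub_zero, one_mul, eval_smul, smul_eq_mul,
      mul_one] at h4
    have h5 : (26 + 54 * α) * (α * α * (eval α W * eval α W)) * (((i : K) + 2) * (i + 1)) = 0 := by
      linear_combination -h4
    have h6 : (26 + 54 * α) ≠ 0 := by
      intro h7
      apply h784
      linear_combination (26 + 54 * α) * h7 + 108 * hD
    exact mul_ne_zero (mul_ne_zero h6 (mul_ne_zero (mul_ne_zero hα hα) (mul_ne_zero hW hW)))
      (mul_ne_zero hi hi1) h5
  · refine ⟨?_, hD⟩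
    have h8 := (mul_eq_zero.1 h').resolve_left hD
    rcases mul_eq_zero.1 h8 with h9 | h9
    · exact h9
    · exact absurd h9 (mul_ne_zero hi (mul_ne_zero (mul_ne_zero hα hα) (mul_ne_zero hW hW)))

/-- the multiplicity of every nonzero root is `2` off `Δ = 0` and `1` on it -/
theorem mult_all {p : ℕ} [hp : Fact p.Prime] [CharP K p] {P : K[X]} (hS : Sq2 P) (hP0 : P ≠ 0)
    (hdeg : P.natDegree < p) (h784 : (784 : K) ≠ 0) {α : K} (hα : α ≠ 0) (hr : P.IsRoot α) :
    (1 - 26 * α - 27 * (α * α) = 0 → P.rootMultiplicity α = 1) ∧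
    (1 - 26 * α - 27 * (α * α) ≠ 0 → P.rootMultiplicity α = 2) := by
  obtain ⟨W, hW, hWnd⟩ := P.exists_eq_pow_rootMultiplicity_mul_and_not_dvd hP0 α
  have hW' : W.eval α ≠ 0 := by
    intro h
    exact hWnd (dvd_iff_isRoot.2 h)
  have hk1 : 0 < P.rootMultiplicity α := (rootMultiplicity_pos hP0).2 hr
  have hkp : P.rootMultiplicity α < p :=
    lt_of_le_of_lt (by
      classical
      rw [← count_roots]
      exact (Multiset.count_le_card _ _).trans (card_roots' P)) hdeg
  generalize P.rootMultiplicity α = k at *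
  obtain ⟨k, rfl⟩ : ∃ i, k = i + 1 := ⟨k - 1, by omega⟩
  rcases k with _ | i
  · rw [zero_add, pow_one] at hW
    have := mult_one hα hS hW hW'
    exact ⟨fun _ => rfl, fun h => absurd this h⟩
  · have e1 : ((i : K) + 1) ≠ 0 := by
      have : ((i + 1 : ℕ) : K) ≠ 0 := by
        rw [Ne, CharP.cast_eq_zero_iff K p]
        intro h; exact absurd (Nat.le_of_dvd (by omega) h) (by omega)
      simpa using this
    have e2 : ((i : K) + 2) ≠ 0 := by
      have : ((i + 2 : ℕ) : K) ≠ 0 := by
        rw [Ne, CharP.cast_eq_zero_iff K p]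
        intro h; exact absurd (Nat.le_of_dvd (by omega) h) (by omega)
      simpa using this
    have h := mult_ge_two hα hS hW hW' e2 e1 h784
    have hi : i = 0 := by
      rcases Nat.eq_zero_or_pos i with h0 | h0
      · exact h0
      · exfalso
        have h3 := h.1
        rw [CharP.cast_eq_zero_iff K p] at h3
        exact absurd (Nat.le_of_dvd h0 h3) (by omega)
    subst hi
    exact ⟨fun h' => absurd h' h.2, fun _ => rfl⟩

/-- over an algebraically closed field a polynomial all of whose root multiplicities are even is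
a square -/
theorem exists_sq_of_even [IsAlgClosed K] (n : ℕ) : ∀ P : K[X], P.natDegree ≤ n → P ≠ 0 →
    (∀ α, Even (P.rootMultiplicity α)) → ∃ Q : K[X], P = Q * Q := by
  induction n using Nat.strong_induction_on with
  | _ n ih =>
    intro P hn hP0 hP
    rcases Nat.eq_zero_or_pos P.natDegree with h0 | h0
    · rw [eq_C_of_natDegree_eq_zero h0]
      obtain ⟨z, hz⟩ := IsAlgClosed.exists_pow_nat_eq (P.coeff 0) (n := 2) (by norm_num)
      exact ⟨C z, by rw [← C_mul, ← hz, sq]⟩
    · obtain ⟨α, hα⟩ := IsAlgClosed.exists_root P (by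
        rw [degree_eq_natDegree hP0]
        exact_mod_cast h0.ne')
      have hk : 0 < P.rootMultiplicity α := (rootMultiplicity_pos hP0).2 hα
      have hk2 : 2 ≤ P.rootMultiplicity α := by
        obtain ⟨j, hj⟩ := hP α
        omega
      obtain ⟨P', hP'⟩ : (X - C α) ^ 2 ∣ P := (le_rootMultiplicity_iff hP0).1 hk2
      have hu : (X - C α : K[X]) ^ 2 ≠ 0 := pow_ne_zero _ (X_sub_C_ne_zero α)
      have hP'0 : P' ≠ 0 := by rintro rfl; exact hP0 (by rw [hP', mul_zero])
      have hdeg : P.natDegree = 2 + P'.natDegree := by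
        rw [hP', natDegree_mul hu hP'0, natDegree_pow, natDegree_X_sub_C]
      obtain ⟨Q, hQ⟩ := ih P'.natDegree (by omega) P' le_rfl hP'0 (by
        intro β
        have h1 := rootMultiplicity_mul (x := β) (hP' ▸ hP0)
        rw [← hP'] at h1
        have h2 := hP β
        by_cases hβ : β = α
        · subst hβ
          rw [rootMultiplicity_X_sub_C_pow] at h1
          rw [h1] at h2
          exact (Nat.even_add.1 h2).1 even_two
        · have h3 : rootMultiplicity β ((X - C α : K[X]) ^ 2) = 0 := by
            apply rootMultiplicity_eq_zero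
            rw [IsRoot.def, eval_pow, eval_sub, eval_X, eval_C]
            exact pow_ne_zero 2 (sub_ne_zero.2 hβ)
          rw [h3, zero_add] at h1
          rwa [h1] at h2)
      refine ⟨(X - C α) * Q, ?_⟩
      rw [hP', hQ]; ring

end Pool.Agent.W32
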