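import Pool.Agent.W32.T7
import Pool.Agent.W32.T8

set_option autoImplicit false

namespace Pool.Agent.W32

open PowerSeries

theorem map_xs {R S : Type*} [CommRing R] [CommRing S] (f : R →+* S) :
    PowerSeries.map f (xs : R⟦X⟧) = xs := by
  unfold xs
  simp only [map_mul, map_sub, map_one, PowerSeries.map_X, map_ofNat]

theorem map_mi {R S : Type*} [CommRing R] [CommRing S] (f : R →+* S) :
    PowerSeries.map f (mi : R⟦X⟧) = mi := by
  ext n
  rw [coeff_map, mi, mi, coeff_mk, coeff_mk, map_pow, map_ofNat]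

theorem map_ys {R S : Type*} [CommRing R] [CommRing S] (f : R →+* S) :
    PowerSeries.map f (ys : R⟦X⟧) = ys := by
  unfold ys
  simp only [map_mul, map_sub, map_one, PowerSeries.map_X, map_ofNat, map_mi]

section hom

open Polynomial in
/-- homogenisation -/
noncomputable def hom {R : Type*} [CommRing R] {S : Type*} [CommRing S] [Algebra R S]
    (Q : R[X]) (N : ℕ) (a b : S) : S :=
  ∑ r ∈ Finset.range (N + 1), algebraMap R S (Q.coeff r) * a ^ r * b ^ (N - r)

open Polynomial in
theorem hom_eq {R : Type*} [CommRing R] {S : Type*} [CommRing S] [Algebra R S]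
    (Q : R[X]) {N : ℕ} (hN : Q.natDegree ≤ N) {a b y : S} (h : b * y = a) :
    hom Q N a b = b ^ N * Polynomial.aeval y Q := by
  rw [Polynomial.aeval_eq_sum_range' (Nat.lt_succ_of_le hN), Finset.mul_sum, hom]
  apply Finset.sum_congr rfl
  intro r hr
  rw [Finset.mem_range] at hr
  rw [← h, mul_pow, Algebra.smul_def]
  have : b ^ N = b ^ r * b ^ (N - r) := by rw [← pow_add]; congr 1; omega
  rw [this]; ring

open Polynomial in
theorem hom_map {R : Type*} [CommRing R] {S S' : Type*} [CommRing S] [Algebra R S]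
    [CommRing S'] [Algebra R S'] (φ : S →ₐ[R] S') (Q : R[X]) (N : ℕ) (a b : S) :
    φ (hom Q N a b) = hom Q N (φ a) (φ b) := by
  unfold hom
  rw [map_sum]
  apply Finset.sum_congr rfl
  intro r _
  rw [map_mul, map_mul, map_pow, map_pow, AlgHom.commutes]

end hom

section main

variable {K : Type*} [Field K]

/-- coercion of polynomials to power series as an algebra hom -/
noncomputable def toPS : Polynomial K →ₐ[K] K⟦X⟧ := Polynomial.coeToPowerSeries.algHom K

theorem toPS_apply (Q : Polynomial K) : toPS Q = (Q : K⟦X⟧) := by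
  unfold toPS
  rw [Polynomial.coeToPowerSeries.algHom_apply]
  simp

/-- evaluation form of the functional equation for the pair `(P, Q)`:
if `c(v) P(x(v)) = d(v) P(y(v))` as power series -/
theorem eval_func {P c d : Polynomial K} {N : ℕ} (hN : P.natDegree ≤ N)
    (h : (c : K⟦X⟧) * Polynomial.aeval (xs : K⟦X⟧) P = (d : K⟦X⟧) * Polynomial.aeval (ys : K⟦X⟧) P)
    {v y0 : K} (hy : (1 - 2 * v) ^ 3 * y0 = v * v * (1 - 4 * v)) :
    (1 - 2 * v) ^ (3 * N) * (c.eval v * P.eval (v * ((1 - 4 * v) * (1 - 4 * v)))) =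
      d.eval v * ((1 - 2 * v) ^ (3 * N) * P.eval y0) := by
  -- polynomial identity
  have h1 : toPS ((1 - 2 * Polynomial.X) ^ (3 * N) * (c * Polynomial.aeval (Polynomial.X *
      ((1 - 4 * Polynomial.X) * (1 - 4 * Polynomial.X)) : Polynomial K) P) : Polynomial K) =
      toPS (d * hom P N (Polynomial.X * Polynomial.X * (1 - 4 * Polynomial.X) : Polynomial K)
        ((1 - 2 * Polynomial.X) ^ 3)) := by
    have eX : toPS (Polynomial.X : Polynomial K) = X := by rw [toPS_apply, Polynomial.coe_X]
    have e3 : toPS (Polynomial.aeval (Polynomial.X *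
      ((1 - 4 * Polynomial.X) * (1 - 4 * Polynomial.X)) : Polynomial K) P) =
        Polynomial.aeval (xs : K⟦X⟧) P := by
      rw [← Polynomial.aeval_algHom_apply]
      congr 2
      simp only [map_mul, map_sub, map_one, map_ofNat, eX]
      rfl
    rw [map_mul, map_mul toPS c, e3, map_mul toPS d, hom_map,
      hom_eq P hN (y := (ys : K⟦X⟧))]
    · simp only [map_mul, map_sub, map_one, map_ofNat, map_pow, eX]
      rw [toPS_apply, toPS_apply, h, pow_mul]
      ring
    · simp only [map_mul, map_sub, map_one, map_ofNat, map_pow, eX]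
      have := ys_mul (R := K)
      linear_combination this
  have h2 : ((1 - 2 * Polynomial.X) ^ (3 * N) * (c * Polynomial.aeval (Polynomial.X *
      ((1 - 4 * Polynomial.X) * (1 - 4 * Polynomial.X)) : Polynomial K) P) : Polynomial K) =
      (d * hom P N (Polynomial.X * Polynomial.X * (1 - 4 * Polynomial.X) : Polynomial K)
        ((1 - 2 * Polynomial.X) ^ 3)) := by
    rw [toPS_apply, toPS_apply] at h1
    exact Polynomial.coe_injective K h1
  have h3 := congrArg (Polynomial.aeval v) h2
  rw [map_mul, map_mul (Polynomial.aeval v) c, map_mul (Polynomial.aeval v) d, hom_map,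
    ← Polynomial.aeval_algHom_apply, hom_eq P hN (y := y0)] at h3
  · simp only [map_mul, map_sub, map_one, map_ofNat, map_pow, Polynomial.aeval_X,
      Polynomial.coe_aeval_eq_eval] at h3
    rw [← pow_mul] at h3
    linear_combination h3
  · simp only [map_mul, map_sub, map_one, map_ofNat, map_pow, Polynomial.aeval_X]
    linear_combination hy

/-- The main contradiction and factorisation: `P` is a square. -/
theorem P_sq [IsAlgClosed K] {p : ℕ} [hp : Fact p.Prime] [CharP K p] (hp11 : 11 ≤ p)
    {P : Polynomial K} (hS : Sq2 P) (hdeg : P.natDegree < p) (hP0 : P.coeff 0 = 1)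
    (hfe : Polynomial.aeval (xs : K⟦X⟧) P =
      (1 - 2 * X) ^ (2 * (p - 1)) * Polynomial.aeval (ys : K⟦X⟧) P)
    {v0 : K} (hv0 : 4 * v0 ^ 2 - 3 * v0 + 1 = 0) (hv1 : (1 - 2 * v0) ^ (p - 1) = 1) :
    ∃ Q : Polynomial K, P = Q * Q := by
  classical
  have hne : ∀ k : ℕ, 0 < k → ¬ p ∣ k → (k : K) ≠ 0 := by
    intro k _ h
    rwa [Ne, CharP.cast_eq_zero_iff K p]
  have small : ∀ k : ℕ, 0 < k → k < 11 → (k : K) ≠ 0 := by
    intro k h1 h2
    apply hne k h1
    intro h; exact absurd (Nat.le_of_dvd h1 h) (by omega)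
  have n2 : (2 : K) ≠ 0 := by exact_mod_cast small 2 (by norm_num) (by norm_num)
  have n3 : (3 : K) ≠ 0 := by exact_mod_cast small 3 (by norm_num) (by norm_num)
  have n7 : (7 : K) ≠ 0 := by exact_mod_cast small 7 (by norm_num) (by norm_num)
  have n27 : (27 : K) ≠ 0 := by
    have : (27 : K) = 3 ^ 3 := by norm_num
    rw [this]; exact pow_ne_zero 3 n3
  have n28 : (28 : K) ≠ 0 := by
    have : (28 : K) = 2 ^ 2 * 7 := by norm_num
    rw [this]; exact mul_ne_zero (pow_ne_zero 2 n2) n7
  have n784 : (784 : K) ≠ 0 := by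
    have : (784 : K) = 28 ^ 2 := by norm_num
    rw [this]; exact pow_ne_zero 2 n28
  have hPne : P ≠ 0 := by rintro rfl; simp at hP0
  have hmult := fun α => mult_all (p := p) hS hPne hdeg n784 (α := α)
  have hroot0 : ¬ P.IsRoot 0 := by
    rw [Polynomial.IsRoot.def, ← Polynomial.coeff_zero_eq_eval_zero, hP0]
    exact one_ne_zero
  -- values at `-1` and `1/27`
  have hkey : P.IsRoot (-1) ↔ P.IsRoot (1 / 27) := by
    have h := eval_func (P := P) (c := 1) (d := (1 - 2 * Polynomial.X) ^ (2 * (p - 1)))
      (N := P.natDegree) le_rfl (by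
        rw [hfe]
        have : (((1 - 2 * Polynomial.X) ^ (2 * (p - 1)) : Polynomial K) : K⟦X⟧) =
            (1 - 2 * X) ^ (2 * (p - 1)) := by
          rw [← toPS_apply]
          simp only [map_sub, map_mul, map_one, map_ofNat, map_pow]
          rw [toPS_apply, Polynomial.coe_X]
        rw [this]; simp) (v := 1 / 3) (y0 := -1) (by field_simp; norm_num)
    have e1 : (1 / 3 : K) * ((1 - 4 * (1 / 3)) * (1 - 4 * (1 / 3))) = 1 / 27 := by
      field_simp; norm_num
    have e2 : (1 - 2 * (1 / 3) : K) = 1 / 3 := by field_simp; norm_num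
    rw [e1, Polynomial.eval_one, one_mul] at h
    simp only [Polynomial.eval_pow, Polynomial.eval_sub, Polynomial.eval_mul, Polynomial.eval_one,
      Polynomial.eval_X, Polynomial.eval_ofNat] at h
    rw [e2] at h
    have n13 : (1 / 3 : K) ≠ 0 := one_div_ne_zero n3
    rw [Polynomial.IsRoot.def, Polynomial.IsRoot.def]
    constructor
    · intro h1
      rw [h1, mul_zero, mul_zero] at h
      exact (mul_eq_zero.1 h).resolve_left (pow_ne_zero _ n13)
    · intro h1
      rw [h1, mul_zero] at h
      have h2 := (mul_eq_zero.1 h.symm).resolve_left (pow_ne_zero _ n13)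
      exact (mul_eq_zero.1 h2).resolve_left (pow_ne_zero _ n13)
  have hDroot : ∀ α : K, 1 - 26 * α - 27 * (α * α) = 0 ↔ α = -1 ∨ α = 1 / 27 := by
    intro α
    have e : 1 - 26 * α - 27 * (α * α) = (α + 1) * (-27 * (α - 1 / 27)) := by
      field_simp; ring
    rw [e, mul_eq_zero, mul_eq_zero]
    constructor
    · rintro (h | h | h)
      · left; linear_combination h
      · exact absurd (neg_eq_zero.1 h) n27
      · right; linear_combination h
    · rintro (h | h)
      · left; rw [h]; ring
      · right; right; rw [h]; ring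
  by_cases hm1 : P.IsRoot (-1)
  · -- the case `P = Δ Q²` is impossible
    exfalso
    have hm2 := hkey.1 hm1
    have hab : (1 / 27 : K) - (-1) ≠ 0 := by
      have : (1 / 27 : K) - (-1) = 28 / 27 := by field_simp; norm_num
      rw [this]; exact div_ne_zero n28 n27
    obtain ⟨P1, hP1⟩ := Polynomial.dvd_iff_isRoot.2 hm1
    have hm3 : P1.IsRoot (1 / 27) := by
      rw [Polynomial.IsRoot.def, hP1, Polynomial.eval_mul] at hm2
      refine (mul_eq_zero.1 hm2).resolve_left ?_
      simpa using hab
    obtain ⟨P2, hP2⟩ := Polynomial.dvd_iff_isRoot.2 hm3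
    rw [hP2] at hP1
    have hP2ne : P2 ≠ 0 := by
      rintro rfl
      exact hPne (by rw [hP1]; simp)
    have hmulne : (Polynomial.X - Polynomial.C (1 / 27) : Polynomial K) * P2 ≠ 0 :=
      mul_ne_zero (Polynomial.X_sub_C_ne_zero _) hP2ne
    have hrm : ∀ α, P.rootMultiplicity α = (if α = -1 then 1 else 0) +
        ((if α = 1 / 27 then 1 else 0) + P2.rootMultiplicity α) := by
      intro α
      conv_lhs => rw [hP1]
      rw [Polynomial.rootMultiplicity_mul (hP1 ▸ hPne), Polynomial.rootMultiplicity_mul hmulne,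
        Polynomial.rootMultiplicity_X_sub_C, Polynomial.rootMultiplicity_X_sub_C]
    have hm1' : (-1 : K) ≠ 1 / 27 := fun h => hab (by rw [← h]; ring)
    have c1 : P2.rootMultiplicity (-1) = 0 := by
      have h1 := (hmult (-1) (by simp) hm1).1 ((hDroot _).2 (Or.inl rfl))
      have h2 := hrm (-1)
      rw [if_pos rfl, if_neg hm1'] at h2
      omega
    have c2 : P2.rootMultiplicity (1 / 27) = 0 := by
      have h1 := (hmult (1 / 27) (one_div_ne_zero n27) hm2).1 ((hDroot _).2 (Or.inr rfl))
      have h2 := hrm (1 / 27)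
      rw [if_pos rfl, if_neg hm1'.symm] at h2
      omega
    have heven : ∀ α, Even (P2.rootMultiplicity α) := by
      intro α
      by_cases e1 : α = -1
      · rw [e1, c1]; exact Even.zero
      by_cases e2 : α = 1 / 27
      · rw [e2, c2]; exact Even.zero
      have h2 := hrm α
      rw [if_neg e1, if_neg e2, zero_add, zero_add] at h2
      rw [← h2]
      by_cases hr : P.IsRoot α
      · have hα : α ≠ 0 := by rintro rfl; exact hroot0 hr
        have h3 := (hmult α hα hr).2 (by rw [Ne, hDroot]; tauto)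
        rw [h3]; exact even_two
      · rw [Polynomial.rootMultiplicity_eq_zero hr]; exact Even.zero
    obtain ⟨Q, hQ⟩ := exists_sq_of_even _ P2 le_rfl hP2ne heven
    obtain ⟨c, hc⟩ := IsAlgClosed.exists_pow_nat_eq (-(1 / 27) : K) (n := 2) (by norm_num)
    set Q1 : Polynomial K := Polynomial.C c * Q with hQ1
    have hPQ : P = (1 - 26 * Polynomial.X - 27 * (Polynomial.X * Polynomial.X)) * (Q1 * Q1) := by
      rw [hP1, hQ, hQ1]
      have hCc : (Polynomial.C c * Polynomial.C c : Polynomial K) = - Polynomial.C (1 / 27) := by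
        rw [← Polynomial.C_mul, ← sq, hc, Polynomial.C_neg]
      have h27 : (27 : Polynomial K) * Polynomial.C (1 / 27) = 1 := by
        have : (27 : Polynomial K) = Polynomial.C 27 := rfl
        rw [this, ← Polynomial.C_mul, mul_one_div_cancel n27, Polynomial.C_1]
      rw [Polynomial.C_neg, Polynomial.C_1]
      linear_combination (-(1 - 26 * Polynomial.X - 27 * (Polynomial.X * Polynomial.X)) * Q * Q)
        * hCc + (- Polynomial.X - Polynomial.X * Polynomial.X) * Q * Q * h27
    have hQ1m1 : Q1.eval (-1) ≠ 0 := by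
      intro h
      have h2 : P2.IsRoot (-1) := by
        have hc0 : c ≠ 0 := by
          rintro rfl
          have : (1 / 27 : K) = 0 := by
            have h3 : (0 : K) ^ 2 = 0 := by norm_num
            rw [h3] at hc
            exact neg_eq_zero.1 hc.symm
          exact one_div_ne_zero n27 this
        rw [hQ1, Polynomial.eval_mul, Polynomial.eval_C] at h
        rw [hQ, Polynomial.IsRoot.def, Polynomial.eval_mul, (mul_eq_zero.1 h).resolve_left hc0,
          mul_zero]
      have h3 := (Polynomial.rootMultiplicity_pos hP2ne).2 h2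
      omega
    have hQ10 : Q1.coeff 0 ≠ 0 := by
      intro h
      rw [hPQ, Polynomial.mul_coeff_zero, Polynomial.mul_coeff_zero Q1, h] at hP0
      simp at hP0
    -- the two sides of the functional equation for `Q1`
    set qx : K⟦X⟧ := Polynomial.aeval (xs : K⟦X⟧) Q1 with hqx
    set qy : K⟦X⟧ := Polynomial.aeval (ys : K⟦X⟧) Q1 with hqy
    have hfx : Polynomial.aeval (xs : K⟦X⟧) P = (1 - 26 * xs - 27 * (xs * xs)) * (qx * qx) := by
      rw [hPQ]
      simp only [map_mul, map_sub, map_one, map_ofNat, Polynomial.aeval_X, hqx]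
    have hfy : Polynomial.aeval (ys : K⟦X⟧) P = (1 - 26 * ys - 27 * (ys * ys)) * (qy * qy) := by
      rw [hPQ]
      simp only [map_mul, map_sub, map_one, map_ofNat, Polynomial.aeval_X, hqy]
    rw [hfx, hfy] at hfe
    have hys := ys_mul (R := K)
    have hE : ((1 + 4 * X) * (1 - 3 * X) * (1 - 3 * X + 4 * (X * X)) : K⟦X⟧) ≠ 0 := by
      intro h
      have := congrArg constantCoeff h
      simp at this
    have hprod : ((1 + 4 * X) * (1 - 3 * X) * (1 - 3 * X + 4 * (X * X)) : K⟦X⟧) *
        (((1 - 2 * X) ^ 3 * (1 - 12 * X) * qx - (1 - 5 * X) * (1 - 2 * X) ^ (p - 1) * qy) *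
        ((1 - 2 * X) ^ 3 * (1 - 12 * X) * qx + (1 - 5 * X) * (1 - 2 * X) ^ (p - 1) * qy)) = 0 := by
      have e1 : (1 - 26 * xs - 27 * (xs * xs) : K⟦X⟧) =
          ((1 + 4 * X) * (1 - 3 * X) * (1 - 3 * X + 4 * (X * X))) * (1 - 12 * X) ^ 2 := by
        unfold xs; ring
      rw [e1, two_mul (p - 1), pow_add] at hfe
      linear_combination (1 - 2 * X) ^ 6 * hfe
        + (-(26 * (1 - 2 * X) ^ 3 + 27 * (ys * (1 - 2 * X) ^ 3 + X ^ 2 * (1 - 4 * X)))) *
          ((1 - 2 * X) ^ (p - 1)) ^ 2 * qy * qy * hys
    have hor := (mul_eq_zero.1 hprod).resolve_left hE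
    have hcx : constantCoeff qx = Q1.coeff 0 := by
      have : constantCoeff qx = (Polynomial.aeval (constantCoeff (xs : K⟦X⟧)) Q1) := by
        rw [hqx]
        exact (Polynomial.hom_eval₂ Q1 _ (constantCoeff (R := K)) _).trans (by
          rw [Polynomial.aeval_def]; congr 1)
      rw [this]
      simp [xs, Polynomial.coeff_zero_eq_eval_zero]
    have hcy : constantCoeff qy = Q1.coeff 0 := by
      have : constantCoeff qy = (Polynomial.aeval (constantCoeff (ys : K⟦X⟧)) Q1) := by
        rw [hqy]
        exact (Polynomial.hom_eval₂ Q1 _ (constantCoeff (R := K)) _).trans (by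
          rw [Polynomial.aeval_def]; congr 1)
      rw [this]
      simp [ys, Polynomial.coeff_zero_eq_eval_zero]
    have hfin : (1 - 2 * X) ^ 3 * (1 - 12 * X) * qx = (1 - 5 * X) * (1 - 2 * X) ^ (p - 1) * qy := by
      rcases mul_eq_zero.1 hor with h | h
      · exact sub_eq_zero.1 h
      · exfalso
        have h1 := congrArg constantCoeff h
        simp only [map_add, map_mul, map_pow, map_sub, map_one, map_ofNat, constantCoeff_X,
          mul_zero, sub_zero, one_pow, one_mul, mul_one, map_zero, hcx, hcy] at h1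
        have h2 : (2 : K) * Q1.coeff 0 = 0 := by linear_combination h1
        exact mul_ne_zero n2 hQ10 h2
    have hm0 : (1 - 2 * v0) ≠ 0 := by
      intro h
      rw [h, zero_pow (by omega)] at hv1
      exact zero_ne_one hv1
    have hev := eval_func (P := Q1) (c := (1 - 2 * Polynomial.X) ^ 3 * (1 - 12 * Polynomial.X))
      (d := (1 - 5 * Polynomial.X) * (1 - 2 * Polynomial.X) ^ (p - 1)) (N := Q1.natDegree) le_rfl
      (by
        have e1 : (((1 - 2 * Polynomial.X) ^ 3 * (1 - 12 * Polynomial.X) : Polynomial K) : K⟦X⟧) =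
            (1 - 2 * X) ^ 3 * (1 - 12 * X) := by
          rw [← toPS_apply]
          simp only [map_sub, map_mul, map_one, map_ofNat, map_pow]
          rw [toPS_apply, Polynomial.coe_X]
        have e2 : (((1 - 5 * Polynomial.X) * (1 - 2 * Polynomial.X) ^ (p - 1) : Polynomial K) :
            K⟦X⟧) = (1 - 5 * X) * (1 - 2 * X) ^ (p - 1) := by
          rw [← toPS_apply]
          simp only [map_sub, map_mul, map_one, map_ofNat, map_pow]
          rw [toPS_apply, Polynomial.coe_X]
        rw [e1, e2]
        exact hfin) (v := v0) (y0 := -1) (by linear_combination (-(1 - 3 * v0)) * hv0)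
    have ex : v0 * ((1 - 4 * v0) * (1 - 4 * v0)) = -1 := by
      linear_combination (4 * v0 + 1) * hv0
    rw [ex] at hev
    simp only [Polynomial.eval_pow, Polynomial.eval_sub, Polynomial.eval_mul, Polynomial.eval_one,
      Polynomial.eval_X, Polynomial.eval_ofNat] at hev
    rw [hv1] at hev
    have h1 : ((1 - 2 * v0) ^ (3 * Q1.natDegree) * Q1.eval (-1)) *
        ((1 - 2 * v0) ^ 3 * (1 - 12 * v0) - (1 - 5 * v0)) = 0 := by
      linear_combination hev
    have h2 := (mul_eq_zero.1 h1).resolve_left (mul_ne_zero (pow_ne_zero _ hm0) hQ1m1)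
    have h3 : 7 * v0 = 0 := by
      linear_combination h2 - (24 * v0 ^ 2 - 20 * v0) * hv0
    have h4 := (mul_eq_zero.1 h3).resolve_left n7
    rw [h4] at hv0
    norm_num at hv0
  · -- all multiplicities are even
    have hm2 : ¬ P.IsRoot (1 / 27) := fun h => hm1 (hkey.2 h)
    apply exists_sq_of_even _ P le_rfl hPne
    intro α
    by_cases hr : P.IsRoot α
    · have hα : α ≠ 0 := by rintro rfl; exact hroot0 hr
      have h3 := (hmult α hα hr).2 (by
        rw [Ne, hDroot]
        rintro (h | h)
        · exact hm1 (h ▸ hr)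
        · exact hm2 (h ▸ hr))
      rw [h3]; exact even_two
    · rw [Polynomial.rootMultiplicity_eq_zero hr]; exact Even.zero

end main

end Pool.Agent.W32
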